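import Mathlib
import Pool.Agent.Work.MP_4329d7_ag.FDefs

/-!
The definitions are those of `FDefs` (`TensorForm`, `IsRegularAt`, `IsRegular`).
-/

namespace Pool.Agent.Work.MP_4329d7_ag.FF

/-- `K` has no nonzero regular tensor differential of order `m`. -/
def NoTensor (K : Type) [Field K] [Algebra ℂ K] (m : ℕ) : Prop :=
  ∀ T : TensorForm K m, IsRegular T → T = 0

end Pool.Agent.Work.MP_4329d7_ag.FF
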