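import Mathlib
import Pool.Agent.Work.MP_4329d7_ag.FF.Defs

/-!
Shared definitions.

`κ` is a finite type; the index set of the coordinates is `Option κ`. `A κ = ℂ[X_k : k ∈ κ]`,
`u (some k) = X_k`, `u none = - ∑ X_k`, so `∑_j u_j = 0` is the only linear relation.
-/

open MvPolynomial
open scoped WithZero

namespace Pool.Agent.Work.MP_4329d7_ag.FF

/-- The polynomial ring. -/
abbrev A (κ : Type) : Type := MvPolynomial κ ℂ

/-- Its fraction field. -/
abbrev P (κ : Type) : Type := FractionRing (MvPolynomial κ ℂ)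

/-- The linear forms `u_j`, with `∑_j u_j = 0`. -/
noncomputable def u {κ : Type} [Fintype κ] : Option κ → A κ
  | none => -∑ k, X k
  | some k => X k

/-- `u_j` in the fraction field. -/
noncomputable def pu {κ : Type} [Fintype κ] (j : Option κ) : P κ := algebraMap (A κ) (P κ) (u j)

/-- The vector `e_j - e_k` (the coordinate `none` is forgotten). -/
def pairVec {κ : Type} [DecidableEq κ] {R : Type} [Ring R] (j k : Option κ) : κ → R :=
  fun l => (if j = some l then 1 else 0) - (if k = some l then 1 else 0)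

/-- The derivation of `A κ` with `X_k ↦ v_k` (constants). -/
noncomputable def dA {κ : Type} (v : κ → ℂ) : Derivation ℂ (A κ) (A κ) :=
  mkDerivation ℂ (fun k => C (v k))

/-- The Euler vector `(u_k)_k`. -/
noncomputable def uvec {κ : Type} [Fintype κ] : κ → P κ := fun k => pu (some k)

/-- The `P κ`-linear form `v ↦ D_v (u_i / u_none)` (where `D_v u_none = - ∑ v_k`). -/
noncomputable def ell {κ : Type} [Fintype κ] (i : κ) : (κ → P κ) →ₗ[P κ] P κ where
  toFun v := (v i * pu none + pu (some i) * ∑ k, v k) / (pu none) ^ 2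
  map_add' v w := by
    simp only [Pi.add_apply, Finset.sum_add_distrib]; ring
  map_smul' c v := by
    simp only [Pi.smul_apply, smul_eq_mul, ← Finset.mul_sum, RingHom.id_apply]; ring

lemma ell_apply {κ : Type} [Fintype κ] (i : κ) (v : κ → P κ) :
    ell i v = (v i * pu none + pu (some i) * ∑ k, v k) / (pu none) ^ 2 := rfl

/-- Number of pairs of the word `W` containing `j`. -/
def cnt {κ : Type} [DecidableEq κ] {m : ℕ} (W : Fin m → Option κ × Option κ) (j : Option κ) : ℕ :=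
  (Finset.univ.filter fun s => (W s).1 = j ∨ (W s).2 = j).card

/-- `⌊((a_j - 1) c + α_j) / a_j⌋`. -/
def flr {κ : Type} (a α : Option κ → ℕ) (c : ℕ) (j : Option κ) : ℕ := ((a j - 1) * c + α j) / a j

/-- The word: `(i, l0)` on `S`, `(l s, l0)` outside `S`. -/
def W0 {κ : Type} {m : ℕ} (l0 i : κ) (S : Finset (Fin m)) (l : Fin m → κ) :
    Fin m → Option κ × Option κ :=
  fun s => if s ∈ S then (some i, some l0) else (some (l s), some l0)

/-- The word: `(l0, none)` on `S`, `(l s, l0)` outside `S`. -/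
def W3 {κ : Type} {m : ℕ} (l0 : κ) (S : Finset (Fin m)) (l : Fin m → κ) :
    Fin m → Option κ × Option κ :=
  fun s => if s ∈ S then (some l0, none) else (some (l s), some l0)

/-- The vectors `e_j - e_k` given by a word. -/
def wv {κ : Type} [DecidableEq κ] {R : Type} [Ring R] {m : ℕ}
    (W : Fin m → Option κ × Option κ) : Fin m → κ → R :=
  fun s => pairVec (W s).1 (W s).2

/-- A multilinear form `G` killed by the Euler vector, with controlled poles and homogeneous. -/
structure GoodForm {κ : Type} [Fintype κ] [DecidableEq κ] (a α : Option κ → ℕ) (A0 m : ℕ)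
    (G : MultilinearMap (P κ) (fun _ : Fin m => κ → P κ) (P κ)) : Prop where
  euler : ∀ (v : Fin m → κ → P κ) (s : Fin m), G (Function.update v s uvec) = 0
  poly : ∀ W : Fin m → Option κ × Option κ, (∀ s, (W s).1 ≠ (W s).2) →
    ∃ Q : A κ, algebraMap (A κ) (P κ) Q =
        (∏ j, pu j ^ flr a α (cnt W j) j) * G (wv W) ∧
      ∀ d ∈ Q.support, ((Finsupp.degree d : ℕ) : ℤ) = ∑ j, (flr a α (cnt W j) j : ℤ) - m - A0

/-- Homogeneous rational functions of degree `d` (zero is homogeneous of every degree). -/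
def IsHomP {κ : Type} (p : P κ) (d : ℤ) : Prop :=
  ∃ (f g : A κ) (df dg : ℕ), f.IsHomogeneous df ∧ g.IsHomogeneous dg ∧ g ≠ 0 ∧
    p * algebraMap (A κ) (P κ) g = algebraMap (A κ) (P κ) f ∧ (df : ℤ) - dg = d

/-! ### Combinatorial parameters -/

/-- Parameters of the example: exponents `a_j ≥ 2` with `∑ 1/a_j = 1`, an integer `N ≥ 1` and
weights `h_j` with `N ∣ a_j h_j` and `∑ h_j ≡ 1 (mod N)`. -/
structure BP (ι : Type) [Fintype ι] where
  a : ι → ℕ
  two_le : ∀ j, 2 ≤ a j
  sum_inv : ∑ j, (1 : ℚ) / a j = 1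
  N : ℕ
  N_pos : 0 < N
  h : ι → ℤ
  dvd : ∀ j, (N : ℤ) ∣ a j * h j
  sum_h : (N : ℤ) ∣ ∑ j, h j - 1

/-- Admissible exponent vectors: the monomials `x^β` of `K`. -/
def BP.Adm {ι : Type} [Fintype ι] (B : BP ι) (β : ι → ℤ) : Prop :=
  ∑ j, (β j : ℚ) / B.a j = 0 ∧ (B.N : ℤ) ∣ ∑ j, β j * B.h j

/-- The canonicity condition. -/
def BP.Can {ι : Type} [Fintype ι] (B : BP ι) : Prop :=
  ∀ ν : ι → ℚ, (∀ j, 0 ≤ ν j) → (∃ q, ν q = 0) →
    (∀ β : ι → ℤ, B.Adm β → ∃ z : ℤ, ∑ j, (β j : ℚ) * ν j = z) →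
      ∑ j, ν j = 0 ∨ 1 ≤ ∑ j, ν j

/-- The canonicity condition, integer form. -/
def BP.CanZ {ι : Type} [Fintype ι] (B : BP ι) : Prop :=
  ∀ c : ι → ℕ, (∃ q, c q = 0) → (∃ j, c j ≠ 0) →
    (∀ β : ι → ℤ, B.Adm β → ∃ z : ℤ, ∑ j, (β j : ℚ) * c j / B.a j = z) →
      1 ≤ ∑ j, (c j : ℚ) / B.a j

/-! ### The Kummer extension and the field `K` -/

/-- `F = P(x_j)`, `x_j ^ a_j = u_j`. -/
structure Kum (κ : Type) [Fintype κ] (a : Option κ → ℕ) (F : Type) [Field F] [Algebra ℂ F]
    [Algebra (P κ) F] where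
  x : Option κ → F
  pow : ∀ j, x j ^ a j = algebraMap (P κ) F (pu j)
  gen : Algebra.adjoin (P κ) (Set.range x) = ⊤

/-- The field `K ⊆ F` generated by the admissible monomials. -/
noncomputable def BP.K {κ : Type} [Fintype κ] (B : BP (Option κ)) {F : Type} [Field F]
    [Algebra ℂ F] [Algebra (P κ) F] (D : Kum κ B.a F) : IntermediateField ℂ F :=
  IntermediateField.adjoin ℂ {y | ∃ β : Option κ → ℤ, B.Adm β ∧ y = ∏ j, D.x j ^ β j}

/-! ### Frames -/

/-- A transcendence basis of `K` with its dual derivations. -/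
structure Frame (K : Type) [Field K] [Algebra ℂ K] (I : Type) [DecidableEq I] where
  z : I → K
  d : I → Derivation ℂ K K
  dual : ∀ i j, d i (z j) = if i = j then 1 else 0
  tb : IsTranscendenceBasis ℂ z

/-! ### Local data at a prime `π` of `A κ` -/

/-- A discretely valued field `L` with uniformizer `s`, an embedding `φ` of `A κ` such that `π`
gets valuation `s ^ e` and polynomials prime to `π` become units, with roots of the `u_j` and
derivations extending the `∂/∂u_j - ∂/∂u_k` up to a power of `s`. (Concretely `L` is the field of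
Laurent series over an algebraically closed field.) -/
structure LocData (κ : Type) [Fintype κ] [DecidableEq κ] (π : A κ) (e : ℕ) where
  L : Type
  [fieldL : Field L]
  [algL : Algebra ℂ L]
  v : Valuation L ℤᵐ⁰
  trivial : ∀ c : ℂ, v (algebraMap ℂ L c) ≤ 1
  s : L
  s_ne : s ≠ 0
  s_lt : v s < 1
  φ : A κ →ₐ[ℂ] L
  int : ∀ f, v (φ f) ≤ 1
  val : v (φ π) = v s ^ e
  unit : ∀ f, ¬ π ∣ f → v (φ f) = 1
  root : ∀ (j : Option κ) (b : ℕ), 0 < b → (¬ Associated π (u j) ∨ b ∣ e) → ∃ y : L, y ^ b = φ (u j)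
  der : ∀ j k : Option κ, j ≠ k → ∃ Δ : Derivation ℂ L L,
    (∀ g, v g ≤ 1 → v (Δ g) ≤ 1) ∧
    (∀ f, Δ (φ f) = s ^ (e - 1) * φ (dA (pairVec j k) f)) 
  der' : ∀ j k p : Option κ, j ≠ k → p ≠ j → p ≠ k → Associated π (u p) →
    ∃ Δ : Derivation ℂ L L,
    (∀ g, v g ≤ 1 → v (Δ g) ≤ 1) ∧ (∀ f, Δ (φ f) = φ (dA (pairVec j k) f))

attribute [instance] LocData.fieldL LocData.algL

end Pool.Agent.Work.MP_4329d7_ag.FF
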