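import Mathlib
import Pool.Agent.Work.MP_4329d7_ag.Ext
import Pool.Agent.Work.MP_4329d7_ag.FF.Setup

/-!
RatExt: a regular nonzero tensor form on `K` gives a regular nonzero one on every extension field
of `K`, in particular on `K(t)`; frames of `K` and of `K(t)`.
-/

open scoped WithZero

namespace Pool.Agent.Work.MP_4329d7_ag.FF

section General

variable {K L : Type} [Field K] [Algebra ℂ K] [Field L] [Algebra ℂ L] [Algebra K L]
  [IsScalarTower ℂ K L]

theorem ratExt_sum_apply {M : Type} [AddCommGroup M] [Module K M] [Module ℂ M]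
    {ι : Type} (s : Finset ι) (D : ι → Derivation ℂ K M) (x : K) :
    (∑ i ∈ s, D i) x = ∑ i ∈ s, D i x := by
  classical
  induction s using Finset.induction_on with
  | empty => simp
  | insert a s ha ih => rw [Finset.sum_insert ha, Finset.sum_insert ha, Derivation.add_apply, ih]

/-- The value of a derivation of `L` at an element of `K`, in terms of a frame of `K`. -/
theorem ratExt_apply {I : Type} [Fintype I] [DecidableEq I] (Fr : Frame K I)
    (D : Derivation ℂ L L) (g : K) :
    D (algebraMap K L g) = ∑ i, D (algebraMap K L (Fr.z i)) * algebraMap K L (Fr.d i g) := by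
  have h := Pool.Agent.Work.MP_4329d7_ag.R.derivation_ext (M := L) Fr.tb
    (D₁ := (D.compAlgebraMap K : Derivation ℂ K L))
    (D₂ := ∑ i, D (algebraMap K L (Fr.z i)) •
      ((Algebra.linearMap K L).compDer (Fr.d i))) ?_
  · have h2 := congrArg (fun E : Derivation ℂ K L => E g) h
    rw [ratExt_sum_apply] at h2
    exact h2
  · intro j
    rw [ratExt_sum_apply]
    have h3 : ∀ i, (D (algebraMap K L (Fr.z i)) •
      ((Algebra.linearMap K L).compDer (Fr.d i))) (Fr.z j) =
        D (algebraMap K L (Fr.z i)) * algebraMap K L (Fr.d i (Fr.z j)) := fun i => rfl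
    simp only [h3, Fr.dual]
    simp [apply_ite (algebraMap K L)]

/-- A derivation of `K` in terms of a frame. -/
theorem ratExt_der {I : Type} [Fintype I] [DecidableEq I] (Fr : Frame K I)
    (D : Derivation ℂ K K) : D = ∑ i, D (Fr.z i) • Fr.d i := by
  refine Derivation.ext fun g => ?_
  rw [ratExt_sum_apply]
  have := ratExt_apply (L := K) Fr D g
  simpa using this

/-- A tensor form in terms of a frame. -/
theorem ratExt_expand {I : Type} [Fintype I] [DecidableEq I] (Fr : Frame K I) {m : ℕ}
    (T : TensorForm K m) (D : Fin m → Derivation ℂ K K) :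
    T D = ∑ w : Fin m → I, (∏ s, D s (Fr.z (w s))) * T (fun s => Fr.d (w s)) := by
  classical
  have h1 : D = fun s => ∑ i, D s (Fr.z i) • Fr.d i := by
    funext s
    exact ratExt_der Fr (D s)
  conv_lhs => rw [h1]
  rw [MultilinearMap.map_sum]
  refine Finset.sum_congr rfl fun w _ => ?_
  rw [MultilinearMap.map_smul_univ, smul_eq_mul]

/-- Evaluation at `z`, a linear form on the derivations. -/
def ratExt_ev (z : L) : Derivation ℂ L L →ₗ[L] L where
  toFun D := D z
  map_add' _ _ := rfl
  map_smul' _ _ := rfl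

/-- The pullback of a tensor form. -/
noncomputable def ratExt_form {I : Type} [Fintype I] [DecidableEq I] (Fr : Frame K I) {m : ℕ}
    (T : TensorForm K m) : TensorForm L m :=
  ∑ w : Fin m → I, algebraMap K L (T (fun s => Fr.d (w s))) •
    (MultilinearMap.mkPiAlgebra L (Fin m) L).compLinearMap
      (fun s => ratExt_ev (algebraMap K L (Fr.z (w s))))

omit [IsScalarTower ℂ K L] in
theorem ratExt_form_apply {I : Type} [Fintype I] [DecidableEq I] (Fr : Frame K I) {m : ℕ}
    (T : TensorForm K m) (D : Fin m → Derivation ℂ L L) :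
    ratExt_form (L := L) Fr T D = ∑ w : Fin m → I,
      (∏ s, D s (algebraMap K L (Fr.z (w s)))) * algebraMap K L (T (fun s => Fr.d (w s))) := by
  rw [ratExt_form, _root_.sum_apply]
  refine Finset.sum_congr rfl fun w _ => ?_
  rw [_root_.smul_apply, MultilinearMap.compLinearMap_apply,
    MultilinearMap.mkPiAlgebra_apply, smul_eq_mul, mul_comm]
  rfl

/-- The pullback of a form regular at the restriction of `v` is regular at `v`. -/
theorem ratExt_regularAt {I : Type} [Fintype I] [DecidableEq I] (Fr : Frame K I) {m : ℕ}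
    (T : TensorForm K m) (v : Valuation L ℤᵐ⁰)
    (h : IsRegularAt (v.comap (algebraMap K L)) T) :
    IsRegularAt v (ratExt_form (L := L) Fr T) := by
  classical
  obtain ⟨r, c, g, hc, hg, hT⟩ := h
  refine ⟨r, fun i => algebraMap K L (c i), fun i j => algebraMap K L (g i j),
    fun i => hc i, fun i j => hg i j, fun D => ?_⟩
  rw [ratExt_form_apply]
  have h1 : ∀ i j, D j (algebraMap K L (g i j)) =
      ∑ k, D j (algebraMap K L (Fr.z k)) * algebraMap K L (Fr.d k (g i j)) :=
    fun i j => ratExt_apply Fr (D j) (g i j)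
  simp only [h1, hT]
  simp only [Finset.prod_univ_sum, Fintype.piFinset_univ, Finset.mul_sum, map_sum, map_mul,
    map_prod, Finset.prod_mul_distrib]
  rw [Finset.sum_comm]
  refine Finset.sum_congr rfl fun i _ => Finset.sum_congr rfl fun w _ => ?_
  ring

theorem ratExt_regular {I : Type} [Fintype I] [DecidableEq I] (Fr : Frame K I) {m : ℕ}
    (T : TensorForm K m) (h : IsRegular T) : IsRegular (ratExt_form (L := L) Fr T) := by
  intro v hv
  refine ratExt_regularAt Fr T v (h _ fun c => ?_)
  rw [Valuation.comap_apply, ← IsScalarTower.algebraMap_apply]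
  exact hv c

/-- Derivations of `L` extending those of a frame of `K`. -/
theorem ratExt_exists_der {I : Type} [DecidableEq I] (Fr : Frame K I) (i : I) :
    ∃ D : Derivation ℂ L L, ∀ j, D (algebraMap K L (Fr.z j)) = if i = j then 1 else 0 := by
  classical
  have hy : AlgebraicIndependent ℂ (fun j => algebraMap K L (Fr.z j)) :=
    Fr.tb.1.map' (f := IsScalarTower.toAlgHom ℂ K L) (algebraMap K L).injective
  obtain ⟨s, hs, hsb⟩ := exists_isTranscendenceBasis_superset (R := ℂ)
    ((AlgebraicIndependent.coe_range hy :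
      AlgebraicIndepOn ℂ id (Set.range fun j => algebraMap K L (Fr.z j))))
  let yi : I → s := fun c => ⟨algebraMap K L (Fr.z c), hs ⟨c, rfl⟩⟩
  obtain ⟨E, hE⟩ := Pool.Agent.Work.MP_4329d7_ag.R.exists_derivation (M := L) hsb
    (fun x : s => if yi i = x then 1 else 0)
  refine ⟨E, fun j => ?_⟩
  have h2 := hE (yi j)
  have h3 : yi i = yi j ↔ i = j := by
    constructor
    · intro h
      exact hy.injective (congrArg Subtype.val h)
    · rintro rfl
      rfl
  rw [if_congr h3 rfl rfl] at h2
  exact h2

theorem ratExt_ne_zero {I : Type} [Fintype I] [DecidableEq I] (Fr : Frame K I) {m : ℕ}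
    (T : TensorForm K m) (h : T ≠ 0) : ratExt_form (L := L) Fr T ≠ 0 := by
  classical
  intro h0
  apply h
  refine MultilinearMap.ext fun D => ?_
  rw [ratExt_expand Fr T D, _root_.zero_apply]
  refine Finset.sum_eq_zero fun w _ => ?_
  choose E hE using ratExt_exists_der (L := L) Fr
  have h1 := ratExt_form_apply (L := L) Fr T (fun s => E (w s))
  rw [h0, _root_.zero_apply, Finset.sum_eq_single w] at h1
  · simp only [hE, if_true, Finset.prod_const_one, one_mul] at h1
    rw [(map_eq_zero (algebraMap K L)).1 h1.symm, mul_zero]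
  · intro w' _ hw'
    obtain ⟨s, hs⟩ := Function.ne_iff.1 hw'
    rw [Finset.prod_eq_zero (Finset.mem_univ s), zero_mul]
    simp only [hE]
    rw [if_neg (fun h => hs h.symm)]
  · intro h2
    exact absurd (Finset.mem_univ w) h2

/-- A nonzero regular tensor form on `K` gives a nonzero regular one on every extension field
`L`. -/
theorem exists_regular_extension {I : Type} [Fintype I] [DecidableEq I] (Fr : Frame K I) {m : ℕ}
    (h : ∃ T : TensorForm K m, IsRegular T ∧ T ≠ 0) :
    ∃ T : TensorForm L m, IsRegular T ∧ T ≠ 0 := by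
  obtain ⟨T, hT, hne⟩ := h
  exact ⟨ratExt_form Fr T, ratExt_regular Fr T hT, ratExt_ne_zero Fr T hne⟩

/-- A transcendence basis gives a frame. -/
theorem ratExt_exists_frame {I : Type} [DecidableEq I] (z : I → K) (hz : IsTranscendenceBasis ℂ z) :
    ∃ Fr : Frame K I, Fr.z = z := by
  have h : ∀ i, ∃ D : Derivation ℂ K K, ∀ j, D (z j) = if i = j then 1 else 0 := fun i =>
    Pool.Agent.Work.MP_4329d7_ag.R.exists_derivation (M := K) hz _
  choose d hd using h
  exact ⟨⟨z, d, hd, hz⟩, rfl⟩

end General

/-- A nonzero regular tensor form on `K` gives a nonzero regular one on `K(t)`. -/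
theorem exists_regular_ratFunc {K : Type} [Field K] [Algebra ℂ K] {I : Type} [Fintype I]
    [DecidableEq I] (Fr : Frame K I) {m : ℕ} (h : ∃ T : TensorForm K m, IsRegular T ∧ T ≠ 0) :
    ∃ T : TensorForm (RatFunc K) m, IsRegular T ∧ T ≠ 0 :=
  exists_regular_extension (L := RatFunc K) Fr h

/-- A transcendence basis of `K(t)`. -/
theorem ratFunc_isTranscendenceBasis {K : Type} [Field K] [Algebra ℂ K] {I : Type} (z : I → K)
    (hz : IsTranscendenceBasis ℂ z) :
    IsTranscendenceBasis ℂ (Sum.elim (fun _ : Unit => (RatFunc.X : RatFunc K))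
      (algebraMap K (RatFunc K) ∘ z)) := by
  have h1 : IsTranscendenceBasis K (fun _ : Unit => (Polynomial.X : Polynomial K)) :=
    IsTranscendenceBasis.polynomial Unit K
  have : Algebra.IsAlgebraic (Polynomial K) (RatFunc K) :=
    IsFractionRing.comap_isAlgebraic_iff (K := RatFunc K).2 inferInstance
  have h2 := h1.algebraMap_comp (A := RatFunc K)
  have h3 : (algebraMap (Polynomial K) (RatFunc K) ∘ fun _ : Unit => (Polynomial.X : Polynomial K))
      = fun _ : Unit => (RatFunc.X : RatFunc K) := by
    funext i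
    exact RatFunc.algebraMap_X
  rw [h3] at h2
  exact hz.sumElim_comp h2

/-- A frame of `K(t)` from a frame of `K`. -/
theorem exists_frame_ratFunc {K : Type} [Field K] [Algebra ℂ K] {I : Type} [DecidableEq I]
    (Fr : Frame K I) : ∃ Fr' : Frame (RatFunc K) (Unit ⊕ I),
      Fr'.z = Sum.elim (fun _ : Unit => (RatFunc.X : RatFunc K))
        (algebraMap K (RatFunc K) ∘ Fr.z) :=
  ratExt_exists_frame _ (ratFunc_isTranscendenceBasis Fr.z Fr.tb)

end Pool.Agent.Work.MP_4329d7_ag.FF
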