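import Mathlib
import Pool.Agent.Work.MP_4329d7_ag.FF.Defs

/-!
Rep: explicit representations of forms regular at a valuation, on arbitrary finite index types.
-/

open scoped WithZero

namespace Pool.Agent.Work.MP_4329d7_ag.FF

variable {K : Type} [Field K] [Algebra ℂ K] (v : Valuation K ℤᵐ⁰)

/-- `T` is a finite sum of terms `c ∏_i D_i(g_i)` with `c, g_i ∈ O`. -/
def Rep {J : Type} [Fintype J] (T : (J → Derivation ℂ K K) → K) : Prop :=
  ∃ (R : Type) (_ : Fintype R) (c : R → K) (g : R → J → K),
    (∀ r, v (c r) ≤ 1) ∧ (∀ r i, v (g r i) ≤ 1) ∧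
      ∀ D, T D = ∑ r, c r * ∏ i, D i (g r i)

/-- HINT: a finite sum of `O`-multiples of elements of the spanning set. -/
theorem Rep.regularAt {m : ℕ} (T : TensorForm K m) (h : Rep v (fun D : Fin m → Derivation ℂ K K => T D)) :
    IsRegularAt v T := by
  obtain ⟨R, _, c, g, hc, hg, hT⟩ := h
  let e := Fintype.equivFin R
  refine ⟨Fintype.card R, fun i => c (e.symm i), fun i => g (e.symm i), fun i => hc _,
    fun i j => hg _ _, fun D => ?_⟩
  refine (hT D).trans ?_
  exact (Equiv.sum_comp e.symm (fun r => c r * ∏ j, D j (g r j))).symm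

theorem Rep.add {J : Type} [Fintype J] {T T' : (J → Derivation ℂ K K) → K}
    (h : Rep v T) (h' : Rep v T') : Rep v (fun D => T D + T' D) := by
  obtain ⟨R, _, c, g, hc, hg, hT⟩ := h
  obtain ⟨R', _, c', g', hc', hg', hT'⟩ := h'
  refine ⟨R ⊕ R', inferInstance, Sum.elim c c', Sum.elim g g', ?_, ?_, ?_⟩
  · rintro (r | r)
    · exact hc r
    · exact hc' r
  · rintro (r | r) i
    · exact hg r i
    · exact hg' r i
  · intro D
    simp only [hT, hT', Fintype.sum_sum_type, Sum.elim_inl, Sum.elim_inr]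

theorem Rep.sum {J S : Type} [Fintype J] [Fintype S] {T : S → (J → Derivation ℂ K K) → K}
    (h : ∀ s, Rep v (T s)) : Rep v (fun D => ∑ s, T s D) := by
  choose R hR c g hc hg hT using h
  refine ⟨Σ s, R s, inferInstance, fun x => c x.1 x.2, fun x => g x.1 x.2, fun x => hc _ _,
    fun x i => hg _ _ _, fun D => ?_⟩
  simp only [hT, Fintype.sum_sigma]

theorem Rep.smul {J : Type} [Fintype J] {T : (J → Derivation ℂ K K) → K} (c : K)
    (hc : v c ≤ 1) (h : Rep v T) : Rep v (fun D => c * T D) := by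
  obtain ⟨R, _, c', g, hc', hg, hT⟩ := h
  refine ⟨R, inferInstance, fun r => c * c' r, g, fun r => ?_, hg, fun D => ?_⟩
  · rw [map_mul]
    exact mul_le_one' hc (hc' r)
  · simp only [hT, Finset.mul_sum, mul_assoc]

/-- Product of forms in the same blocks of variables.
HINT: `Finset.prod_univ_sum`: expand the product over `b` of the sums over `R b`. -/
theorem Rep.block {J S : Type} [Fintype J] [Fintype S]
    {T : S → (J → Derivation ℂ K K) → K} (h : ∀ s, Rep v (T s)) :
    Rep v (fun D : S × J → Derivation ℂ K K => ∏ s, T s (fun j => D (s, j))) := by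
  classical
  choose R hR c g hc hg hT using h
  refine ⟨(s : S) → R s, inferInstance, fun r => ∏ s, c s (r s), fun r x => g x.1 (r x.1) x.2,
    fun r => ?_, fun r x => hg _ _ _, fun D => ?_⟩
  · rw [map_prod]
    exact Finset.prod_le_one' fun s _ => hc s (r s)
  · simp only [hT]
    rw [Finset.prod_univ_sum, Fintype.piFinset_univ]
    refine Finset.sum_congr rfl fun r _ => ?_
    rw [Fintype.prod_prod_type, ← Finset.prod_mul_distrib]

theorem Rep.reindex {J J' : Type} [Fintype J] [Fintype J'] (e : J ≃ J')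
    {T : (J → Derivation ℂ K K) → K} (h : Rep v T) :
    Rep v (fun D : J' → Derivation ℂ K K => T (fun j => D (e j))) := by
  obtain ⟨R, _, c, g, hc, hg, hT⟩ := h
  refine ⟨R, inferInstance, c, fun r i => g r (e.symm i), hc, fun r i => hg _ _, fun D => ?_⟩
  simp only [hT]
  refine Finset.sum_congr rfl fun r _ => ?_
  congr 1
  rw [← Equiv.prod_comp e]
  simp

/-- A term with one `c_i`-multiple of `D_i (g_i)` for each `i`. -/
theorem Rep.term {J : Type} [Fintype J] (c g : J → K) (hc : v (∏ i, c i) ≤ 1)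
    (hg : ∀ i, v (g i) ≤ 1) : Rep v (fun D : J → Derivation ℂ K K => ∏ i, (c i * D i (g i))) := by
  refine ⟨Unit, inferInstance, fun _ => ∏ i, c i, fun _ => g, fun _ => hc, fun _ => hg,
    fun D => ?_⟩
  simp [Finset.prod_mul_distrib]

end Pool.Agent.Work.MP_4329d7_ag.FF
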