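import Mathlib
import Pool.Agent.Work.MP_4329d7_ag.FF.Rep

/-!
The logarithmic determinants of `Rep.lean`.
-/

open scoped WithZero

namespace Pool.Agent.Work.MP_4329d7_ag.FF

variable {K : Type} [Field K] [Algebra ℂ K] (v : Valuation K ℤᵐ⁰)

section

omit [Algebra ℂ K]

theorem repdet_int_le (n : ℤ) : v (n : K) ≤ 1 := by
  have hnat : ∀ m : ℕ, v (m : K) ≤ 1 := by
    intro m
    induction m with
    | zero => simp
    | succ m ih =>
      push_cast
      exact (v.map_add _ _).trans (max_le ih (by simp))
  obtain ⟨m, rfl | rfl⟩ := n.eq_nat_or_neg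
  · simpa using hnat m
  · push_cast
    rw [Valuation.map_neg]
    exact hnat m

theorem repdet_prod_le {ι : Type} (s : Finset ι) (f : ι → K) (h : ∀ i ∈ s, v (f i) ≤ 1) :
    v (∏ i ∈ s, f i) ≤ 1 := by
  rw [map_prod]
  exact Finset.prod_le_one' h

/-- Every value is a power of the value of a uniformizer. -/
theorem repdet_exists_zpow {t : K} (ht0 : t ≠ 0) (ht1 : v t < 1)
    (htmax : ∀ x, v x < 1 → v x ≤ v t) {x : K} (hx : x ≠ 0) :
    ∃ (n : ℤ) (e : K), v e = 1 ∧ x = t ^ n * e := by
  have hvt : v t ≠ 0 := (v.ne_zero_iff).2 ht0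
  have hvx : v x ≠ 0 := (v.ne_zero_iff).2 hx
  set k : ℤ := WithZero.log (v t) with hk
  set m : ℤ := WithZero.log (v x) with hm
  have hk' : v t = WithZero.exp k := (WithZero.exp_log hvt).symm
  have hm' : v x = WithZero.exp m := (WithZero.exp_log hvx).symm
  have hkneg : k < 0 := by
    rw [hk', ← WithZero.exp_zero, WithZero.exp_lt_exp] at ht1
    exact ht1
  -- `m = k * q + r` with `k < r ≤ 0`
  set q : ℤ := (-m) / (-k) with hq
  have hr1 : 0 ≤ (-m) % (-k) := Int.emod_nonneg _ (by omega)
  have hr2 : (-m) % (-k) < -k := Int.emod_lt_of_pos _ (by omega)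
  have hdiv : (-k) * q + (-m) % (-k) = -m := Int.mul_ediv_add_emod (-m) (-k)
  set r : ℤ := (-m) % (-k) with hrr
  have htq : t ^ q ≠ 0 := zpow_ne_zero _ ht0
  have hval : v (x / t ^ q) = WithZero.exp (-r) := by
    rw [map_div₀, map_zpow₀, hk', hm', ← WithZero.exp_zsmul, ← WithZero.exp_sub]
    congr 1
    simp only [smul_eq_mul]
    linarith
  refine ⟨q, x / t ^ q, ?_, by field_simp⟩
  by_contra hne
  have hr0 : r ≠ 0 := by
    intro h0
    apply hne
    rw [hval, h0, neg_zero, WithZero.exp_zero]
  have hlt : v (x / t ^ q) < 1 := by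
    rw [hval, ← WithZero.exp_zero, WithZero.exp_lt_exp]
    omega
  have := htmax _ hlt
  rw [hval, hk', WithZero.exp_le_exp] at this
  omega

end

/-- One product. -/
theorem repdet_term {J R : Type} [Fintype J] [Fintype R]
    (ρ : R → Option J) (hρ : ∀ i : J, ∃! r, ρ r = some i) (a : K) (x y z : R → K)
    (hx : ∀ r, v (x r) ≤ 1)
    (h : v (a * ∏ r, (match ρ r with | some _ => y r | none => z r)) ≤ 1) :
    Rep v (fun D : J → Derivation ℂ K K => a * ∏ r,
      (match ρ r with | some i => D i (x r) * y r | none => z r)) := by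
  classical
  choose rr hrr huniq using hρ
  refine ⟨Unit, inferInstance, fun _ => a * ∏ r, (match ρ r with | some _ => y r | none => z r),
    fun _ i => x (rr i), fun _ => h, fun _ i => hx _, fun D => ?_⟩
  have h1 : ∏ i, D i (x (rr i)) = ∏ r, (match ρ r with | some i => D i (x r) | none => 1) := by
    have hinj : Function.Injective rr := by
      intro i j hij
      have h1 := hrr i
      have h2 := hrr j
      simp only at h1 h2
      rw [hij, h2] at h1
      exact (Option.some_injective _ h1).symm
    have himg : ∏ r ∈ Finset.univ.image rr, (match ρ r with | some i => D i (x r) | none => 1) =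
        ∏ i, D i (x (rr i)) := by
      rw [Finset.prod_image (fun i _ j _ hij => hinj hij)]
      refine Finset.prod_congr rfl fun i _ => ?_
      have := hrr i
      simp only at this
      rw [this]
    rw [← himg]
    refine Finset.prod_subset (Finset.subset_univ _) fun r _ hr => ?_
    rcases hρr : ρ r with _ | i
    · rfl
    · exfalso
      apply hr
      rw [Finset.mem_image]
      exact ⟨i, Finset.mem_univ _, (huniq i r hρr).symm⟩
  simp only [Finset.univ_unique, Finset.sum_singleton]
  rw [h1, mul_assoc, ← Finset.prod_mul_distrib]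
  congr 1
  refine Finset.prod_congr rfl fun r _ => ?_
  rcases ρ r with _ | i
  · simp
  · simp [mul_comm]

/-- A determinant as a sum over permutations of `Rep` terms. -/
theorem repdet_leibniz {J R : Type} [Fintype J] [Fintype R] [DecidableEq R]
    (ρ : R → Option J) (hρ : ∀ i : J, ∃! r, ρ r = some i) (a : K) (x y : R → K) (c : R → R → K)
    (hx : ∀ r, v (x r) ≤ 1)
    (h : ∀ σ : Equiv.Perm R,
      v (a * ∏ r, (match ρ (σ r) with | some _ => y r | none => c (σ r) r)) ≤ 1) :
    Rep v (fun D : J → Derivation ℂ K K => a * Matrix.det (Matrix.of fun r j : R =>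
      match ρ r with
      | some i => D i (x j) * y j
      | none => c r j)) := by
  have h1 : ∀ σ : Equiv.Perm R, Rep v (fun D : J → Derivation ℂ K K =>
      ((Equiv.Perm.sign σ : ℤ) : K) * (a * ∏ r,
        (match ρ (σ r) with | some i => D i (x r) * y r | none => c (σ r) r))) := by
    intro σ
    refine Rep.smul v _ (repdet_int_le v _) ?_
    refine repdet_term v (fun r => ρ (σ r)) (fun i => ?_) a x y (fun r => c (σ r) r) hx (h σ)
    obtain ⟨r, hr, hu⟩ := hρ i
    refine ⟨σ.symm r, by simpa using hr, fun r' hr' => ?_⟩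
    have := hu (σ r') hr'
    rw [← this, Equiv.symm_apply_apply]
  have h2 := Rep.sum v h1
  convert h2 using 2 with D
  rw [Matrix.det_apply', Finset.mul_sum]
  refine Finset.sum_congr rfl fun σ _ => ?_
  rw [mul_left_comm]
  rfl

theorem det_log_unit {J R : Type} [Fintype J] [Fintype R] [DecidableEq R]
    (ρ : R → Option J) (hρ : ∀ i : J, ∃! r, ρ r = some i) (g : R → K) (hg : ∀ j, v (g j) = 1)
    (c : R → R → K) (hc : ∀ r j, v (c r j) ≤ 1) :
    Rep v (fun D : J → Derivation ℂ K K => Matrix.det (Matrix.of fun r j : R =>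
      match ρ r with
      | some i => D i (g j) / g j
      | none => c r j)) := by
  have h := repdet_leibniz v ρ hρ 1 g (fun r => (g r)⁻¹) c (fun r => (hg r).le) (fun σ => by
    rw [one_mul]
    refine repdet_prod_le v _ _ fun r _ => ?_
    rcases ρ (σ r) with _ | i
    · exact hc _ _
    · simp [hg r])
  convert h using 2 with D
  rw [one_mul]
  congr 2
  funext r j
  rcases ρ r with _ | i
  · rfl
  · exact div_eq_mul_inv _ _

/-- Column expansion of a determinant. -/
theorem repdet_expand {R : Type} [Fintype R] [DecidableEq R] {F : Type} [CommRing F]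
    (n : R → F) (τ : R → F) (Γ : R → R → F) :
    Matrix.det (Matrix.of fun r j : R => n j * τ r + Γ r j) =
      ∑ s : Finset R, (∏ j, if j ∈ s then n j else 1) *
        Matrix.det (Matrix.of fun r j : R => if j ∈ s then τ r else Γ r j) := by
  have h := (Matrix.detRowAlternating (n := R) (R := F)).toMultilinearMap.map_add_univ
    (fun j r => n j * τ r) (fun j r => Γ r j)
  have h1 : Matrix.det (Matrix.of fun r j : R => n j * τ r + Γ r j) =
      (Matrix.detRowAlternating (n := R) (R := F)).toMultilinearMap
        ((fun j r => n j * τ r) + (fun j r => Γ r j)) := by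
    rw [← Matrix.det_transpose]
    rfl
  rw [h1, h]
  refine Finset.sum_congr rfl fun s _ => ?_
  rw [← Matrix.det_mul_row, ← Matrix.det_transpose]
  change Matrix.det _ = _
  congr 1
  ext i j
  simp only [Finset.piecewise, Matrix.transpose_apply, Matrix.of_apply]
  split_ifs
  · rfl
  · rw [one_mul]

theorem det_log {J R : Type} [Fintype J] [Fintype R] [DecidableEq R]
    (ρ : R → Option J) (hρ : ∀ i : J, ∃! r, ρ r = some i) (t : K) (ht0 : t ≠ 0) (ht1 : v t < 1)
    (htmax : ∀ x, v x < 1 → v x ≤ v t) (g : R → K) (hg : ∀ j, g j ≠ 0)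
    (c : R → R → K) (hc : ∀ r j, v (c r j) ≤ 1) :
    Rep v (fun D : J → Derivation ℂ K K => t * Matrix.det (Matrix.of fun r j : R =>
      match ρ r with
      | some i => D i (g j) / g j
      | none => c r j)) := by
  have hex := fun j => repdet_exists_zpow v ht0 ht1 htmax (hg j)
  choose n e he hge using hex
  have he0 : ∀ j, e j ≠ 0 := by
    intro j h0
    have := he j
    rw [h0, map_zero] at this
    exact zero_ne_one this
  -- the logarithmic derivatives
  have hlog : ∀ (D : Derivation ℂ K K) (j : R),
      D (g j) / g j = (n j : K) * (D t * t⁻¹) + D (e j) * (e j)⁻¹ := by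
    intro D j
    have h1 : t ^ (n j) ≠ 0 := zpow_ne_zero _ ht0
    have h2 : t ^ (n j - 1) = t ^ (n j) * t⁻¹ := by rw [zpow_sub₀ ht0, zpow_one, div_eq_mul_inv]
    rw [hge j, Derivation.leibniz, Derivation.leibniz_zpow, h2]
    simp only [smul_eq_mul, zsmul_eq_mul]
    have := he0 j
    field_simp
    ring
  have h1 : ∀ s : Finset R, Rep v (fun D : J → Derivation ℂ K K =>
      (∏ j, if j ∈ s then (n j : K) else 1) * (t *
        Matrix.det (Matrix.of fun r j : R =>
          match ρ r with
          | some i => D i (if j ∈ s then t else e j) * (if j ∈ s then t⁻¹ else (e j)⁻¹)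
          | none => if j ∈ s then 0 else c r j))) := by
    intro s
    refine Rep.smul v _ (repdet_prod_le v _ _ fun j _ => ?_) ?_
    · split_ifs
      · exact repdet_int_le v _
      · simp
    by_cases hs : ∃ i ∈ s, ∃ j ∈ s, i ≠ j
    · obtain ⟨i, hi, j, hj, hij⟩ := hs
      have h0 : ∀ D : J → Derivation ℂ K K, Matrix.det (Matrix.of fun r j : R =>
          match ρ r with
          | some i => D i (if j ∈ s then t else e j) * (if j ∈ s then t⁻¹ else (e j)⁻¹)
          | none => if j ∈ s then 0 else c r j) = 0 := by
        intro D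
        refine Matrix.det_zero_of_column_eq hij fun k => ?_
        simp only [Matrix.of_apply, hi, hj, if_true]
      simp only [h0, mul_zero]
      exact ⟨Empty, inferInstance, fun r => r.elim, fun r => r.elim, fun r => r.elim,
        fun r => r.elim, fun D => by simp⟩
    · push Not at hs
      refine repdet_leibniz v ρ hρ t (fun j => if j ∈ s then t else e j)
        (fun j => if j ∈ s then t⁻¹ else (e j)⁻¹) (fun r j => if j ∈ s then 0 else c r j)
        (fun r => ?_) (fun σ => ?_)
      · split_ifs
        · exact ht1.le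
        · exact (he r).le
      · -- the value of the coefficient
        rcases s.eq_empty_or_nonempty with rfl | ⟨j0, hj0⟩
        · rw [map_mul]
          refine mul_le_one' ht1.le (repdet_prod_le v _ _ fun r _ => ?_)
          rcases ρ (σ r) with _ | i
          · simpa using hc _ _
          · simp [he r]
        · have hmem : ∀ j, j ∈ s ↔ j = j0 := fun j =>
            ⟨fun hj => hs j hj j0 hj0, fun hj => hj ▸ hj0⟩
          rw [← Finset.mul_prod_erase _ _ (Finset.mem_univ j0), ← mul_assoc, map_mul]
          refine mul_le_one' ?_ (repdet_prod_le v _ _ fun r hr => ?_)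
          · rcases ρ (σ j0) with _ | i
            · simp [hj0]
            · simp only [hj0, if_true]
              rw [mul_inv_cancel₀ ht0, map_one]
          · have hr' : r ∉ s := by
              rw [hmem]
              exact Finset.ne_of_mem_erase hr
            rcases ρ (σ r) with _ | i
            · simpa [hr'] using hc _ _
            · simp [hr', he r]
  have h2 := Rep.sum v h1
  convert h2 using 2 with D
  have hM : (Matrix.of fun r j : R => (match ρ r with | some i => D i (g j) / g j | none => c r j)) =
      Matrix.of fun r j : R => (n j : K) *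
        (match ρ r with | some i => D i t * t⁻¹ | none => 0) +
        (match ρ r with | some i => D i (e j) * (e j)⁻¹ | none => c r j) := by
    ext r j
    simp only [Matrix.of_apply]
    rcases ρ r with _ | i
    · simp
    · exact hlog _ _
  rw [hM, repdet_expand (fun j => (n j : K)) _ _, Finset.mul_sum]
  refine Finset.sum_congr rfl fun s _ => ?_
  rw [mul_left_comm]
  congr 3
  ext r j
  simp only [Matrix.of_apply]
  rcases ρ r with _ | i
  · split_ifs <;> rfl
  · split_ifs <;> rfl

end Pool.Agent.Work.MP_4329d7_ag.FF
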