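import Mathlib

/-!
Extension of derivations to the fraction field. (For transcendence bases see `Ext.lean`:
`derivation_ext`, `exists_derivation`.)
-/

open TensorProduct

namespace Pool.Agent.Work.MP_4329d7_ag.FF

/-- Extension to the fraction field. -/
theorem exists_der_frac {R L : Type} [CommRing R] [IsDomain R] [Algebra ℂ R] [Field L]
    [Algebra ℂ L] [Algebra R L] [IsScalarTower ℂ R L] [IsFractionRing R L]
    (d : Derivation ℂ R R) :
    ∃ D : Derivation ℂ L L, ∀ x : R, D (algebraMap R L x) = algebraMap R L (d x) := by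
  have het : Algebra.FormallyEtale R L := .of_isLocalization (nonZeroDivisors R)
  let g : R →ₗ[R] L := Algebra.linearMap R L
  let d1 : Derivation ℂ R L := g.compDer d
  let l2 : L ⊗[R] (Ω[R⁄ℂ]) →ₗ[L] L := LinearMap.liftBaseChange L d1.liftKaehlerDifferential
  let e := KaehlerDifferential.tensorKaehlerEquivOfFormallyEtale ℂ R L
  refine ⟨(l2.comp e.symm.toLinearMap).compDer (KaehlerDifferential.D ℂ L), fun x => ?_⟩
  change l2 (e.symm.toLinearMap (KaehlerDifferential.D ℂ L (algebraMap R L x))) =
    algebraMap R L (d x)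
  have h2 : e.symm.toLinearMap (KaehlerDifferential.D ℂ L (algebraMap R L x)) =
      (1 : L) ⊗ₜ[R] KaehlerDifferential.D ℂ R x :=
    KaehlerDifferential.tensorKaehlerEquivOfFormallyEtale_symm_D_algebraMap ℂ R L x
  rw [h2]
  change (LinearMap.liftBaseChange L d1.liftKaehlerDifferential) _ = _
  rw [LinearMap.liftBaseChange_tmul, one_smul, Derivation.liftKaehlerDifferential_comp_D]
  rfl

end Pool.Agent.Work.MP_4329d7_ag.FF
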