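import Mathlib
import Pool.Agent.Work.MP_4329d7_ag.FF.Setup
import Pool.Agent.Work.MP_4329d7_ag.Ext

/-!
FrameEval: evaluation of tensors in a frame, and integrality along embeddings in valued fields.
-/

open scoped WithZero

namespace Pool.Agent.Work.MP_4329d7_ag.FF

variable {K : Type} [Field K] [Algebra ℂ K] {I : Type} [Fintype I] [DecidableEq I]
  (Fr : Frame K I) {m : ℕ}

/-- `D = ∑ D(z_i) ∂_i`. HINT: `derivation_ext` (`Ext.lean`) with `Fr.tb`. -/
theorem Frame.der_expand (D : Derivation ℂ K K) : D = ∑ i, D (Fr.z i) • Fr.d i := by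
  refine R.derivation_ext Fr.tb fun j => ?_
  have h : (∑ i, D (Fr.z i) • Fr.d i) (Fr.z j) = ∑ i, (D (Fr.z i) • Fr.d i) (Fr.z j) := by
    have := congrFun (map_sum (Derivation.coeFnAddMonoidHom (R := ℂ) (A := K) (M := K))
      (fun i => D (Fr.z i) • Fr.d i) Finset.univ) (Fr.z j)
    rw [Finset.sum_apply] at this
    exact this
  rw [h, Finset.sum_eq_single j]
  · rw [Derivation.smul_apply, Fr.dual, if_pos rfl, smul_eq_mul, mul_one]
  · intro i _ hij
    rw [Derivation.smul_apply, Fr.dual, if_neg hij, smul_zero]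
  · intro hj; exact absurd (Finset.mem_univ j) hj

/-- HINT: multilinearity (`MultilinearMap.map_sum`) and `der_expand`. -/
theorem Frame.expand (T : TensorForm K m) (D : Fin m → Derivation ℂ K K) :
    T D = ∑ w : Fin m → I, (∏ s, D s (Fr.z (w s))) * T (fun s => Fr.d (w s)) := by
  have h1 : D = fun s => ∑ i, D s (Fr.z i) • Fr.d i := funext fun s => Fr.der_expand (D s)
  have h2 := T.map_sum (α := fun _ => I) (fun s i => D s (Fr.z i) • Fr.d i)
  rw [← h1] at h2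
  rw [h2]
  refine Finset.sum_congr rfl fun w _ => ?_
  have h3 := T.map_smul_univ (fun s => D s (Fr.z (w s))) (fun s => Fr.d (w s))
  rw [h3, smul_eq_mul]

/-- HINT: from `Frame.expand`. -/
theorem Frame.exists_ne (T : TensorForm K m) (hT : T ≠ 0) :
    ∃ w : Fin m → I, T (fun s => Fr.d (w s)) ≠ 0 := by
  by_contra hcon
  push Not at hcon
  apply hT
  ext D
  rw [Fr.expand T D]
  rw [Finset.sum_eq_zero fun w _ => by rw [hcon w, mul_zero]]
  rfl

/-- Chain rule along an embedding.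
HINT: both sides are derivations of `K` with values in `L` (a `K`-module through `ψ`:
`letI := ψ.toRingHom.toAlgebra`/`Module.compHom`), equal on the `z_i` by `Fr.dual`;
`derivation_ext` (`Ext.lean`) with `Fr.tb`. -/
theorem Frame.chain {L : Type} [Field L] [Algebra ℂ L] (ψ : K →ₐ[ℂ] L)
    (Δ : Derivation ℂ L L) (g : K) :
    Δ (ψ g) = ∑ i, Δ (ψ (Fr.z i)) * ψ (Fr.d i g) := by
  let _ : Module K L := Module.compHom L ψ.toRingHom
  have hsm : ∀ (k : K) (l : L), k • l = ψ k * l := fun k l => rfl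
  have _ : IsScalarTower ℂ K L := ⟨fun c k l => by
    rw [hsm, hsm, map_smul, smul_mul_assoc]⟩
  let D₁ : Derivation ℂ K L := Derivation.mk'
    ((Δ : L →ₗ[ℂ] L).comp ψ.toLinearMap) (fun a b => by
      change Δ (ψ (a * b)) = a • Δ (ψ b) + b • Δ (ψ a)
      rw [map_mul, Derivation.leibniz, hsm, hsm, smul_eq_mul, smul_eq_mul])
  let D₂ : Derivation ℂ K L := Derivation.mk'
    (∑ i, (LinearMap.mulLeft ℂ (Δ (ψ (Fr.z i)))).comp (ψ.toLinearMap.comp (Fr.d i : K →ₗ[ℂ] K)))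
    (fun a b => by
      simp only [LinearMap.coe_sum, Finset.sum_apply, LinearMap.comp_apply,
        LinearMap.mulLeft_apply]
      change ∑ i, Δ (ψ (Fr.z i)) * ψ (Fr.d i (a * b)) =
        a • ∑ i, Δ (ψ (Fr.z i)) * ψ (Fr.d i b) + b • ∑ i, Δ (ψ (Fr.z i)) * ψ (Fr.d i a)
      rw [hsm, hsm, Finset.mul_sum, Finset.mul_sum, ← Finset.sum_add_distrib]
      refine Finset.sum_congr rfl fun i _ => ?_
      rw [Derivation.leibniz, smul_eq_mul, smul_eq_mul, map_add, map_mul, map_mul]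
      ring)
  have h1 : ∀ g, D₁ g = Δ (ψ g) := fun g => rfl
  have h2 : ∀ g, D₂ g = ∑ i, Δ (ψ (Fr.z i)) * ψ (Fr.d i g) := by
    intro g
    change (∑ i, (LinearMap.mulLeft ℂ (Δ (ψ (Fr.z i)))).comp
      (ψ.toLinearMap.comp (Fr.d i : K →ₗ[ℂ] K))) g = _
    simp only [LinearMap.coe_sum, Finset.sum_apply, LinearMap.comp_apply,
        LinearMap.mulLeft_apply]
    rfl
  have h : D₁ = D₂ := by
    refine R.derivation_ext Fr.tb fun j => ?_
    rw [h1, h2, Finset.sum_eq_single j]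
    · rw [Fr.dual, if_pos rfl, map_one, mul_one]
    · intro i _ hij
      rw [Fr.dual, if_neg hij, map_zero, mul_zero]
    · intro hj; exact absurd (Finset.mem_univ j) hj
  rw [← h1, ← h2, h]

/-- HINT: `v.comap ψ` is a valuation of `K`, `≤ 1` on `ℂ`, so `T D = ∑_r c_r ∏_s D_s (g_r s)` with
`v (ψ c_r) ≤ 1`, `v (ψ (g_r s)) ≤ 1`. For each `r` (write `g = g_r`):
`∑_w ∏_s Δ_s(ψ z_{w s}) ∏_s ψ(∂_{w s} g_s) = ∏_s ∑_i Δ_s(ψ z_i) ψ(∂_i g_s) = ∏_s Δ_s(ψ g_s)`
(`Finset.prod_univ_sum`, `Fintype.piFinset_univ`), which has `v ≤ 1`. -/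
theorem Frame.regular_eval {L : Type} [Field L] [Algebra ℂ L] (v : Valuation L ℤᵐ⁰)
    (hv : ∀ c : ℂ, v (algebraMap ℂ L c) ≤ 1) (ψ : K →ₐ[ℂ] L)
    (Δ : Fin m → Derivation ℂ L L) (hΔ : ∀ s g, v g ≤ 1 → v (Δ s g) ≤ 1)
    (T : TensorForm K m) (hT : IsRegular T) :
    v (∑ w : Fin m → I, (∏ s, Δ s (ψ (Fr.z (w s)))) * ψ (T (fun s => Fr.d (w s)))) ≤ 1 := by
  classical
  obtain ⟨r, c, g, hc, hg, hTD⟩ := hT (v.comap ψ.toRingHom) (fun c => by
    change v (ψ (algebraMap ℂ K c)) ≤ 1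
    rw [AlgHom.commutes]
    exact hv c)
  have hc' : ∀ i, v (ψ (c i)) ≤ 1 := hc
  have hg' : ∀ i j, v (ψ (g i j)) ≤ 1 := hg
  have key : ∑ w : Fin m → I, (∏ s, Δ s (ψ (Fr.z (w s)))) * ψ (T (fun s => Fr.d (w s))) =
      ∑ i, ψ (c i) * ∏ s, Δ s (ψ (g i s)) := by
    have e1 : ∀ w : Fin m → I, (∏ s, Δ s (ψ (Fr.z (w s)))) * ψ (T (fun s => Fr.d (w s))) =
        ∑ i, ψ (c i) * ∏ s, (Δ s (ψ (Fr.z (w s))) * ψ (Fr.d (w s) (g i s))) := by
      intro w
      rw [hTD, map_sum, Finset.mul_sum]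
      refine Finset.sum_congr rfl fun i _ => ?_
      rw [map_mul, map_prod, Finset.prod_mul_distrib]
      ring
    simp_rw [e1]
    rw [Finset.sum_comm]
    refine Finset.sum_congr rfl fun i _ => ?_
    rw [← Finset.mul_sum]
    congr 1
    have e2 : ∀ s, Δ s (ψ (g i s)) = ∑ j, Δ s (ψ (Fr.z j)) * ψ (Fr.d j (g i s)) :=
      fun s => Fr.chain ψ (Δ s) (g i s)
    simp_rw [e2]
    rw [Finset.prod_univ_sum, Fintype.piFinset_univ]
  rw [key]
  refine Valuation.map_sum_le v fun i _ => ?_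
  rw [map_mul, map_prod]
  refine mul_le_one' (hc' i) ?_
  exact Finset.prod_le_one' fun s _ => hΔ s _ (hg' i s)

end Pool.Agent.Work.MP_4329d7_ag.FF
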