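import Mathlib
import Pool.Agent.Work.MP_4329d7_ag.FF.Setup

/-!
Gform: the multilinear form attached to coefficients.
-/

open MvPolynomial

namespace Pool.Agent.Work.MP_4329d7_ag.FF

variable {κ : Type} [Fintype κ] [DecidableEq κ] {m : ℕ}

/-- `G_c (v) = ∑_w (∏_s ell_{w s}(v_s)) c_w`, the sum over words in `κ ∖ {l0}`. -/
noncomputable def Gform (l0 : κ) (c : (Fin m → {k : κ // k ≠ l0}) → P κ) :
    MultilinearMap (P κ) (fun _ : Fin m => κ → P κ) (P κ) :=
  ∑ w : Fin m → {k : κ // k ≠ l0},
    c w • (MultilinearMap.mkPiAlgebra (P κ) (Fin m) (P κ)).compLinearMap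
      (fun s => ell ((w s : κ)))

theorem Gform_apply (l0 : κ) (c : (Fin m → {k : κ // k ≠ l0}) → P κ) (v : Fin m → κ → P κ) :
    Gform l0 c v = ∑ w : Fin m → {k : κ // k ≠ l0}, (∏ s, ell ((w s : κ)) (v s)) * c w := by
  simp [Gform, mul_comm]

omit [DecidableEq κ] in
/-- The Euler vector is killed by `ell`. -/
theorem Gform_ell_uvec (i : κ) : ell i (uvec : κ → P κ) = 0 := by
  rw [ell_apply]
  have h : (∑ k : κ, (uvec k : P κ)) = - pu none := by
    unfold uvec pu u
    simp [map_neg, map_sum]
  rw [h]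
  unfold uvec
  have : pu (some i) * pu none + pu (some i) * -pu none = (0 : P κ) := by ring
  rw [this, zero_div]

/-- HINT: `ell i uvec = (u_i u_none + u_i ∑ u_k) / u_none ^ 2 = 0`. -/
theorem Gform_euler (l0 : κ) (c : (Fin m → {k : κ // k ≠ l0}) → P κ) (v : Fin m → κ → P κ)
    (s : Fin m) : Gform l0 c (Function.update v s uvec) = 0 := by
  rw [Gform_apply]
  apply Finset.sum_eq_zero
  intro w _
  have : ∏ s', ell ((w s' : κ)) (Function.update v s uvec s') = 0 := by
    apply Finset.prod_eq_zero (Finset.mem_univ s)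
    rw [Function.update_self]
    exact Gform_ell_uvec _
  rw [this, zero_mul]

omit [DecidableEq κ] in
theorem Gform_pu_none_ne (l0 : κ) : (pu none : P κ) ≠ 0 := by
  classical
  intro h
  have h1 : (u none : A κ) = 0 := by
    apply IsFractionRing.injective (A κ) (P κ)
    rw [map_zero]
    exact h
  have h2 := congrArg (coeff (Finsupp.single l0 1)) h1
  simp [u, coeff_sum, coeff_X, Finsupp.single_left_inj] at h2

/-- HINT: with `v_s = pu none • (ε_{w s} - ε_{l0})`, `∏ ell_{w' s}(v_s) = 1` if `w' = w`, else `0`;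
so `Gform l0 c v = c w`. (`pu none ≠ 0`.) -/
theorem Gform_ne_zero (l0 : κ) (c : (Fin m → {k : κ // k ≠ l0}) → P κ)
    (h : ∃ w, c w ≠ 0) : Gform l0 c ≠ 0 := by
  obtain ⟨w, hw⟩ := h
  intro h0
  apply hw
  have hp := Gform_pu_none_ne l0
  have h1 : Gform l0 c (fun s => (pu none : P κ) •
      ((Pi.single (w s : κ) 1 : κ → P κ) - Pi.single l0 1)) = 0 := by rw [h0]; simp
  rw [Gform_apply] at h1
  have hell : ∀ (i : {k : κ // k ≠ l0}) (s : Fin m), ell (i : κ) ((pu none : P κ) •
      ((Pi.single (w s : κ) 1 : κ → P κ) - Pi.single l0 1)) = if i = w s then 1 else 0 := by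
    intro i s
    rw [ell_apply]
    have hs : ∑ k, ((pu none : P κ) • ((Pi.single (w s : κ) 1 : κ → P κ) - Pi.single l0 1) :
        κ → P κ) k = 0 := by
      simp only [Pi.smul_apply, Pi.sub_apply, smul_eq_mul, ← Finset.mul_sum,
        Finset.sum_sub_distrib, Finset.sum_pi_single']
      simp
    rw [hs]
    have hi : (Pi.single l0 1 : κ → P κ) (i : κ) = 0 := by
      rw [Pi.single_apply, if_neg i.2]
    simp only [Pi.smul_apply, Pi.sub_apply, smul_eq_mul, hi, mul_zero, add_zero, sub_zero]
    rw [Pi.single_apply]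
    by_cases hh : i = w s
    · rw [if_pos (by rw [hh]), if_pos hh]
      field_simp
    · rw [if_neg (fun h' => hh (Subtype.ext h')), if_neg hh]
      simp
  have h2 : ∀ w' : Fin m → {k : κ // k ≠ l0},
      (∏ s, ell ((w' s : κ)) ((pu none : P κ) •
        ((Pi.single (w s : κ) 1 : κ → P κ) - Pi.single l0 1))) * c w' =
      if w' = w then c w else 0 := by
    intro w'
    by_cases hh : w' = w
    · subst hh
      rw [if_pos rfl]
      have : ∏ s, ell ((w' s : κ)) ((pu none : P κ) •
        ((Pi.single (w' s : κ) 1 : κ → P κ) - Pi.single l0 1)) = 1 := by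
        apply Finset.prod_eq_one
        intro s _
        rw [hell]
        simp
      rw [this, one_mul]
    · rw [if_neg hh]
      obtain ⟨s, hs⟩ : ∃ s, w' s ≠ w s := by
        by_contra hcon
        push Not at hcon
        exact hh (funext hcon)
      have : ∏ s, ell ((w' s : κ)) ((pu none : P κ) •
        ((Pi.single (w s : κ) 1 : κ → P κ) - Pi.single l0 1)) = 0 := by
        apply Finset.prod_eq_zero (Finset.mem_univ s)
        rw [hell, if_neg hs]
      rw [this, zero_mul]
  simp only [h2] at h1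
  simpa using h1

/-! Homogeneous rational functions. -/

omit [Fintype κ] [DecidableEq κ] in
theorem IsHomP.zero [Nonempty κ] (d : ℤ) : IsHomP (0 : P κ) d := by
  classical
  obtain ⟨k⟩ := (inferInstance : Nonempty κ)
  refine ⟨0, X k ^ (-d).toNat, d.toNat, (-d).toNat, isHomogeneous_zero _ _ _, ?_, ?_, by simp,
    by omega⟩
  · have := (isHomogeneous_X ℂ k).pow (-d).toNat
    simpa using this
  · exact pow_ne_zero _ (X_ne_zero k)

omit [Fintype κ] [DecidableEq κ] in
theorem IsHomP.one : IsHomP (1 : P κ) 0 := by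
  refine ⟨1, 1, 0, 0, isHomogeneous_one _ _, isHomogeneous_one _ _, one_ne_zero, by simp,
    by simp⟩

omit [Fintype κ] [DecidableEq κ] in
theorem IsHomP.add {p q : P κ} {d : ℤ} (hp : IsHomP p d) (hq : IsHomP q d) :
    IsHomP (p + q) d := by
  obtain ⟨f, g, df, dg, hf, hg, hg0, h1, h2⟩ := hp
  obtain ⟨f', g', df', dg', hf', hg', hg0', h1', h2'⟩ := hq
  have hd : df' + dg = df + dg' := by omega
  refine ⟨f * g' + f' * g, g * g', df + dg', dg + dg', (hf.mul hg').add ?_, hg.mul hg',
    mul_ne_zero hg0 hg0', ?_, ?_⟩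
  · have := hf'.mul hg
    rw [hd] at this
    exact this
  · rw [map_add, map_mul, map_mul, map_mul, ← h1, ← h1']
    ring
  · push_cast
    omega

omit [Fintype κ] [DecidableEq κ] in
theorem IsHomP.neg {p : P κ} {d : ℤ} (hp : IsHomP p d) : IsHomP (-p) d := by
  obtain ⟨f, g, df, dg, hf, hg, hg0, h1, h2⟩ := hp
  exact ⟨-f, g, df, dg, hf.neg, hg, hg0, by rw [map_neg, ← h1]; ring, h2⟩

omit [Fintype κ] [DecidableEq κ] in
theorem IsHomP.sub {p q : P κ} {d : ℤ} (hp : IsHomP p d) (hq : IsHomP q d) :
    IsHomP (p - q) d := by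
  rw [sub_eq_add_neg]
  exact hp.add hq.neg

omit [Fintype κ] [DecidableEq κ] in
theorem IsHomP.mul {p q : P κ} {d e : ℤ} (hp : IsHomP p d) (hq : IsHomP q e) :
    IsHomP (p * q) (d + e) := by
  obtain ⟨f, g, df, dg, hf, hg, hg0, h1, h2⟩ := hp
  obtain ⟨f', g', df', dg', hf', hg', hg0', h1', h2'⟩ := hq
  refine ⟨f * f', g * g', df + df', dg + dg', hf.mul hf', hg.mul hg',
    mul_ne_zero hg0 hg0', ?_, ?_⟩
  · rw [map_mul, map_mul, ← h1, ← h1']
    ring
  · push_cast
    omega

omit [Fintype κ] [DecidableEq κ] in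
theorem IsHomP.inv [Nonempty κ] {p : P κ} {d : ℤ} (hp : IsHomP p d) : IsHomP p⁻¹ (-d) := by
  by_cases hp0 : p = 0
  · rw [hp0, inv_zero]
    exact IsHomP.zero _
  obtain ⟨f, g, df, dg, hf, hg, hg0, h1, h2⟩ := hp
  have hg1 : algebraMap (A κ) (P κ) g ≠ 0 := by
    intro h
    apply hg0
    apply IsFractionRing.injective (A κ) (P κ)
    rw [map_zero]
    exact h
  have hf0 : f ≠ 0 := by
    rintro rfl
    rw [map_zero] at h1
    exact (mul_ne_zero hp0 hg1) h1
  refine ⟨g, f, dg, df, hg, hf, hf0, ?_, by omega⟩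
  rw [← h1, ← mul_assoc, inv_mul_cancel₀ hp0, one_mul]

omit [DecidableEq κ] in
theorem IsHomP.pu (j : Option κ) : IsHomP (pu j : P κ) 1 := by
  refine ⟨u j, 1, 1, 0, ?_, isHomogeneous_one _ _, one_ne_zero, ?_, by simp⟩
  · cases j with
    | none =>
      unfold u
      apply IsHomogeneous.neg
      apply IsHomogeneous.sum
      intro k _
      exact isHomogeneous_X _ _
    | some k => exact isHomogeneous_X _ _
  · rw [map_one, mul_one]; rfl

/-- HINT: `Q g = f` with `f, g ≠ 0` homogeneous; compare homogeneous components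
(`homogeneousComponent` of `Q * g` is `homogeneousComponent (n - dg) Q * g`), or: if `d ∈ Q.support`
has degree `≠ df - dg`, the component `Q_n ≠ 0`, `n = deg d`, gives `Q_n g ≠ 0` of degree
`n + dg ≠ df`. -/
theorem IsHomP.support {Q : A κ} {e : ℤ} (h : IsHomP (algebraMap (A κ) (P κ) Q) e) :
    ∀ d ∈ Q.support, ((Finsupp.degree d : ℕ) : ℤ) = e := by
  obtain ⟨f, g, df, dg, hf, hg, hg0, h1, h2⟩ := h
  have hQ : Q * g = f := by
    apply IsFractionRing.injective (A κ) (P κ)
    rw [map_mul, h1]
  intro d hd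
  by_contra hne
  set n := Finsupp.degree d with hn
  have hn' : n + dg ≠ df := by omega
  have hc0 : homogeneousComponent (n + dg) f = 0 := by
    rw [homogeneousComponent_of_mem hf, if_neg hn']
  have hc1 : homogeneousComponent (n + dg) (Q * g) = homogeneousComponent n Q * g := by
    conv_lhs => rw [← sum_homogeneousComponent Q, Finset.sum_mul, map_sum]
    have hh : ∀ i ∈ Finset.range (Q.totalDegree + 1),
        homogeneousComponent (n + dg) (homogeneousComponent i Q * g) =
          if i = n then homogeneousComponent n Q * g else 0 := by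
      intro i _
      have hi := (homogeneousComponent_isHomogeneous i Q).mul hg
      rw [homogeneousComponent_of_mem hi]
      by_cases hin : i = n
      · subst hin
        simp
      · rw [if_neg (by omega), if_neg hin]
    rw [Finset.sum_congr rfl hh, Finset.sum_ite_eq', if_pos]
    rw [Finset.mem_range]
    have := MvPolynomial.le_totalDegree hd
    have h3 : (d.sum fun _ e => e) = n := by
      rw [hn]; rfl
    omega
  have hcomp : homogeneousComponent n Q ≠ 0 := by
    intro h0
    have := congrArg (coeff d) h0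
    rw [coeff_homogeneousComponent, if_pos hn.symm, coeff_zero] at this
    exact (mem_support_iff.mp hd) this
  rw [← hQ, hc1] at hc0
  exact (mul_ne_zero hcomp hg0) hc0

omit [Fintype κ] [DecidableEq κ] in
theorem IsHomP.sum [Nonempty κ] {ι : Type*} (s : Finset ι) (p : ι → P κ) {d : ℤ}
    (h : ∀ i ∈ s, IsHomP (p i) d) : IsHomP (∑ i ∈ s, p i) d := by
  classical
  induction s using Finset.induction_on with
  | empty => simpa using IsHomP.zero d
  | insert i s hi ih =>
    rw [Finset.sum_insert hi]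
    exact (h i (Finset.mem_insert_self _ _)).add
      (ih fun j hj => h j (Finset.mem_insert_of_mem hj))

omit [Fintype κ] [DecidableEq κ] in
theorem IsHomP.prod {ι : Type*} (s : Finset ι) (p : ι → P κ) (d : ι → ℤ)
    (h : ∀ i ∈ s, IsHomP (p i) (d i)) : IsHomP (∏ i ∈ s, p i) (∑ i ∈ s, d i) := by
  classical
  induction s using Finset.induction_on with
  | empty => simpa using IsHomP.one
  | insert i s hi ih =>
    rw [Finset.prod_insert hi, Finset.sum_insert hi]
    exact (h i (Finset.mem_insert_self _ _)).mul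
      (ih fun j hj => h j (Finset.mem_insert_of_mem hj))

theorem IsHomP.ell_pairVec [Nonempty κ] (i : κ) (j k : Option κ) :
    IsHomP (ell i (pairVec j k : κ → P κ)) (-1) := by
  have hite : ∀ (q : Prop) [Decidable q], IsHomP (if q then (1 : P κ) else 0) 0 := by
    intro q _
    split_ifs
    · exact IsHomP.one
    · exact IsHomP.zero 0
  have hv : ∀ l, IsHomP ((pairVec j k : κ → P κ) l) 0 := fun l => (hite _).sub (hite _)
  rw [ell_apply, div_eq_mul_inv]
  have h1 : IsHomP ((pairVec j k : κ → P κ) i * FF.pu none + FF.pu (some i) *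
      ∑ l, (pairVec j k : κ → P κ) l) 1 := by
    have ha := (hv i).mul (IsHomP.pu (κ := κ) none)
    have hb := (IsHomP.pu (some i)).mul (IsHomP.sum Finset.univ _ fun l _ => hv l)
    rw [zero_add] at ha
    rw [add_zero] at hb
    exact ha.add hb
  have h2 : IsHomP ((FF.pu none : P κ) ^ 2)⁻¹ (-2) := by
    rw [pow_two]
    have := ((IsHomP.pu (κ := κ) none).mul (IsHomP.pu none)).inv
    norm_num at this
    simpa using this
  have := h1.mul h2
  norm_num at this
  exact this

/-- The values of `Gform` on words are homogeneous of degree `-m + e`.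
HINT: `ell i (pairVec j k)` is homogeneous of degree `-1` (zero allowed), and the closure
properties above. -/
theorem Gform_hom (l0 : κ) (c : (Fin m → {k : κ // k ≠ l0}) → P κ) (e : ℤ)
    (hc : ∀ w, IsHomP (c w) e) (W : Fin m → Option κ × Option κ) :
    IsHomP (Gform l0 c (wv W)) (e - m) := by
  have : Nonempty κ := ⟨l0⟩
  rw [Gform_apply]
  apply IsHomP.sum
  intro w _
  have h1 := (IsHomP.prod (κ := κ) Finset.univ (fun s => ell ((w s : κ)) ((wv W : _ → κ → P κ) s))
    (fun _ => (-1 : ℤ)) (fun s _ => IsHomP.ell_pairVec _ _ _)).mul (hc w)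
  have h2 : (∑ _i : Fin m, (-1 : ℤ)) + e = e - m := by
    simp; ring
  rw [h2] at h1
  exact h1

end Pool.Agent.Work.MP_4329d7_ag.FF
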