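import Mathlib
import Pool.Agent.Work.MP_4329d7_ag.FF.Setup

/-!
Kummer_comp: isolating a component (`comp_mem`), by averaging over the automorphisms
`x_j ↦ ζ_j x_j`, which are constructed from the basis of monomials.
-/

open MvPolynomial
open scoped WithZero

namespace Pool.Agent.Work.MP_4329d7_ag.FF

variable {κ : Type} [Fintype κ] [DecidableEq κ]

section

variable {a : Option κ → ℕ} {F : Type} [Field F] [Algebra ℂ F] [Algebra (P κ) F]
  [IsScalarTower ℂ (P κ) F] (D : Kum κ a F)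

/-- Monomials (the same as `Kum.mon`). -/
private noncomputable def kcMn (α : ∀ j, Fin (a j)) : F := ∏ j, D.x j ^ (α j : ℕ)

/-- Monomials with arbitrary natural exponents. -/
private noncomputable def kcMon (γ : Option κ → ℕ) : F := ∏ j, D.x j ^ γ j

omit [DecidableEq κ] [IsScalarTower ℂ (P κ) F] in
private lemma kcMon_mul (γ δ : Option κ → ℕ) :
    kcMon D γ * kcMon D δ = kcMon D (fun j => γ j + δ j) := by
  unfold kcMon
  rw [← Finset.prod_mul_distrib]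
  exact Finset.prod_congr rfl fun j _ => (pow_add _ _ _).symm

/-- The linear map `x^α ↦ ζ^α x^α`. -/
private noncomputable def kcT (b : Module.Basis (∀ j, Fin (a j)) (P κ) F) (ζ : Option κ → ℂ) :
    F →ₗ[P κ] F :=
  b.constr (P κ) (fun α => algebraMap ℂ (P κ) (∏ j, ζ j ^ (α j : ℕ)) • b α)

omit [DecidableEq κ] [Algebra ℂ F] [IsScalarTower ℂ (P κ) F] in
private lemma kcT_b (b : Module.Basis (∀ j, Fin (a j)) (P κ) F) (ζ : Option κ → ℂ)
    (α : ∀ j, Fin (a j)) :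
    kcT b ζ (b α) = algebraMap ℂ (P κ) (∏ j, ζ j ^ (α j : ℕ)) • b α := by
  unfold kcT
  rw [Module.Basis.constr_basis]

private lemma kcT_mon (ha : ∀ j, 0 < a j) (b : Module.Basis (∀ j, Fin (a j)) (P κ) F)
    (hb : ∀ α, b α = kcMn D α) (ζ : Option κ → ℂ) (hζ : ∀ j, ζ j ^ a j = 1) (γ : Option κ → ℕ) :
    kcT b ζ (kcMon D γ) = algebraMap ℂ (P κ) (∏ j, ζ j ^ γ j) • kcMon D γ := by
  set r : ∀ j, Fin (a j) := fun j => ⟨γ j % a j, Nat.mod_lt _ (ha j)⟩ with hr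
  have h1 : kcMon D γ = (∏ j, pu j ^ (γ j / a j) : P κ) • b r := by
    rw [hb, Algebra.smul_def, map_prod]
    unfold kcMon kcMn
    rw [← Finset.prod_mul_distrib]
    apply Finset.prod_congr rfl
    intro j _
    rw [map_pow, ← D.pow j, ← pow_mul, ← pow_add]
    congr 1
    simp only [hr]
    exact (Nat.div_add_mod (γ j) (a j)).symm
  have h2 : ∏ j, ζ j ^ γ j = ∏ j, ζ j ^ (r j : ℕ) := by
    apply Finset.prod_congr rfl
    intro j _
    conv_lhs => rw [← Nat.div_add_mod (γ j) (a j), pow_add, pow_mul, hζ, one_pow, one_mul]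
  rw [h1, map_smul, kcT_b, h2, smul_comm]

/-- The automorphism `x_j ↦ ζ_j x_j`. -/
private noncomputable def kcAut (ha : ∀ j, 0 < a j) (b : Module.Basis (∀ j, Fin (a j)) (P κ) F)
    (hb : ∀ α, b α = kcMn D α) (ζ : Option κ → ℂ) (hζ : ∀ j, ζ j ^ a j = 1) : F →ₐ[P κ] F :=
  AlgHom.ofLinearMap (kcT b ζ)
    (by
      have h := kcT_mon D ha b hb ζ hζ (fun _ => 0)
      simpa [kcMon] using h)
    (by
      have h1 : (LinearMap.mul (P κ) F).compr₂ (kcT b ζ) =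
          (LinearMap.mul (P κ) F).compl₁₂ (kcT b ζ) (kcT b ζ) := by
        apply b.ext
        intro α
        apply b.ext
        intro β
        have h2 : ∀ α, b α = kcMon D (fun j => (α j : ℕ)) := fun α => hb α
        simp only [LinearMap.compr₂_apply, LinearMap.compl₁₂_apply, LinearMap.mul_apply']
        rw [h2 α, h2 β, kcMon_mul, kcT_mon D ha b hb ζ hζ, kcT_mon D ha b hb ζ hζ,
          kcT_mon D ha b hb ζ hζ, smul_mul_smul_comm, kcMon_mul, ← map_mul,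
          ← Finset.prod_mul_distrib]
        congr 2
        exact Finset.prod_congr rfl fun j _ => pow_add _ _ _
      intro x y
      have h3 := LinearMap.congr_fun (LinearMap.congr_fun h1 x) y
      simpa using h3)

private lemma kcAut_b (ha : ∀ j, 0 < a j) (b : Module.Basis (∀ j, Fin (a j)) (P κ) F)
    (hb : ∀ α, b α = kcMn D α) (ζ : Option κ → ℂ) (hζ : ∀ j, ζ j ^ a j = 1)
    (α : ∀ j, Fin (a j)) :
    kcAut D ha b hb ζ hζ (b α) = algebraMap ℂ (P κ) (∏ j, ζ j ^ (α j : ℕ)) • b α :=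
  kcT_b b ζ α

private lemma kc_geom (z : ℂ) (n : ℕ) (hz : z ^ n = 1) :
    ∑ k : Fin n, z ^ (k : ℕ) = if z = 1 then (n : ℂ) else 0 := by
  rw [Fin.sum_univ_eq_sum_range (fun k => z ^ k) n]
  split_ifs with h
  · subst h; simp
  · rw [geom_sum_eq h, hz]; simp

private lemma kc_orth (ha : ∀ j, 0 < a j) (ω : Option κ → ℂ)
    (hω : ∀ j, IsPrimitiveRoot (ω j) (a j)) (α β : ∀ j, Fin (a j)) :
    ∑ k : (∀ j, Fin (a j)), (∏ j, (ω j ^ (k j : ℕ)) ^ (α j : ℕ))⁻¹ *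
      (∏ j, (ω j ^ (k j : ℕ)) ^ (β j : ℕ)) = if α = β then (∏ j, (a j : ℂ)) else 0 := by
  have h1 : ∀ k : (∀ j, Fin (a j)), (∏ j, (ω j ^ (k j : ℕ)) ^ (α j : ℕ))⁻¹ *
      (∏ j, (ω j ^ (k j : ℕ)) ^ (β j : ℕ)) =
      ∏ j, ((ω j ^ (α j : ℕ))⁻¹ * ω j ^ (β j : ℕ)) ^ (k j : ℕ) := by
    intro k
    rw [← Finset.prod_inv_distrib, ← Finset.prod_mul_distrib]
    apply Finset.prod_congr rfl
    intro j _
    rw [mul_pow, inv_pow, ← pow_mul, ← pow_mul, ← pow_mul, ← pow_mul, mul_comm (k j : ℕ),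
      mul_comm (k j : ℕ)]
  simp only [h1]
  rw [← Fintype.piFinset_univ, ← Finset.prod_univ_sum (fun j => (Finset.univ : Finset (Fin (a j))))
    (fun j k => ((ω j ^ (α j : ℕ))⁻¹ * ω j ^ (β j : ℕ)) ^ (k : ℕ))]
  have h2 : ∀ j, ((ω j ^ (α j : ℕ))⁻¹ * ω j ^ (β j : ℕ)) ^ a j = 1 := by
    intro j
    have h3 : ∀ n : ℕ, (ω j ^ n) ^ a j = 1 := by
      intro n
      rw [← pow_mul, mul_comm, pow_mul, (hω j).pow_eq_one, one_pow]
    rw [mul_pow, inv_pow, h3, h3, inv_one, one_mul]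
  have h0 : ∀ j, ω j ≠ 0 := fun j => (hω j).ne_zero (ha j).ne'
  split_ifs with h
  · subst h
    apply Finset.prod_congr rfl
    intro j _
    rw [kc_geom _ _ (h2 j), if_pos]
    exact inv_mul_cancel₀ (pow_ne_zero _ (h0 j))
  · obtain ⟨j, hj⟩ : ∃ j, α j ≠ β j := by
      by_contra hcon
      push Not at hcon
      exact h (funext hcon)
    apply Finset.prod_eq_zero (Finset.mem_univ j)
    rw [kc_geom _ _ (h2 j), if_neg]
    intro h3
    rw [inv_mul_eq_one₀ (pow_ne_zero _ (h0 j))] at h3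
    have := (hω j).pow_inj (α j).2 (β j).2 h3
    exact hj (Fin.ext this)

/-- Isolating a component by averaging. -/
theorem comp_mem' (b : Module.Basis (∀ j, Fin (a j)) (P κ) F)
    (hb : ∀ α, b α = ∏ j, D.x j ^ (α j : ℕ))
    (ha : ∀ j, 0 < a j)
    {L : Type} [Field L] [Algebra ℂ L] (v : Valuation L ℤᵐ⁰)
    (hv : ∀ c : ℂ, v (algebraMap ℂ L c) ≤ 1) (y : L) (f : F) (ψ : F →ₐ[ℂ] L)
    (h : ∀ ψ' : F →ₐ[ℂ] L, (∀ p, ψ' (algebraMap (P κ) F p) = ψ (algebraMap (P κ) F p)) →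
      v (y * ψ' f) ≤ 1) (α : ∀ j, Fin (a j)) :
    v (y * ψ (∏ j, D.x j ^ (α j : ℕ)) * ψ (algebraMap (P κ) F (b.repr f α))) ≤ 1 := by
  replace hb : ∀ α, b α = kcMn D α := hb
  change v (y * ψ (kcMn D α) * ψ (algebraMap (P κ) F (b.repr f α))) ≤ 1
  obtain ⟨ω, hω⟩ : ∃ ω : Option κ → ℂ, ∀ j, IsPrimitiveRoot (ω j) (a j) :=
    ⟨fun j => Complex.exp (2 * Real.pi * Complex.I / a j),
      fun j => Complex.isPrimitiveRoot_exp _ (ha j).ne'⟩
  have hζ : ∀ (k : ∀ j, Fin (a j)) j, (ω j ^ (k j : ℕ)) ^ a j = 1 := by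
    intro k j
    rw [← pow_mul, mul_comm, pow_mul, (hω j).pow_eq_one, one_pow]
  set σ : (∀ j, Fin (a j)) → (F →ₐ[P κ] F) :=
    fun k => kcAut D ha b hb (fun j => ω j ^ (k j : ℕ)) (hζ k) with hσ
  have hσb : ∀ k β, σ k (b β) = algebraMap ℂ (P κ) (∏ j, (ω j ^ (k j : ℕ)) ^ (β j : ℕ)) • b β :=
    fun k β => kcAut_b D ha b hb _ (hζ k) β
  have hM : (∏ j, (a j : ℂ)) ≠ 0 := by
    rw [Finset.prod_ne_zero_iff]
    intro j _
    exact_mod_cast (ha j).ne'
  -- the averaged sum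
  have hsum : ∑ k : (∀ j, Fin (a j)),
      algebraMap ℂ (P κ) (∏ j, (ω j ^ (k j : ℕ)) ^ (α j : ℕ))⁻¹ • σ k f =
      algebraMap ℂ (P κ) (∏ j, (a j : ℂ)) • (b.repr f α • b α) := by
    have h1 : ∀ k, σ k f = ∑ β, b.repr f β •
        (algebraMap ℂ (P κ) (∏ j, (ω j ^ (k j : ℕ)) ^ (β j : ℕ)) • b β) := by
      intro k
      conv_lhs => rw [← b.sum_repr f, map_sum]
      apply Finset.sum_congr rfl
      intro β _
      rw [map_smul, hσb]
    simp only [h1, Finset.smul_sum]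
    rw [Finset.sum_comm]
    have h2 : ∀ β, ∑ k : (∀ j, Fin (a j)),
        algebraMap ℂ (P κ) (∏ j, (ω j ^ (k j : ℕ)) ^ (α j : ℕ))⁻¹ • (b.repr f β •
        (algebraMap ℂ (P κ) (∏ j, (ω j ^ (k j : ℕ)) ^ (β j : ℕ)) • b β)) =
        algebraMap ℂ (P κ) (if α = β then (∏ j, (a j : ℂ)) else 0) • (b.repr f β • b β) := by
      intro β
      rw [← kc_orth ha ω hω α β, map_sum, Finset.sum_smul]
      apply Finset.sum_congr rfl
      intro k _
      rw [map_mul, smul_smul, smul_smul, smul_smul]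
      congr 1
      ring
    simp only [h2]
    rw [Finset.sum_eq_single α]
    · rw [if_pos rfl]
    · intro β _ hβ
      rw [if_neg (Ne.symm hβ), map_zero, zero_smul]
    · intro hα
      exact absurd (Finset.mem_univ α) hα
  have hsc : ∀ (c : ℂ) (x : F), algebraMap ℂ (P κ) c • x = algebraMap ℂ F c * x := by
    intro c x
    rw [Algebra.smul_def, ← IsScalarTower.algebraMap_apply]
  have hkey : algebraMap ℂ L (∏ j, (a j : ℂ)) *
      (y * ψ (kcMn D α) * ψ (algebraMap (P κ) F (b.repr f α))) =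
      ∑ k : (∀ j, Fin (a j)), algebraMap ℂ L (∏ j, (ω j ^ (k j : ℕ)) ^ (α j : ℕ))⁻¹ *
        (y * ψ (σ k f)) := by
    have h1 := congrArg (fun t => y * ψ t) hsum
    simp only [hsc, map_sum, map_mul, AlgHom.commutes] at h1
    rw [Finset.mul_sum] at h1
    rw [Algebra.smul_def, map_mul, hb] at h1
    calc algebraMap ℂ L (∏ j, (a j : ℂ)) *
        (y * ψ (kcMn D α) * ψ (algebraMap (P κ) F (b.repr f α)))
        = y * (algebraMap ℂ L (∏ j, (a j : ℂ)) * (ψ (algebraMap (P κ) F (b.repr f α)) *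
          ψ (kcMn D α))) := by ring
      _ = _ := h1.symm
      _ = _ := by
        apply Finset.sum_congr rfl
        intro k _
        ring
  have hle : v (algebraMap ℂ L (∏ j, (a j : ℂ)) *
      (y * ψ (kcMn D α) * ψ (algebraMap (P κ) F (b.repr f α)))) ≤ 1 := by
    rw [hkey]
    apply v.map_sum_le
    intro k _
    rw [map_mul]
    apply mul_le_one' (hv _)
    exact h (ψ.comp ((σ k).restrictScalars ℂ)) (fun p => by simp)
  have heq : y * ψ (kcMn D α) * ψ (algebraMap (P κ) F (b.repr f α)) =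
      algebraMap ℂ L (∏ j, (a j : ℂ))⁻¹ * (algebraMap ℂ L (∏ j, (a j : ℂ)) *
      (y * ψ (kcMn D α) * ψ (algebraMap (P κ) F (b.repr f α)))) := by
    rw [← mul_assoc, ← map_mul, inv_mul_cancel₀ hM, map_one, one_mul]
  rw [heq, map_mul]
  exact mul_le_one' (hv _) hle

end

end Pool.Agent.Work.MP_4329d7_ag.FF
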