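import Mathlib
import Pool.Agent.Work.MP_4329d7_ag.FF.Setup

/-!
Kummer_mon: no nontrivial monomial lies in `P`.
-/

open MvPolynomial
open scoped WithZero

namespace Pool.Agent.Work.MP_4329d7_ag.FF

variable {κ : Type} [Fintype κ] [DecidableEq κ]

/-- multiplicities of a prime `u j` in a monomial times a power. -/
theorem kmon_mult (hp : ∀ j, Prime (u j : A κ))
    (hna : ∀ j k : Option κ, j ≠ k → ¬ Associated (u j : A κ) (u k))
    (j : Option κ) (n : Option κ → ℕ) (M : ℕ) (g : A κ) (hg : g ≠ 0) :
    emultiplicity (u j : A κ) ((∏ k, u k ^ n k) * g ^ M) =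
      ((n j + M * multiplicity (u j : A κ) g : ℕ) : ℕ∞) := by
  rw [emultiplicity_mul (hp j), Finset.emultiplicity_prod (hp j), emultiplicity_pow (hp j),
    Finset.sum_eq_single j]
  · have h1 : FiniteMultiplicity (u j : A κ) g := FiniteMultiplicity.of_prime_left (hp j) hg
    have h2 : FiniteMultiplicity (u j : A κ) (u j) :=
      FiniteMultiplicity.of_prime_left (hp j) (hp j).ne_zero
    rw [emultiplicity_pow (hp j), h2.emultiplicity_self, h1.emultiplicity_eq_multiplicity]
    push_cast
    ring
  · intro k _ hk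
    rw [emultiplicity_pow (hp j)]
    have : emultiplicity (u j : A κ) (u k) = 0 := by
      rw [emultiplicity_eq_zero]
      intro h
      exact hna j k hk.symm (((hp j).dvd_prime_iff_associated (hp k)).1 h)
    rw [this, mul_zero]
  · intro h; exact absurd (Finset.mem_univ j) h

theorem kmon_not_mem {a : Option κ → ℕ} {F : Type} [Field F] [Algebra ℂ F] [Algebra (P κ) F]
    (D : Kum κ a F) (hp : ∀ j, Prime (u j : A κ))
    (hna : ∀ j k : Option κ, j ≠ k → ¬ Associated (u j : A κ) (u k))
    (ha : ∀ j, 0 < a j) (γ : Option κ → ℤ)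
    (p : P κ) (h : ∏ j, D.x j ^ γ j = algebraMap (P κ) F p) (j : Option κ) :
    (a j : ℤ) ∣ γ j := by
  classical
  have hinjF := (algebraMap (P κ) F).injective
  have hinj := IsFractionRing.injective (A κ) (P κ)
  have hpu : ∀ k : Option κ, (pu k : P κ) ≠ 0 := fun k => by
    intro h
    apply (hp k).ne_zero
    apply hinj
    rw [map_zero]; exact h
  set M : ℕ := ∏ k, a k with hM
  set b : Option κ → ℕ := fun k => ∏ l ∈ Finset.univ.erase k, a l with hb
  have hab : ∀ k, a k * b k = M := fun k => Finset.mul_prod_erase _ _ (Finset.mem_univ k)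
  have hMpos : 0 < M := Finset.prod_pos (fun k _ => ha k)
  -- the relation in `P`
  have h1 : ∏ k, (pu k : P κ) ^ (γ k * b k) = p ^ M := by
    apply hinjF
    rw [map_pow, ← h, map_prod, ← Finset.prod_pow]
    refine Finset.prod_congr rfl (fun k _ => ?_)
    rw [map_zpow₀, ← D.pow k, ← zpow_natCast (D.x k) (a k), ← zpow_mul, ← zpow_natCast _ M,
      ← zpow_mul, ← hab k]
    congr 1
    push_cast
    ring
  obtain ⟨f, g, hg, rfl⟩ := IsFractionRing.div_surjective (A := A κ) p
  have hg0 : g ≠ 0 := nonZeroDivisors.ne_zero hg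
  have hag : algebraMap (A κ) (P κ) g ≠ 0 := by
    intro h0
    apply hg0
    apply hinj
    rw [map_zero]; exact h0
  have hf0 : f ≠ 0 := by
    rintro rfl
    rw [map_zero, zero_div, zero_pow hMpos.ne'] at h1
    exact Finset.prod_ne_zero_iff.2 (fun k _ => zpow_ne_zero _ (hpu k)) h1
  have h2 : (∏ k, (u k : A κ) ^ ((γ k).toNat * b k)) * g ^ M =
      (∏ k, (u k : A κ) ^ ((-γ k).toNat * b k)) * f ^ M := by
    apply hinj
    rw [map_mul, map_mul, map_prod, map_prod, map_pow, map_pow]
    rw [div_pow, eq_div_iff (pow_ne_zero _ hag)] at h1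
    rw [← h1, ← mul_assoc, ← Finset.prod_mul_distrib]
    congr 1
    refine Finset.prod_congr rfl (fun k _ => ?_)
    rw [map_pow, map_pow]
    change (pu k : P κ) ^ _ = (pu k : P κ) ^ _ * _
    rw [← zpow_natCast, ← zpow_natCast, ← zpow_add₀ (hpu k)]
    congr 1
    push_cast
    rw [← add_mul]
    congr 1
    omega
  have h3 := congrArg (emultiplicity (u j : A κ)) h2
  rw [kmon_mult hp hna j _ M g hg0, kmon_mult hp hna j _ M f hf0] at h3
  have h4 : (γ j).toNat * b j + M * multiplicity (u j : A κ) g =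
      (-γ j).toNat * b j + M * multiplicity (u j : A κ) f := by exact_mod_cast h3
  have h5 : (γ j * b j : ℤ) = (M : ℤ) *
      (multiplicity (u j : A κ) f - multiplicity (u j : A κ) g) := by
    have h6 : (((γ j).toNat * b j + M * multiplicity (u j : A κ) g : ℕ) : ℤ) =
      (((-γ j).toNat * b j + M * multiplicity (u j : A κ) f : ℕ) : ℤ) := by exact_mod_cast h4
    push_cast at h6
    have h7 : (γ j : ℤ) = (γ j).toNat - (-γ j).toNat := by omega
    have h8 : (γ j * b j : ℤ) = (γ j).toNat * b j - (-γ j).toNat * b j := by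
      rw [← sub_mul, ← h7]
    rw [h8]
    linear_combination h6
  have hbj : (b j : ℤ) ≠ 0 := by
    have : 0 < b j := Finset.prod_pos (fun k _ => ha k)
    exact_mod_cast this.ne'
  refine ⟨(multiplicity (u j : A κ) f : ℤ) - multiplicity (u j : A κ) g, ?_⟩
  apply mul_right_cancel₀ hbj
  rw [h5, ← hab j]
  push_cast
  ring

end Pool.Agent.Work.MP_4329d7_ag.FF
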