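import Mathlib
import Pool.Agent.Work.MP_4329d7_ag.FF.Setup
import Pool.Agent.Work.MP_4329d7_ag.FF.Kummer_mon
import Pool.Agent.Work.MP_4329d7_ag.FF.Kummer_comp

/-!
Kummer: the extension `F = P(x_j)`, `x_j ^ a_j = u_j`.
-/

open MvPolynomial
open scoped WithZero

namespace Pool.Agent.Work.MP_4329d7_ag.FF

variable {κ : Type} [Fintype κ] [DecidableEq κ]

/-- HINT: in `Ω = AlgebraicClosure (P κ)` choose `y_j` with `y_j ^ a_j = u_j`
(`IsAlgClosed.exists_pow_nat_eq`), `F = IntermediateField.adjoin (P κ) (range y)`; each `y_j` is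
integral so `F` is `Algebra.adjoin` (`IntermediateField.adjoin_algebraic_toSubalgebra`). -/
theorem kum_exists (a : Option κ → ℕ) (ha : ∀ j, 0 < a j) :
    ∃ (F : Type) (_ : Field F) (_ : Algebra ℂ F) (_ : Algebra (P κ) F)
      (_ : IsScalarTower ℂ (P κ) F), Nonempty (Kum κ a F) := by
  have hy : ∀ j, ∃ y : AlgebraicClosure (P κ), y ^ a j = algebraMap (P κ) _ (pu j) :=
    fun j => IsAlgClosed.exists_pow_nat_eq _ (ha j)
  choose y hy using hy
  have hsub : ∀ j, y j ∈ IntermediateField.adjoin (P κ) (Set.range y) :=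
    fun j => IntermediateField.subset_adjoin _ _ ⟨j, rfl⟩
  refine ⟨IntermediateField.adjoin (P κ) (Set.range y), inferInstance, inferInstance,
    inferInstance, inferInstance, ⟨⟨fun j => ⟨y j, hsub j⟩, fun j => ?_, ?_⟩⟩⟩
  · apply Subtype.ext
    simpa using hy j
  · have hinj : Function.Injective
        (IntermediateField.adjoin (P κ) (Set.range y)).val := Subtype.val_injective
    apply Subalgebra.map_injective hinj
    rw [AlgHom.map_adjoin, ← Set.range_comp, Algebra.map_top]
    have h1 : (IntermediateField.adjoin (P κ) (Set.range y)).toSubalgebra =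
        Algebra.adjoin (P κ) (Set.range y) := by
      apply IntermediateField.adjoin_toSubalgebra_of_isAlgebraic
      exact fun x _ => Algebra.IsAlgebraic.isAlgebraic x
    have h2 : (IntermediateField.adjoin (P κ) (Set.range y)).val.range =
        (IntermediateField.adjoin (P κ) (Set.range y)).toSubalgebra := by
      exact IntermediateField.range_val _
    rw [h2, h1]
    rfl

set_option linter.unusedSectionVars false

/-- The sum of the variables is prime. -/
theorem Kummer_prime_sum (k0 : κ) : Prime (∑ k, X k : A κ) := by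
  let f : A κ →ₐ[ℂ] A κ := aeval (fun k => if k = k0 then ∑ k, X k else X k)
  let g : A κ →ₐ[ℂ] A κ := aeval (fun k => if k = k0 then X k0 - ∑ l ∈ Finset.univ.erase k0, X l
    else X k)
  have hs : (∑ k, X k : A κ) = X k0 + ∑ l ∈ Finset.univ.erase k0, X l := by
    rw [Finset.add_sum_erase _ _ (Finset.mem_univ k0)]
  have hfg : f.comp g = AlgHom.id ℂ (A κ) := by
    apply MvPolynomial.algHom_ext
    intro k
    simp only [f, g, AlgHom.comp_apply, aeval_X, AlgHom.id_apply]
    by_cases hk : k = k0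
    · subst hk
      rw [if_pos rfl, map_sub, aeval_X, if_pos rfl, map_sum, hs]
      have : ∑ l ∈ Finset.univ.erase k, (aeval fun l => if l = k then
          (X k + ∑ l ∈ Finset.univ.erase k, X l : A κ) else X l) (X l : A κ) =
          ∑ l ∈ Finset.univ.erase k, X l := by
        refine Finset.sum_congr rfl fun l hl => ?_
        rw [aeval_X, if_neg (Finset.ne_of_mem_erase hl)]
      rw [this]
      ring
    · rw [if_neg hk, aeval_X, if_neg hk]
  have hgf : g.comp f = AlgHom.id ℂ (A κ) := by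
    apply MvPolynomial.algHom_ext
    intro k
    simp only [f, g, AlgHom.comp_apply, aeval_X, AlgHom.id_apply]
    by_cases hk : k = k0
    · subst hk
      rw [if_pos rfl, map_sum, ← Finset.add_sum_erase _ _ (Finset.mem_univ k), aeval_X,
        if_pos rfl]
      have : ∑ l ∈ Finset.univ.erase k, (aeval fun l => if l = k then
          (X k - ∑ l ∈ Finset.univ.erase k, X l : A κ) else X l) (X l : A κ) =
          ∑ l ∈ Finset.univ.erase k, X l := by
        refine Finset.sum_congr rfl fun l hl => ?_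
        rw [aeval_X, if_neg (Finset.ne_of_mem_erase hl)]
      rw [this]
      ring
    · rw [if_neg hk, aeval_X, if_neg hk]
  let e : A κ ≃ₐ[ℂ] A κ := AlgEquiv.ofAlgHom f g hfg hgf
  have he : e (X k0) = ∑ k, X k := by
    change f (X k0) = _
    simp only [f, aeval_X, if_true]
  rw [← he]
  exact (MulEquiv.prime_iff e.toMulEquiv).2 (X_prime)

theorem Kummer_not_dvd {p q : A κ} (x : κ → ℂ) (hp : eval x p = 0) (hq : eval x q ≠ 0) :
    ¬ Associated p q := by
  intro h
  obtain ⟨r, hr⟩ := h.dvd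
  rw [hr, map_mul, hp, zero_mul] at hq
  exact hq rfl

theorem Kummer_not_assoc (hcard : 2 ≤ Fintype.card κ) (i : κ) :
    ¬ Associated (u (some i) : A κ) (u none) := by
  obtain ⟨l, hl⟩ : ∃ l : κ, l ≠ i := by
    have : Nontrivial κ := Fintype.one_lt_card_iff_nontrivial.1 (by omega)
    exact exists_ne i
  apply Kummer_not_dvd (Pi.single l 1)
  · simp [u, Pi.single_apply, hl.symm]
  · simp [u]

section

variable {a : Option κ → ℕ} {F : Type} [Field F] [Algebra ℂ F] [Algebra (P κ) F]
  [IsScalarTower ℂ (P κ) F] (D : Kum κ a F)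

/-- Monomials. -/
noncomputable def Kum.mon (α : ∀ j, Fin (a j)) : F := ∏ j, D.x j ^ (α j : ℕ)

theorem Kummer_int (ha : ∀ j, 0 < a j) (j : Option κ) : IsIntegral (P κ) (D.x j) := by
  refine IsIntegral.of_pow (ha j) ?_
  rw [D.pow]
  exact isIntegral_algebraMap

theorem Kummer_splits {n : ℕ} (hn : 0 < n) {L : Type} [Field L] [Algebra ℂ L] (y : L) :
    (Polynomial.X ^ n - Polynomial.C (y ^ n) : Polynomial L).Splits := by
  have h1 := Complex.isPrimitiveRoot_exp n hn.ne'
  have h2 := h1.map_of_injective (algebraMap ℂ L).injective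
  exact X_pow_sub_C_splits_of_isPrimitiveRoot h2 rfl

theorem Kummer_minpoly (ha : ∀ j, 0 < a j) (j : Option κ) :
    minpoly (P κ) (D.x j) ∣ Polynomial.X ^ a j - Polynomial.C (pu j) := by
  apply minpoly.dvd
  simp [D.pow]

/-- A root of unity in `F` is a constant. -/
theorem Kummer_root {n : ℕ} (hn : 0 < n) {z : F} (hz : z ^ n = 1) : ∃ c : ℂ, z = algebraMap ℂ F c := by
  have h1 := Complex.isPrimitiveRoot_exp n hn.ne'
  have h2 := h1.map_of_injective (algebraMap ℂ F).injective
  have : NeZero n := ⟨hn.ne'⟩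
  obtain ⟨i, _, hi⟩ := h2.eq_pow_of_pow_eq_one hz
  exact ⟨_ ^ i, by rw [map_pow]; exact hi.symm⟩

/-- The `u j` are pairwise non-associated primes (`card κ ≥ 2`). -/
theorem u_prime (hcard : 2 ≤ Fintype.card κ) (j : Option κ) : Prime (u j : A κ) := by
  cases j with
  | some k => exact X_prime
  | none =>
    obtain ⟨k0⟩ : Nonempty κ := Fintype.card_pos_iff.1 (by omega)
    exact (Kummer_prime_sum k0).neg

theorem u_not_assoc (hcard : 2 ≤ Fintype.card κ) {j k : Option κ} (h : j ≠ k) :
    ¬ Associated (u j : A κ) (u k) := by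
  cases j with
  | some i =>
    cases k with
    | none => exact Kummer_not_assoc hcard i
    | some l =>
      have hil : i ≠ l := fun h' => h (by rw [h'])
      apply Kummer_not_dvd (Pi.single l 1)
      · simp [u, Pi.single_apply, hil]
      · simp [u]
  | none =>
    cases k with
    | none => exact absurd rfl h
    | some l => exact fun h' => Kummer_not_assoc hcard l h'.symm

/-- No nontrivial monomial is in `P`.
HINT: if `∏ x_j^{γ_j} ∈ P`, raise to the power `M = ∏ a_j`: `∏ u_j^{γ_j M / a_j} = p^M` with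
`p ∈ P`; compare multiplicities of the prime `u_j` (e.g. through the `u_j`-adic valuation, or
`p = f/g`): `M ∣ γ_j M / a_j`, so `a_j ∣ γ_j`. -/
theorem mon_not_mem (hcard : 2 ≤ Fintype.card κ) (ha : ∀ j, 0 < a j) (γ : Option κ → ℤ)
    (p : P κ) (h : ∏ j, D.x j ^ γ j = algebraMap (P κ) F p) (j : Option κ) :
    (a j : ℤ) ∣ γ j :=
  kmon_not_mem D (u_prime hcard) (fun _ _ h => u_not_assoc hcard h) ha γ p h j

include D in
theorem Kummer_adjoin : IntermediateField.adjoin (P κ) (Set.range D.x) = ⊤ := by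
  rw [← top_le_iff, ← IntermediateField.toSubalgebra_le_toSubalgebra,
    IntermediateField.top_toSubalgebra, ← D.gen]
  exact IntermediateField.algebra_adjoin_le_adjoin _ _

include D in
theorem Kummer_galois (ha : ∀ j, 0 < a j) : IsGalois (P κ) F := by
  have hch : CharZero (P κ) := charZero_of_injective_algebraMap (algebraMap ℂ (P κ)).injective
  have hK : ∀ s ∈ Set.range D.x, IsIntegral (P κ) s ∧
      ((minpoly (P κ) s).map (algebraMap (P κ) F)).Splits := by
    rintro _ ⟨j, rfl⟩
    refine ⟨Kummer_int D ha j, ?_⟩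
    have h2 := Polynomial.map_dvd (algebraMap (P κ) F) (Kummer_minpoly D ha j)
    rw [Polynomial.map_sub, Polynomial.map_pow, Polynomial.map_X, Polynomial.map_C,
      ← D.pow] at h2
    exact (Kummer_splits (ha j) (D.x j)).of_dvd
      (Polynomial.monic_X_pow_sub_C _ (ha j).ne').ne_zero h2
  have hint : ∀ x : F, IsIntegral (P κ) x := by
    intro x
    have hx : x ∈ Algebra.adjoin (P κ) (Set.range D.x) := by rw [D.gen]; trivial
    have : Algebra.adjoin (P κ) (Set.range D.x) ≤ integralClosure (P κ) F := by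
      rw [Algebra.adjoin_le_iff]
      rintro _ ⟨j, rfl⟩
      exact Kummer_int D ha j
    exact this hx
  have halg : Algebra.IsAlgebraic (P κ) F := ⟨fun x => (hint x).isAlgebraic⟩
  have hnor : Normal (P κ) F := by
    rw [normal_iff]
    intro x
    refine ⟨hint x, ?_⟩
    have hx : x ∈ IntermediateField.adjoin (P κ) (Set.range D.x) := by
      rw [Kummer_adjoin D]; trivial
    exact IntermediateField.splits_of_mem_adjoin (P κ) F hK hx
  exact { to_isSeparable := inferInstance, to_normal := hnor }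

theorem Kummer_x_ne (hcard : 2 ≤ Fintype.card κ) (j : Option κ) (ha : ∀ j, 0 < a j) :
    D.x j ≠ 0 := by
  intro h
  have h1 := D.pow j
  rw [h, zero_pow (ha j).ne', eq_comm, map_eq_zero] at h1
  unfold pu at h1
  rw [map_eq_zero_iff _ (IsFractionRing.injective (A κ) (P κ))] at h1
  exact (u_prime hcard j).ne_zero h1

theorem Kummer_mon_ne (hcard : 2 ≤ Fintype.card κ) (ha : ∀ j, 0 < a j) (α : ∀ j, Fin (a j)) :
    D.mon α ≠ 0 := by
  unfold Kum.mon
  exact Finset.prod_ne_zero_iff.2 fun j _ => pow_ne_zero _ (Kummer_x_ne D hcard j ha)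

/-- the Galois group acts on monomials by constants -/
theorem Kummer_act (hcard : 2 ≤ Fintype.card κ) (ha : ∀ j, 0 < a j) (σ : F ≃ₐ[P κ] F)
    (α : ∀ j, Fin (a j)) : ∃ c : ℂ, σ (D.mon α) = algebraMap ℂ F c * D.mon α := by
  have h : ∀ j, ∃ c : ℂ, σ (D.x j) = algebraMap ℂ F c * D.x j := by
    intro j
    have hx := Kummer_x_ne D hcard j ha
    have h1 : (σ (D.x j) / D.x j) ^ a j = 1 := by
      rw [div_pow, ← map_pow, D.pow, σ.commutes, ← D.pow, div_self (pow_ne_zero _ hx)]
    obtain ⟨c, hc⟩ := Kummer_root (ha j) h1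
    exact ⟨c, by rw [← hc, div_mul_cancel₀ _ hx]⟩
  choose c hc using h
  refine ⟨∏ j, c j ^ (α j : ℕ), ?_⟩
  unfold Kum.mon
  rw [map_prod, map_prod, ← Finset.prod_mul_distrib]
  refine Finset.prod_congr rfl fun j _ => ?_
  rw [map_pow, hc, mul_pow, map_pow]

/-- the character of a monomial -/
noncomputable def Kummer_chi (hcard : 2 ≤ Fintype.card κ) (ha : ∀ j, 0 < a j)
    (α : ∀ j, Fin (a j)) : (F ≃ₐ[P κ] F) →* F where
  toFun σ := σ (D.mon α) / D.mon α
  map_one' := by
    rw [AlgEquiv.one_apply, div_self (Kummer_mon_ne D hcard ha α)]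
  map_mul' σ τ := by
    have hm := Kummer_mon_ne D hcard ha α
    obtain ⟨c, hc⟩ := Kummer_act D hcard ha τ α
    have hcc : σ (algebraMap ℂ F c) = algebraMap ℂ F c := by
      rw [IsScalarTower.algebraMap_apply ℂ (P κ) F, σ.commutes]
    rw [AlgEquiv.mul_apply, hc, map_mul, hcc]
    field_simp

theorem Kummer_chi_apply (hcard : 2 ≤ Fintype.card κ) (ha : ∀ j, 0 < a j)
    (α : ∀ j, Fin (a j)) (σ : F ≃ₐ[P κ] F) :
    Kummer_chi D hcard ha α σ = σ (D.mon α) / D.mon α := rfl

theorem Kummer_mon_update (α : ∀ j, Fin (a j)) (j : Option κ) (v : Fin (a j)) :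
    D.mon (Function.update α j v) =
      D.x j ^ (v : ℕ) * ∏ k ∈ Finset.univ.erase j, D.x k ^ (α k : ℕ) := by
  unfold Kum.mon
  rw [← Finset.mul_prod_erase _ _ (Finset.mem_univ j), Function.update_self]
  congr 1
  refine Finset.prod_congr rfl fun k hk => ?_
  rw [Function.update_of_ne (Finset.ne_of_mem_erase hk)]

theorem Kummer_mon_split (α : ∀ j, Fin (a j)) (j : Option κ) :
    D.mon α = D.x j ^ (α j : ℕ) * ∏ k ∈ Finset.univ.erase j, D.x k ^ (α k : ℕ) := by
  unfold Kum.mon
  rw [← Finset.mul_prod_erase _ _ (Finset.mem_univ j)]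

theorem Kummer_mul_mem (ha : ∀ j, 0 < a j) (j : Option κ) (s : F)
    (hs : s ∈ Submodule.span (P κ) (Set.range D.mon)) :
    D.x j * s ∈ Submodule.span (P κ) (Set.range D.mon) := by
  induction hs using Submodule.span_induction with
  | mem y hy =>
    obtain ⟨α, rfl⟩ := hy
    by_cases h : (α j : ℕ) + 1 < a j
    · have h1 : D.x j * D.mon α = D.mon (Function.update α j ⟨(α j : ℕ) + 1, h⟩) := by
        rw [Kummer_mon_update, Kummer_mon_split D α j]
        ring
      rw [h1]
      exact Submodule.subset_span ⟨_, rfl⟩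
    · have h2 : (α j : ℕ) + 1 = a j := by
        have := (α j).2
        omega
      have h1 : D.x j * D.mon α = pu j • D.mon (Function.update α j ⟨0, ha j⟩) := by
        have h3 : D.x j ^ a j = D.x j ^ (α j : ℕ) * D.x j := by
          rw [← pow_succ]; exact congrArg (fun n => D.x j ^ n) h2.symm
        rw [Kummer_mon_update, Kummer_mon_split D α j, Algebra.smul_def, ← D.pow, h3]
        simp only [pow_zero]
        ring
      rw [h1]
      exact Submodule.smul_mem _ _ (Submodule.subset_span ⟨_, rfl⟩)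
  | zero => rw [mul_zero]; exact Submodule.zero_mem _
  | add x y _ _ hx hy => rw [mul_add]; exact Submodule.add_mem _ hx hy
  | smul r x _ hx => rw [mul_smul_comm]; exact Submodule.smul_mem _ _ hx

theorem Kummer_span (ha : ∀ j, 0 < a j) : ⊤ ≤ Submodule.span (P κ) (Set.range D.mon) := by
  have key : ∀ y ∈ Algebra.adjoin (P κ) (Set.range D.x),
      ∀ s ∈ Submodule.span (P κ) (Set.range D.mon),
        y * s ∈ Submodule.span (P κ) (Set.range D.mon) := by
    intro y hy
    induction hy using Algebra.adjoin_induction with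
    | mem x hx =>
      obtain ⟨j, rfl⟩ := hx
      exact fun s hs => Kummer_mul_mem D ha j s hs
    | algebraMap r =>
      intro s hs
      rw [← Algebra.smul_def]
      exact Submodule.smul_mem _ _ hs
    | add x y _ _ hx hy =>
      intro s hs
      rw [add_mul]
      exact Submodule.add_mem _ (hx s hs) (hy s hs)
    | mul x y _ _ hx hy =>
      intro s hs
      rw [mul_assoc]
      exact hx _ (hy s hs)
  intro y _
  have h1 : (1 : F) ∈ Submodule.span (P κ) (Set.range D.mon) := by
    refine Submodule.subset_span ⟨fun j => ⟨0, ha j⟩, ?_⟩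
    simp [Kum.mon]
  have h2 := key y (by rw [D.gen]; trivial) 1 h1
  rwa [mul_one] at h2

include D in
theorem Kummer_fin (ha : ∀ j, 0 < a j) : FiniteDimensional (P κ) F := by
  refine ⟨⟨(Set.finite_range D.mon).toFinset, ?_⟩⟩
  rw [Set.Finite.coe_toFinset]
  exact top_le_iff.1 (Kummer_span D ha)

include D in
/-- fixed elements are in the base field -/
theorem Kummer_fixed (ha : ∀ j, 0 < a j) (y : F) (h : ∀ σ : F ≃ₐ[P κ] F, σ y = y) :
    ∃ p : P κ, y = algebraMap (P κ) F p := by
  have := Kummer_galois D ha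
  have := Kummer_fin D ha
  have h1 := (IsGalois.mem_bot_iff_fixed (F := P κ) y).2 h
  rw [IntermediateField.mem_bot] at h1
  obtain ⟨p, hp⟩ := h1
  exact ⟨p, hp.symm⟩

theorem Kummer_chi_inj (hcard : 2 ≤ Fintype.card κ) (ha : ∀ j, 0 < a j) :
    Function.Injective (Kummer_chi D hcard ha) := by
  intro α β h
  have hα := Kummer_mon_ne D hcard ha α
  have hβ := Kummer_mon_ne D hcard ha β
  have h1 : ∀ σ : F ≃ₐ[P κ] F, σ (D.mon α / D.mon β) = D.mon α / D.mon β := by
    intro σ
    have h2 := DFunLike.congr_fun h σ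
    rw [Kummer_chi_apply, Kummer_chi_apply, div_eq_div_iff hα hβ] at h2
    have hσ : σ (D.mon β) ≠ 0 := by
      rw [Ne, map_eq_zero]; exact hβ
    rw [map_div₀, div_eq_div_iff hσ hβ, h2]
    ring
  obtain ⟨p, hp⟩ := Kummer_fixed D ha _ h1
  have h3 : ∏ j, D.x j ^ (((α j : ℕ) : ℤ) - ((β j : ℕ) : ℤ)) = algebraMap (P κ) F p := by
    rw [← hp]
    unfold Kum.mon
    rw [← Finset.prod_div_distrib]
    refine Finset.prod_congr rfl fun j _ => ?_
    rw [zpow_sub₀ (Kummer_x_ne D hcard j ha), zpow_natCast, zpow_natCast]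
  funext j
  have h4 := mon_not_mem D hcard ha _ p h3 j
  apply Fin.ext
  have h5 := (α j).2
  have h6 := (β j).2
  obtain ⟨z, hz⟩ := h4
  have hz0 : z = 0 := by
    have h7 : |(((α j : ℕ) : ℤ) - ((β j : ℕ) : ℤ))| < a j := by
      rw [abs_lt]; constructor <;> omega
    rw [hz, abs_mul, Nat.abs_cast] at h7
    by_contra hz0
    have h8 : 1 ≤ |z| := Int.one_le_abs hz0
    nlinarith
  rw [hz0, mul_zero] at hz
  omega

/-- The monomials form a basis.
HINT: spanning: the span of the monomials is a subalgebra containing all `x_j`, and `D.gen`.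
`F/P` is finite, normal (it contains the roots of unity and each `x_j` has minimal polynomial
dividing `T^{a_j} - u_j`, which splits) and separable (characteristic `0`), so Galois. Independence:
take a nontrivial relation `∑ c_α x^α = 0` with the fewest terms, `α ≠ β` in it; by
`mon_not_mem` `x^α / x^β ∉ P`, so some `σ ∈ Gal(F/P)` moves it; `σ x^α = ζ_α x^α` with `ζ_α` a root
of unity, `ζ_α ≠ ζ_β`; subtract `ζ_α` times the relation from its image under `σ`. -/
theorem kum_basis (hcard : 2 ≤ Fintype.card κ) (ha : ∀ j, 0 < a j) :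
    ∃ b : Module.Basis (∀ j, Fin (a j)) (P κ) F, ∀ α, b α = D.mon α := by
  have hli : LinearIndependent (P κ) D.mon := by
    rw [Fintype.linearIndependent_iff]
    intro g hg α
    have h1 := (linearIndependent_monoidHom (F ≃ₐ[P κ] F) F).comp _ (Kummer_chi_inj D hcard ha)
    rw [Fintype.linearIndependent_iff] at h1
    have h2 := h1 (fun α => algebraMap (P κ) F (g α) * D.mon α) ?_ α
    · exact ((map_eq_zero _).1 ((mul_eq_zero.1 h2).resolve_right (Kummer_mon_ne D hcard ha α)))
    · funext σ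
      rw [Finset.sum_apply, Pi.zero_apply]
      have h3 : ∑ α, σ (g α • D.mon α) = 0 := by rw [← map_sum, hg, map_zero]
      rw [← h3]
      refine Finset.sum_congr rfl fun β _ => ?_
      have hβ := Kummer_mon_ne D hcard ha β
      rw [Pi.smul_apply, smul_eq_mul, Function.comp_apply, Kummer_chi_apply, map_smul,
        Algebra.smul_def]
      field_simp
  exact ⟨Module.Basis.mk hli (Kummer_span D ha), fun α => Module.Basis.mk_apply _ _ α⟩

/-- The basis of monomials. -/
noncomputable def Kum.b (hcard : 2 ≤ Fintype.card κ) (ha : ∀ j, 0 < a j) :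
    Module.Basis (∀ j, Fin (a j)) (P κ) F := (kum_basis D hcard ha).choose

theorem Kum.b_apply (hcard : 2 ≤ Fintype.card κ) (ha : ∀ j, 0 < a j) (α : ∀ j, Fin (a j)) :
    D.b hcard ha α = D.mon α := (kum_basis D hcard ha).choose_spec α

/-- Isolating a component by averaging over the Galois group.
HINT: for `σ ∈ Gal(F/P)` let `χ_σ(γ) = σ(x^γ)/x^γ`, a root of unity, so (the image of) a complex
number. `∑_σ χ_σ(α)⁻¹ σ f = |Gal| c_α x^α`, because for `β ≠ α` some `σ` has
`χ_σ(β) ≠ χ_σ(α)` (`mon_not_mem` and `F^{Gal} = P`), hence `∑_σ χ_σ(β - α) = 0`. Apply `ψ`: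
`y ψ(c_α) ψ(x^α) = |Gal|⁻¹ ∑_σ ψ(χ_σ(α))⁻¹ y (ψ ∘ σ)(f)`; `v` is `≤ 1` on constants, and `ψ ∘ σ` is
one more extension of `ψ|_P`, so each term has `v ≤ 1`. -/
theorem comp_mem (hcard : 2 ≤ Fintype.card κ) (ha : ∀ j, 0 < a j)
    {L : Type} [Field L] [Algebra ℂ L] (v : Valuation L ℤᵐ⁰)
    (hv : ∀ c : ℂ, v (algebraMap ℂ L c) ≤ 1) (y : L) (f : F) (ψ : F →ₐ[ℂ] L)
    (h : ∀ ψ' : F →ₐ[ℂ] L, (∀ p, ψ' (algebraMap (P κ) F p) = ψ (algebraMap (P κ) F p)) →
      v (y * ψ' f) ≤ 1) (α : ∀ j, Fin (a j)) :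
    v (y * ψ (D.mon α) * ψ (algebraMap (P κ) F ((D.b hcard ha).repr f α))) ≤ 1 := by
  exact comp_mem' D (D.b hcard ha) (D.b_apply hcard ha) ha v hv y f ψ h α

include D in
/-- Extension of embeddings.
HINT: `L` contains the roots of unity (from `ℂ`) and a root of `T^{a_j} - φ(u_j)`, so the minimal
polynomial of `x_j` over `P` splits in `L` (with the algebra structure given by `φ`):
`IntermediateField.nonempty_algHom_adjoin_of_splits` or similar. -/
theorem kum_lift (ha : ∀ j, 0 < a j) {L : Type} [Field L] [Algebra ℂ L] (φ : P κ →ₐ[ℂ] L)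
    (h : ∀ j, ∃ y : L, y ^ a j = φ (pu j)) :
    ∃ ψ : F →ₐ[ℂ] L, ∀ p, ψ (algebraMap (P κ) F p) = φ p := by
  let : Algebra (P κ) L := φ.toRingHom.toAlgebra
  have hφ : ∀ p, algebraMap (P κ) L p = φ p := fun p => rfl
  have : IsScalarTower ℂ (P κ) L := IsScalarTower.of_algebraMap_eq fun c => by
    rw [hφ, φ.commutes]
  have hS : IntermediateField.adjoin (P κ) (Set.range D.x) = ⊤ := by
    rw [← top_le_iff, ← IntermediateField.toSubalgebra_le_toSubalgebra,
      IntermediateField.top_toSubalgebra, ← D.gen]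
    exact IntermediateField.algebra_adjoin_le_adjoin _ _
  have hK : ∀ s ∈ Set.range D.x, IsIntegral (P κ) s ∧
      ((minpoly (P κ) s).map (algebraMap (P κ) L)).Splits := by
    rintro _ ⟨j, rfl⟩
    refine ⟨Kummer_int D ha j, ?_⟩
    obtain ⟨y, hy⟩ := h j
    have h1 := Kummer_minpoly D ha j
    have h2 := Polynomial.map_dvd (algebraMap (P κ) L) h1
    rw [Polynomial.map_sub, Polynomial.map_pow, Polynomial.map_X, Polynomial.map_C, hφ, ← hy] at h2
    have h3 := Kummer_splits (ha j) y
    refine h3.of_dvd ?_ h2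
    exact (Polynomial.monic_X_pow_sub_C _ (ha j).ne').ne_zero
  obtain ⟨ψ⟩ := IntermediateField.nonempty_algHom_of_adjoin_splits hK hS
  exact ⟨ψ.restrictScalars ℂ, fun p => by
    rw [← hφ]
    exact ψ.commutes p⟩

end

end Pool.Agent.Work.MP_4329d7_ag.FF
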