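import Mathlib
import Pool.Agent.Work.MP_4329d7_ag.FF.Setup
import Pool.Agent.Work.MP_4329d7_ag.FF.Kummer
import Pool.Agent.Work.MP_4329d7_ag.FF.Gform

/-!
HomComp: the components of the elements of `K`.
-/

open MvPolynomial

namespace Pool.Agent.Work.MP_4329d7_ag.FF

variable {κ : Type} [Fintype κ] [DecidableEq κ]

omit [Fintype κ] [DecidableEq κ] in
theorem HomComp_pow {p : P κ} {d : ℤ} (hp : IsHomP p d) (n : ℕ) : IsHomP (p ^ n) (n * d) := by
  induction n with
  | zero => simpa using IsHomP.one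
  | succ n ih =>
    rw [pow_succ]
    have := ih.mul hp
    push_cast
    have h2 : ((n : ℤ) + 1) * d = n * d + d := by ring
    rw [h2]
    exact this

omit [Fintype κ] [DecidableEq κ] in
theorem HomComp_zpow [Nonempty κ] {p : P κ} {d : ℤ} (hp : IsHomP p d) (n : ℤ) :
    IsHomP (p ^ n) (n * d) := by
  cases n with
  | ofNat n => simpa using HomComp_pow hp n
  | negSucc n =>
    rw [zpow_negSucc]
    have := (HomComp_pow hp (n + 1)).inv
    have h2 : Int.negSucc n * d = -(((n + 1 : ℕ) : ℤ) * d) := by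
      rw [Int.negSucc_eq]; push_cast; ring
    rw [h2]
    exact this

omit [DecidableEq κ] in
/-- Product of the `u_j`. -/
theorem HomComp_prod_pu [Nonempty κ] (t : Option κ → ℤ) :
    IsHomP (∏ j, (pu j : P κ) ^ t j) (∑ j, t j) := by
  apply IsHomP.prod
  intro j _
  have := HomComp_zpow (IsHomP.pu (κ := κ) j) (t j)
  rwa [mul_one] at this

section

variable (B : BP (Option κ)) (hcard : 2 ≤ Fintype.card κ) (ha : ∀ j, 0 < B.a j)
    {F : Type} [Field F] [Algebra ℂ F] [Algebra (P κ) F] [IsScalarTower ℂ (P κ) F]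
    (D : Kum κ B.a F)

/-- The condition on the components. -/
def HomComp_cond (f : F) : Prop :=
  ∀ α : ∀ j, Fin (B.a j), (D.b hcard ha).repr f α ≠ 0 →
    (B.N : ℤ) ∣ ∑ j, ((α j : ℕ) : ℤ) * B.h j ∧
    ∃ A0 : ℕ, ∑ j, ((α j : ℕ) : ℚ) / B.a j = A0 ∧
      IsHomP ((D.b hcard ha).repr f α) (-(A0 : ℤ))

include hcard in
theorem HomComp_pu_ne (j : Option κ) : (pu j : P κ) ≠ 0 := by
  classical
  intro h
  have h1 : (u j : A κ) = 0 := by
    apply IsFractionRing.injective (A κ) (P κ)
    rw [map_zero]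
    exact h
  exact (u_prime hcard j).ne_zero h1

include hcard ha in
theorem HomComp_x_ne (j : Option κ) : D.x j ≠ 0 := by
  intro h
  have h1 := D.pow j
  rw [h, zero_pow (ha j).ne'] at h1
  have h2 : (pu j : P κ) = 0 := by
    apply (algebraMap (P κ) F).injective
    rw [map_zero, h1]
  exact HomComp_pu_ne hcard j h2

/-- The reduced exponents. -/
def HomComp_red (a : Option κ → ℕ) (ha : ∀ j, 0 < a j) (β : Option κ → ℤ) : ∀ j, Fin (a j) :=
  fun j => ⟨(β j % a j).toNat, by
    have h1 := Int.emod_nonneg (β j) (b := (a j : ℤ)) (by have := ha j; omega)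
    have h2 := Int.emod_lt_of_pos (β j) (b := (a j : ℤ)) (by have := ha j; omega)
    omega⟩

theorem HomComp_red_val (a : Option κ → ℕ) (ha : ∀ j, 0 < a j) (β : Option κ → ℤ)
    (j : Option κ) : (((HomComp_red a ha β j : Fin (a j)) : ℕ) : ℤ) = β j % a j := by
  have h1 := Int.emod_nonneg (β j) (b := (a j : ℤ)) (by have := ha j; omega)
  simp only [HomComp_red]
  omega

include hcard in
theorem HomComp_reduce (β : Option κ → ℤ) :
    ∏ j, D.x j ^ β j =
      algebraMap (P κ) F (∏ j, (pu j : P κ) ^ (β j / B.a j)) *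
        D.mon (HomComp_red B.a ha β) := by
  unfold Kum.mon
  rw [map_prod, ← Finset.prod_mul_distrib]
  apply Finset.prod_congr rfl
  intro j _
  have hx := HomComp_x_ne B hcard ha D j
  rw [map_zpow₀, ← D.pow j, ← zpow_natCast (D.x j) (B.a j), ← zpow_mul,
    ← zpow_natCast (D.x j) ((HomComp_red B.a ha β j : Fin (B.a j)) : ℕ),
    HomComp_red_val, ← zpow_add₀ hx]
  congr 1
  have := Int.mul_ediv_add_emod (β j) (B.a j)
  omega

theorem HomComp_add {f g : F} (hf : HomComp_cond B hcard ha D f)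
    (hg : HomComp_cond B hcard ha D g) : HomComp_cond B hcard ha D (f + g) := by
  intro α hα
  have hsum : (D.b hcard ha).repr (f + g) α =
      (D.b hcard ha).repr f α + (D.b hcard ha).repr g α := by
    rw [map_add]; rfl
  rw [hsum] at hα ⊢
  by_cases h1 : (D.b hcard ha).repr f α = 0
  · rw [h1, zero_add] at hα ⊢
    exact hg α hα
  by_cases h2 : (D.b hcard ha).repr g α = 0
  · rw [h2, add_zero] at hα ⊢
    exact hf α hα
  obtain ⟨hN, A0, hA, hH⟩ := hf α h1
  obtain ⟨-, A0', hA', hH'⟩ := hg α h2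
  have : A0 = A0' := by
    rw [hA] at hA'
    exact_mod_cast hA'
  subst this
  exact ⟨hN, A0, hA, hH.add hH'⟩

theorem HomComp_zero : HomComp_cond B hcard ha D (0 : F) := by
  intro α hα
  simp at hα

theorem HomComp_sum {ι : Type*} (s : Finset ι) (g : ι → F)
    (h : ∀ i ∈ s, HomComp_cond B hcard ha D (g i)) :
    HomComp_cond B hcard ha D (∑ i ∈ s, g i) := by
  classical
  induction s using Finset.induction_on with
  | empty => simpa using HomComp_zero B hcard ha D
  | insert i s hi ih =>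
    rw [Finset.sum_insert hi]
    exact HomComp_add B hcard ha D (h i (Finset.mem_insert_self _ _))
      (ih fun j hj => h j (Finset.mem_insert_of_mem hj))

/-- The basic elements. -/
theorem HomComp_term (β : Option κ → ℤ) (c : P κ) (d : ℤ) (hc : IsHomP c d)
    (hsum : ∑ j, (β j : ℚ) / B.a j = -(d : ℚ)) (hN : (B.N : ℤ) ∣ ∑ j, β j * B.h j) :
    HomComp_cond B hcard ha D (algebraMap (P κ) F c * ∏ j, D.x j ^ β j) := by
  have : Nonempty κ := by
    rw [← Fintype.card_pos_iff]; omega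
  set γ := HomComp_red B.a ha β with hγ
  set p : P κ := c * ∏ j, (pu j : P κ) ^ (β j / B.a j) with hp
  have hel : algebraMap (P κ) F c * ∏ j, D.x j ^ β j = p • D.b hcard ha γ := by
    rw [HomComp_reduce B hcard ha D β, D.b_apply, Algebra.smul_def, hp, map_mul, mul_assoc]
  intro α hα
  rw [hel] at hα ⊢
  have hrepr : (D.b hcard ha).repr (p • D.b hcard ha γ) α = if γ = α then p else 0 := by
    rw [map_smul, Module.Basis.repr_self, Finsupp.smul_single, smul_eq_mul, mul_one,
      Finsupp.single_apply]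
  rw [hrepr] at hα ⊢
  by_cases h : γ = α
  swap
  · rw [if_neg h] at hα
    exact absurd rfl hα
  subst h
  rw [if_pos rfl] at hα ⊢
  have hval : ∀ j, (((γ j : Fin (B.a j)) : ℕ) : ℤ) = β j % B.a j := HomComp_red_val B.a ha β
  have hval2 : ∀ j, (((γ j : Fin (B.a j)) : ℕ) : ℤ) = β j - B.a j * (β j / B.a j) := by
    intro j
    rw [hval j]
    have := Int.mul_ediv_add_emod (β j) (B.a j)
    omega
  refine ⟨?_, ?_⟩
  · have : ∑ j, (((γ j : Fin (B.a j)) : ℕ) : ℤ) * B.h j =
        ∑ j, β j * B.h j - ∑ j, (β j / B.a j) * (B.a j * B.h j) := by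
      rw [← Finset.sum_sub_distrib]
      apply Finset.sum_congr rfl
      intro j _
      rw [hval2 j]
      ring
    rw [this]
    apply dvd_sub hN
    apply Finset.dvd_sum
    intro j _
    exact Dvd.dvd.mul_left (B.dvd j) _
  · have hs : ∑ j, (((γ j : Fin (B.a j)) : ℕ) : ℚ) / B.a j =
        ((-(d + ∑ j, β j / (B.a j : ℤ)) : ℤ) : ℚ) := by
      have h1 : ∀ j, (((γ j : Fin (B.a j)) : ℕ) : ℚ) / B.a j =
          (β j : ℚ) / B.a j - ((β j / (B.a j : ℤ) : ℤ) : ℚ) := by
        intro j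
        have h2 : ((((γ j : Fin (B.a j)) : ℕ) : ℤ) : ℚ) =
            ((β j - B.a j * (β j / B.a j) : ℤ) : ℚ) := by rw [hval2 j]
        have h3 : (B.a j : ℚ) ≠ 0 := by
          have := ha j
          positivity
        have h4 : (((γ j : Fin (B.a j)) : ℕ) : ℚ) =
            (β j : ℚ) - B.a j * ((β j / (B.a j : ℤ) : ℤ) : ℚ) := by
          have h5 : ((((γ j : Fin (B.a j)) : ℕ) : ℤ) : ℚ) = (((γ j : Fin (B.a j)) : ℕ) : ℚ) := by
            norm_cast
          rw [← h5, h2]
          push_cast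
          ring
        rw [h4]
        field_simp
      rw [Finset.sum_congr rfl fun j _ => h1 j, Finset.sum_sub_distrib, hsum]
      push_cast
      ring
    have hnn : 0 ≤ ∑ j, (((γ j : Fin (B.a j)) : ℕ) : ℚ) / B.a j :=
      Finset.sum_nonneg fun j _ => by positivity
    have hnn' : 0 ≤ (-(d + ∑ j, β j / (B.a j : ℤ)) : ℤ) := by
      rw [hs] at hnn
      exact_mod_cast hnn
    refine ⟨(-(d + ∑ j, β j / (B.a j : ℤ))).toNat, ?_, ?_⟩
    · rw [hs]
      have : ((-(d + ∑ j, β j / (B.a j : ℤ)) : ℤ) : ℚ) =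
          (((-(d + ∑ j, β j / (B.a j : ℤ))).toNat : ℤ) : ℚ) := by
        rw [Int.toNat_of_nonneg hnn']
      rw [this]
      norm_cast
    · rw [Int.toNat_of_nonneg hnn', neg_neg]
      exact hc.mul (HomComp_prod_pu _)

/-- Expansion in the basis. -/
theorem HomComp_expand (f : F) :
    f = ∑ α, algebraMap (P κ) F ((D.b hcard ha).repr f α) *
      ∏ j, D.x j ^ (((α j : Fin (B.a j)) : ℕ) : ℤ) := by
  conv_lhs => rw [← (D.b hcard ha).sum_repr f]
  apply Finset.sum_congr rfl
  intro α _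
  rw [D.b_apply, Algebra.smul_def, Kum.mon]
  congr 1
  apply Finset.prod_congr rfl
  intro j _
  rw [zpow_natCast]

theorem HomComp_mul {f g : F} (hf : HomComp_cond B hcard ha D f)
    (hg : HomComp_cond B hcard ha D g) : HomComp_cond B hcard ha D (f * g) := by
  rw [HomComp_expand B hcard ha D f, HomComp_expand B hcard ha D g, Finset.sum_mul_sum]
  apply HomComp_sum
  intro α _
  apply HomComp_sum
  intro β _
  by_cases h1 : (D.b hcard ha).repr f α = 0
  · rw [h1, map_zero, zero_mul, zero_mul]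
    exact HomComp_zero B hcard ha D
  by_cases h2 : (D.b hcard ha).repr g β = 0
  · rw [h2, map_zero, zero_mul, mul_zero]
    exact HomComp_zero B hcard ha D
  obtain ⟨hN, A0, hA, hH⟩ := hf α h1
  obtain ⟨hN', A0', hA', hH'⟩ := hg β h2
  have hx := HomComp_x_ne B hcard ha D
  have h3 : (algebraMap (P κ) F ((D.b hcard ha).repr f α) *
      ∏ j, D.x j ^ (((α j : Fin (B.a j)) : ℕ) : ℤ)) *
      (algebraMap (P κ) F ((D.b hcard ha).repr g β) *
      ∏ j, D.x j ^ (((β j : Fin (B.a j)) : ℕ) : ℤ)) =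
      algebraMap (P κ) F ((D.b hcard ha).repr f α * (D.b hcard ha).repr g β) *
      ∏ j, D.x j ^ ((((α j : Fin (B.a j)) : ℕ) : ℤ) + (((β j : Fin (B.a j)) : ℕ) : ℤ)) := by
    rw [map_mul]
    have : ∏ j, D.x j ^ ((((α j : Fin (B.a j)) : ℕ) : ℤ) + (((β j : Fin (B.a j)) : ℕ) : ℤ)) =
        (∏ j, D.x j ^ (((α j : Fin (B.a j)) : ℕ) : ℤ)) *
        ∏ j, D.x j ^ (((β j : Fin (B.a j)) : ℕ) : ℤ) := by
      rw [← Finset.prod_mul_distrib]
      exact Finset.prod_congr rfl fun j _ => zpow_add₀ (hx j) _ _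
    rw [this]
    ring
  rw [h3]
  apply HomComp_term B hcard ha D _ _ _ (hH.mul hH')
  · push_cast
    have : ∑ j, ((((α j : Fin (B.a j)) : ℕ) : ℚ) + (((β j : Fin (B.a j)) : ℕ) : ℚ)) / B.a j =
        ∑ j, (((α j : Fin (B.a j)) : ℕ) : ℚ) / B.a j +
        ∑ j, (((β j : Fin (B.a j)) : ℕ) : ℚ) / B.a j := by
      rw [← Finset.sum_add_distrib]
      exact Finset.sum_congr rfl fun j _ => add_div _ _ _
    rw [this, hA, hA']
    ring
  · have : ∑ j, ((((α j : Fin (B.a j)) : ℕ) : ℤ) + (((β j : Fin (B.a j)) : ℕ) : ℤ)) * B.h j =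
        ∑ j, (((α j : Fin (B.a j)) : ℕ) : ℤ) * B.h j +
        ∑ j, (((β j : Fin (B.a j)) : ℕ) : ℤ) * B.h j := by
      rw [← Finset.sum_add_distrib]
      exact Finset.sum_congr rfl fun j _ => add_mul _ _ _
    rw [this]
    exact dvd_add hN hN'

theorem HomComp_algebraMap {c : P κ} (hc : IsHomP c 0) :
    HomComp_cond B hcard ha D (algebraMap (P κ) F c) := by
  have := HomComp_term B hcard ha D (fun _ => 0) c 0 hc (by simp) (by simp)
  simpa using this

/-- The subfield of homogeneous elements of degree `0`. -/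
def HomComp_P0 (κ : Type) [Nonempty κ] : Subfield (P κ) where
  carrier := {p | IsHomP p 0}
  mul_mem' ha hb := by
    have := IsHomP.mul ha hb
    rwa [add_zero] at this
  one_mem' := IsHomP.one
  add_mem' ha hb := IsHomP.add ha hb
  zero_mem' := IsHomP.zero 0
  neg_mem' ha := IsHomP.neg ha
  inv_mem' _ ha := by
    have := IsHomP.inv ha
    rwa [neg_zero] at this

theorem HomComp_inv {f : F} (hf : HomComp_cond B hcard ha D f) :
    HomComp_cond B hcard ha D f⁻¹ := by
  have : Nonempty κ := by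
    rw [← Fintype.card_pos_iff]; omega
  let algF : Algebra (HomComp_P0 κ) F :=
    ((algebraMap (P κ) F).comp (HomComp_P0 κ).subtype).toAlgebra
  let S : Subalgebra (HomComp_P0 κ) F :=
    { carrier := {g | HomComp_cond B hcard ha D g}
      mul_mem' := fun ha hb => HomComp_mul B hcard _ D ha hb
      one_mem' := by
        have := HomComp_algebraMap B hcard ha D (c := 1) IsHomP.one
        rwa [map_one] at this
      add_mem' := fun ha hb => HomComp_add B hcard _ D ha hb
      zero_mem' := HomComp_zero B hcard ha D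
      algebraMap_mem' := fun r => HomComp_algebraMap B hcard ha D r.2 }
  have hint : IsIntegral (HomComp_P0 κ) f := by
    rw [HomComp_expand B hcard ha D f]
    apply IsIntegral.sum
    intro α _
    by_cases h1 : (D.b hcard ha).repr f α = 0
    · rw [h1, map_zero, zero_mul]
      exact isIntegral_zero
    obtain ⟨-, A0, hA, hH⟩ := hf α h1
    set M := ∏ j, B.a j with hM
    have hMpos : 0 < M := Finset.prod_pos fun j _ => ha j
    have hdiv : ∀ j, B.a j * (M / B.a j) = M := fun j =>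
      Nat.mul_div_cancel' (Finset.dvd_prod_of_mem _ (Finset.mem_univ j))
    have hpow : (algebraMap (P κ) F ((D.b hcard ha).repr f α) *
        ∏ j, D.x j ^ (((α j : Fin (B.a j)) : ℕ) : ℤ)) ^ M =
        algebraMap (P κ) F (((D.b hcard ha).repr f α) ^ M *
          ∏ j, (pu j : P κ) ^ ((((α j : Fin (B.a j)) : ℕ) : ℤ) * ((M / B.a j : ℕ) : ℤ))) := by
      rw [mul_pow, map_mul, map_pow, map_prod, ← Finset.prod_pow]
      congr 1
      apply Finset.prod_congr rfl
      intro j _
      rw [map_zpow₀, ← D.pow j, ← zpow_natCast (D.x j) (B.a j), ← zpow_mul,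
        ← zpow_natCast _ M, ← zpow_mul]
      congr 1
      have h2 : ((B.a j : ℕ) : ℤ) * ((M / B.a j : ℕ) : ℤ) = (M : ℤ) := by
        exact_mod_cast hdiv j
      rw [← h2]
      ring
    have hdeg : IsHomP (((D.b hcard ha).repr f α) ^ M *
          ∏ j, (pu j : P κ) ^ ((((α j : Fin (B.a j)) : ℕ) : ℤ) * ((M / B.a j : ℕ) : ℤ))) 0 := by
      have h3 := (HomComp_pow hH M).mul (HomComp_prod_pu (κ := κ)
        (fun j => (((α j : Fin (B.a j)) : ℕ) : ℤ) * ((M / B.a j : ℕ) : ℤ)))
      have h4 : (M : ℤ) * -(A0 : ℤ) + ∑ j, (((α j : Fin (B.a j)) : ℕ) : ℤ) *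
          ((M / B.a j : ℕ) : ℤ) = 0 := by
        have h5 : (M : ℚ) * (A0 : ℚ) = ∑ j, (((α j : Fin (B.a j)) : ℕ) : ℚ) *
          ((M / B.a j : ℕ) : ℚ) := by
          rw [← hA, Finset.mul_sum]
          apply Finset.sum_congr rfl
          intro j _
          have h6 : ((B.a j : ℕ) : ℚ) * ((M / B.a j : ℕ) : ℚ) = (M : ℚ) := by
            exact_mod_cast hdiv j
          have h7 : (B.a j : ℚ) ≠ 0 := by
            have := ha j
            positivity
          rw [← h6]
          field_simp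
        have h8 : (M : ℤ) * (A0 : ℤ) = ∑ j, (((α j : Fin (B.a j)) : ℕ) : ℤ) *
          ((M / B.a j : ℕ) : ℤ) := by
          exact_mod_cast h5
        rw [← h8]
        ring
      rw [h4] at h3
      exact h3
    apply IsIntegral.of_pow hMpos
    rw [hpow]
    exact isIntegral_algebraMap (R := HomComp_P0 κ) (A := F) (x := ⟨_, hdeg⟩)
  have hfS : f ∈ S := hf
  have := S.inv_mem_of_algebraic (x := ⟨f, hfS⟩) hint.isAlgebraic
  exact this

end

/-- HINT. Let `P0 ⊆ F` be the field generated over `ℂ` by the `pu j / pu none`; every element of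
`P0` is (the image of) some `p` with `IsHomP p 0` (such `p` form a subfield of `P κ`). The
`P0`-span `S` of the admissible monomials `∏ x_j ^ β_j` is a ring (`Adm` is closed under
addition) and algebraic over `P0` (a power of `x^β` is a product of `pu j / pu none`), so it is a
field (`Subalgebra.isField_of_algebraic`), and `B.K D ⊆ S`. For `f = ∑ p_r x^{β_r}`: write
`β_j = α_j + a_j t_j`, `0 ≤ α_j < a_j`: `x^β = x^α ∏ u_j^{t_j}`, whose only component is
`∏ u_j^{t_j}` at `α`, homogeneous of degree `∑ t_j = ∑ (β_j - α_j)/a_j = -∑ α_j/a_j`; and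
`∑ α_j h_j ≡ ∑ β_j h_j ≡ 0 (mod N)` since `N ∣ a_j h_j`. -/
theorem comp_hom (B : BP (Option κ)) (hcard : 2 ≤ Fintype.card κ) (ha : ∀ j, 0 < B.a j)
    {F : Type} [Field F] [Algebra ℂ F] [Algebra (P κ) F] [IsScalarTower ℂ (P κ) F]
    (D : Kum κ B.a F) (f : B.K D) (α : ∀ j, Fin (B.a j))
    (h : (D.b hcard ha).repr (f : F) α ≠ 0) :
    (B.N : ℤ) ∣ ∑ j, ((α j : ℕ) : ℤ) * B.h j ∧
    ∃ A0 : ℕ, ∑ j, ((α j : ℕ) : ℚ) / B.a j = A0 ∧
      IsHomP ((D.b hcard ha).repr (f : F) α) (-(A0 : ℤ)) := by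
  have key : ∀ f ∈ B.K D, HomComp_cond B hcard ha D f := by
    intro f hf
    unfold BP.K at hf
    induction hf using IntermediateField.adjoin_induction with
    | mem x hx =>
      obtain ⟨β, hβ, rfl⟩ := hx
      have := HomComp_term B hcard ha D β 1 0 IsHomP.one (by rw [hβ.1]; simp) hβ.2
      rwa [map_one, one_mul] at this
    | algebraMap c =>
      have hc : IsHomP (algebraMap ℂ (P κ) c) 0 := by
        refine ⟨C c, 1, 0, 0, isHomogeneous_C _ _, isHomogeneous_one _ _, one_ne_zero, ?_, by simp⟩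
        rw [map_one, mul_one]
        rfl
      have := HomComp_algebraMap B hcard ha D hc
      rwa [← IsScalarTower.algebraMap_apply] at this
    | add x y _ _ hx hy => exact HomComp_add B hcard ha D hx hy
    | inv x _ hx => exact HomComp_inv B hcard ha D hx
    | mul x y _ _ hx hy => exact HomComp_mul B hcard ha D hx hy
  exact key _ f.2 α h

end Pool.Agent.Work.MP_4329d7_ag.FF
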