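import Mathlib
import Pool.Agent.Work.MP_4329d7_ag.FF.Setup
import Pool.Agent.Work.MP_4329d7_ag.Ext

/-!
KField: the field `K`: ratios, finite generation, transcendence degree, frame.
-/

open MvPolynomial
open scoped WithZero

namespace Pool.Agent.Work.MP_4329d7_ag.FF

variable {κ : Type} [Fintype κ] [DecidableEq κ]

section

variable (B : BP (Option κ)) {F : Type} [Field F] [Algebra ℂ F] [Algebra (P κ) F]
  [IsScalarTower ℂ (P κ) F] (D : Kum κ B.a F)

/-- `u_j ≠ 0` if `κ` is nonempty. -/
theorem pu_ne_zero [Nonempty κ] (j : Option κ) : (pu j : P κ) ≠ 0 := by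
  have hu : (u j : A κ) ≠ 0 := by
    cases j with
    | some k => exact X_ne_zero k
    | none =>
      obtain ⟨k0⟩ := ‹Nonempty κ›
      intro h
      have h1 : (∑ k, (X k : A κ)) = 0 := by
        have : -∑ k, (X k : A κ) = 0 := h
        exact neg_eq_zero.1 this
      have h2 := congrArg (MvPolynomial.eval (fun l : κ => if l = k0 then (1 : ℂ) else 0)) h1
      simp [map_sum] at h2
  unfold pu
  intro h
  exact hu ((IsFractionRing.injective (A κ) (P κ)) (by rw [h, map_zero]))

/-- `x_j ≠ 0`. -/
theorem x_ne_zero [Nonempty κ] (j : Option κ) : D.x j ≠ 0 := by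
  intro h
  have h1 := D.pow j
  rw [h, zero_pow (by have := B.two_le j; omega)] at h1
  exact pu_ne_zero j ((algebraMap (P κ) F).injective (by rw [← h1, map_zero]))

/-- Admissible monomials lie in `K`. -/
theorem mon_mem (β : Option κ → ℤ) (hβ : B.Adm β) : ∏ j, D.x j ^ β j ∈ B.K D :=
  IntermediateField.subset_adjoin ℂ _ ⟨β, hβ, rfl⟩

/-- The exponent vector of `u_j / u_none`. -/
def rvec (j : Option κ) : Option κ → ℤ := fun l =>
  (if l = j then (B.a l : ℤ) else 0) - (if l = none then (B.a l : ℤ) else 0)

theorem rvec_adm (j : Option κ) : B.Adm (rvec B j) := by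
  have ha : ∀ l, (B.a l : ℚ) ≠ 0 := fun l => by
    have := B.two_le l
    positivity
  constructor
  · have h : ∀ l, ((rvec B j l : ℤ) : ℚ) / B.a l =
        (if l = j then (1 : ℚ) else 0) - (if l = none then (1 : ℚ) else 0) := by
      intro l
      unfold rvec
      push_cast
      rw [sub_div]
      congr 1
      · split_ifs
        · exact div_self (ha l)
        · simp
      · split_ifs
        · exact div_self (ha l)
        · simp
    rw [Finset.sum_congr rfl fun l _ => h l, Finset.sum_sub_distrib]
    simp
  · have h : ∀ l, rvec B j l * B.h l =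
        (if l = j then (B.a l : ℤ) * B.h l else 0) - (if l = none then (B.a l : ℤ) * B.h l else 0) := by
      intro l
      unfold rvec
      rw [sub_mul]
      congr 1
      · split_ifs <;> simp
      · split_ifs <;> simp
    rw [Finset.sum_congr rfl fun l _ => h l, Finset.sum_sub_distrib]
    simp only [Finset.sum_ite_eq', Finset.mem_univ, if_true]
    exact dvd_sub (B.dvd j) (B.dvd none)

theorem rvec_prod [Nonempty κ] (j : Option κ) :
    algebraMap (P κ) F (pu j / pu none) = ∏ l, D.x l ^ rvec B j l := by
  have hx : ∀ l, D.x l ≠ 0 := x_ne_zero B D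
  have h : ∀ l, D.x l ^ rvec B j l =
      (if l = j then D.x l ^ (B.a l : ℤ) else 1) * (if l = none then D.x l ^ (B.a l : ℤ) else 1)⁻¹ := by
    intro l
    unfold rvec
    rw [zpow_sub₀ (hx l), div_eq_mul_inv]
    congr 1
    · split_ifs <;> simp
    · split_ifs <;> simp
  rw [Finset.prod_congr rfl fun l _ => h l, Finset.prod_mul_distrib]
  rw [Finset.prod_inv_distrib, Finset.prod_ite_eq', Finset.prod_ite_eq']
  simp only [Finset.mem_univ, if_true, zpow_natCast]
  rw [D.pow j, D.pow none, map_div₀, div_eq_mul_inv]

/-- The ratios `u_j / u_none` lie in `K`: the exponent vector `a_j δ_j - a_none δ_none` is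
admissible. -/
theorem ratio_mem [Nonempty κ] (j : Option κ) :
    algebraMap (P κ) F (pu j / pu none) ∈ B.K D := by
  rw [rvec_prod B D j]
  exact mon_mem B D _ (rvec_adm B j)

/-- The ratios as elements of `K`. -/
noncomputable def zK [Nonempty κ] (j : Option κ) : B.K D := ⟨_, ratio_mem B D j⟩

/-- HINT: the admissible vectors form a subgroup of `ℤ^(Option κ)`, which is finitely generated
(`AddSubgroup`/`Submodule ℤ` of a Noetherian module); the monomials of a generating set generate
`K`. Transfer to `⊤ : IntermediateField ℂ (B.K D)` (e.g. `IntermediateField.FG` and `fg_top_iff`, or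
essFiniteType). -/
theorem K_fg [Nonempty κ] : (⊤ : IntermediateField ℂ (B.K D)).FG := by
  classical
  rw [IntermediateField.fg_top_iff, IntermediateField.essFiniteType_iff]
  have hx : ∀ l, D.x l ≠ 0 := x_ne_zero B D
  let H : AddSubgroup (Option κ → ℤ) :=
    { carrier := {β | B.Adm β}
      zero_mem' := by
        refine ⟨?_, ?_⟩ <;> simp
      add_mem' := by
        intro x y hx hy
        refine ⟨?_, ?_⟩
        · have : ∀ j, (((x + y) j : ℤ) : ℚ) / B.a j = (x j : ℚ) / B.a j + (y j : ℚ) / B.a j := by
            intro j; simp [add_div]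
          rw [Finset.sum_congr rfl fun j _ => this j, Finset.sum_add_distrib, hx.1, hy.1, add_zero]
        · have : ∀ j, (x + y) j * B.h j = x j * B.h j + y j * B.h j := by
            intro j; simp [add_mul]
          rw [Finset.sum_congr rfl fun j _ => this j, Finset.sum_add_distrib]
          exact dvd_add hx.2 hy.2
      neg_mem' := by
        intro x hx
        refine ⟨?_, ?_⟩
        · have : ∀ j, (((-x) j : ℤ) : ℚ) / B.a j = -((x j : ℚ) / B.a j) := by
            intro j; simp [neg_div]
          rw [Finset.sum_congr rfl fun j _ => this j, Finset.sum_neg_distrib, hx.1, neg_zero]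
        · have : ∀ j, (-x) j * B.h j = -(x j * B.h j) := by
            intro j; simp
          rw [Finset.sum_congr rfl fun j _ => this j, Finset.sum_neg_distrib]
          exact (dvd_neg).2 hx.2 }
  have hfg : (AddSubgroup.toIntSubmodule H).FG := IsNoetherian.noetherian _
  obtain ⟨S, hS⟩ := hfg
  let m : (Option κ → ℤ) → F := fun β => ∏ j, D.x j ^ β j
  refine ⟨S.image m, ?_⟩
  apply le_antisymm
  · apply IntermediateField.adjoin_le_iff.2
    intro y hy
    simp only [Finset.coe_image, Set.mem_image, Finset.mem_coe] at hy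
    obtain ⟨β, hβ, rfl⟩ := hy
    have : β ∈ AddSubgroup.toIntSubmodule H := by
      rw [← hS]; exact Submodule.subset_span hβ
    exact mon_mem B D β this
  · apply IntermediateField.adjoin_le_iff.2
    rintro y ⟨β, hβ, rfl⟩
    have hβ' : β ∈ Submodule.span ℤ (S : Set (Option κ → ℤ)) := by
      rw [hS]; exact hβ
    have key : ∀ β, β ∈ Submodule.span ℤ (S : Set (Option κ → ℤ)) →
        m β ∈ IntermediateField.adjoin ℂ ((S.image m : Finset F) : Set F) := by
      intro β hβ
      induction hβ using Submodule.span_induction with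
      | mem x h => exact IntermediateField.subset_adjoin ℂ _ (by
          simp only [Finset.coe_image, Set.mem_image, Finset.mem_coe]; exact ⟨x, h, rfl⟩)
      | zero => simp [m]
      | add x y _ _ hx' hy' =>
        have : m (x + y) = m x * m y := by
          simp only [m, Pi.add_apply]
          rw [← Finset.prod_mul_distrib]
          exact Finset.prod_congr rfl fun j _ => zpow_add₀ (hx j) _ _
        rw [this]; exact mul_mem hx' hy'
      | smul a x _ hx' =>
        have : m (a • x) = m x ^ a := by
          simp only [m, Pi.smul_apply, smul_eq_mul]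
          rw [← Finset.prod_zpow]
          exact Finset.prod_congr rfl fun j _ => by rw [mul_comm, zpow_mul]
        rw [this]; exact zpow_mem hx' a
    exact key β hβ'

/-- The `u_i / u_none`, `i ≠ l0`, are algebraically independent.
HINT: for instance: `f(z) = 0`; clear denominators: a homogeneous polynomial relation between the
`card κ` linear forms `u_none`, `u_i` (`i ≠ l0`), which are the images of the variables under a
linear automorphism of `A κ`. Or: induct on the degree with the derivations
`u_none • (∂_i - ∂_{l0})` of `P κ`, dual to the `z_i` (a polynomial relation of minimal degree has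
zero partial derivatives). -/
theorem zK_indep [Nonempty κ] (l0 : κ) :
    AlgebraicIndependent ℂ (fun i : {k : κ // k ≠ l0} => zK B D (some (i : κ))) := by
  let w : κ → P κ := fun i => if i = l0 then pu none else pu (some i) / pu none
  have hn : (pu none : P κ) ≠ 0 := pu_ne_zero none
  have hXi : ∀ i, algebraMap (A κ) (P κ) (X i) ∈ Algebra.adjoin ℂ (Set.range w) := by
    have hnone : (pu none : P κ) ∈ Algebra.adjoin ℂ (Set.range w) :=
      Algebra.subset_adjoin ⟨l0, by simp [w]⟩
    have h1 : ∀ i, i ≠ l0 → algebraMap (A κ) (P κ) (X i) ∈ Algebra.adjoin ℂ (Set.range w) := by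
      intro i hi
      have h2 : w i ∈ Algebra.adjoin ℂ (Set.range w) := Algebra.subset_adjoin ⟨i, rfl⟩
      have h3 : algebraMap (A κ) (P κ) (X i) = w i * pu none := by
        simp only [w, if_neg hi]
        rw [div_mul_cancel₀ _ hn]
        rfl
      rw [h3]; exact mul_mem h2 hnone
    intro i
    by_cases hi : i = l0
    · subst hi
      have h4 : algebraMap (A κ) (P κ) (X i) =
          -pu none - ∑ k ∈ Finset.univ.erase i, algebraMap (A κ) (P κ) (X k) := by
        have h5 : (pu none : P κ) = -∑ k, algebraMap (A κ) (P κ) (X k) := by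
          simp only [pu, u, map_neg, map_sum]
        rw [h5, ← Finset.add_sum_erase _ _ (Finset.mem_univ i)]
        ring
      rw [h4]
      exact sub_mem (neg_mem hnone) (sum_mem fun k hk => h1 k (Finset.ne_of_mem_erase hk))
    · exact h1 i hi
  have hA : ∀ f : A κ, algebraMap (A κ) (P κ) f ∈ Algebra.adjoin ℂ (Set.range w) := by
    intro f
    induction f using MvPolynomial.induction_on with
    | C a =>
      have : algebraMap (A κ) (P κ) (C a) = algebraMap ℂ (P κ) a := by
        rw [← MvPolynomial.algebraMap_eq, ← IsScalarTower.algebraMap_apply]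
      rw [this]; exact Subalgebra.algebraMap_mem _ a
    | add p q hp hq => rw [map_add]; exact add_mem hp hq
    | mul_X p n hp => rw [map_mul]; exact mul_mem hp (hXi n)
  have hal : Algebra.IsAlgebraic (Algebra.adjoin ℂ (Set.range w)) (P κ) := by
    refine ⟨fun p => ?_⟩
    obtain ⟨a, b, hb, rfl⟩ := IsFractionRing.div_surjective (A := A κ) p
    rw [div_eq_mul_inv]
    have ha : IsAlgebraic (Algebra.adjoin ℂ (Set.range w)) (algebraMap (A κ) (P κ) a) :=
      isAlgebraic_algebraMap (⟨_, hA a⟩ : Algebra.adjoin ℂ (Set.range w))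
    have hb : IsAlgebraic (Algebra.adjoin ℂ (Set.range w)) (algebraMap (A κ) (P κ) b) :=
      isAlgebraic_algebraMap (⟨_, hA b⟩ : Algebra.adjoin ℂ (Set.range w))
    exact ha.mul hb.inv
  have htr : Cardinal.mk κ ≤ Algebra.trdeg ℂ (P κ) := by
    have h := (MvPolynomial.algebraicIndependent_X κ ℂ).map'
      (f := IsScalarTower.toAlgHom ℂ (A κ) (P κ)) (IsFractionRing.injective (A κ) (P κ))
    exact h.cardinalMk_le_trdeg
  have hw : AlgebraicIndependent ℂ w := (Algebra.IsAlgebraic.isTranscendenceBasis_of_le_trdeg_of_finite ℂ w htr).1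
  have hw2 := hw.comp (fun i : {k : κ // k ≠ l0} => (i : κ)) Subtype.val_injective
  have hw3 := hw2.map' (f := IsScalarTower.toAlgHom ℂ (P κ) F) (algebraMap (P κ) F).injective
  apply AlgebraicIndependent.of_comp (B.K D).val
  convert hw3 using 1
  funext i
  simp [Function.comp_def, zK, w, i.2]

/-- HINT: a generator `y = x^β` of `K` satisfies `y ^ M = ∏ (u_j/u_none)^(β_j M / a_j)`, `M = ∏ a_j`
(as `∑ β_j / a_j = 0`), and `u_{l0}/u_none = -1 - ∑_{i ≠ l0} z_i`. So `K` is algebraic over
`ℂ(z)`. (`IntermediateField.isAlgebraic_adjoin`.) -/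
theorem zK_alg [Nonempty κ] (l0 : κ) :
    Algebra.IsAlgebraic (IntermediateField.adjoin ℂ
      (Set.range (fun i : {k : κ // k ≠ l0} => zK B D (some (i : κ))))) (B.K D) := by
  set L : IntermediateField ℂ (B.K D) := IntermediateField.adjoin ℂ
      (Set.range (fun i : {k : κ // k ≠ l0} => zK B D (some (i : κ)))) with hL
  have hn : (pu none : P κ) ≠ 0 := pu_ne_zero none
  have hx : ∀ l, D.x l ≠ 0 := x_ne_zero B D
  -- the ratios are in `L`
  have hsome : ∀ i : κ, i ≠ l0 → zK B D (some i) ∈ L := fun i hi =>
    IntermediateField.subset_adjoin ℂ _ ⟨⟨i, hi⟩, rfl⟩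
  have hnone : zK B D none = 1 := by
    apply Subtype.ext
    simp [zK, div_self hn]
  have hsum : zK B D (some l0) = -1 - ∑ k ∈ Finset.univ.erase l0, zK B D (some k) := by
    apply Subtype.ext
    have h1 : ((∑ k ∈ Finset.univ.erase l0, zK B D (some k) : B.K D) : F) =
        ∑ k ∈ Finset.univ.erase l0, algebraMap (P κ) F (pu (some k) / pu none) := by
      rw [← IntermediateField.coe_val, map_sum]
      rfl
    have h2 : (pu (some l0) : P κ) / pu none =
        -1 - ∑ k ∈ Finset.univ.erase l0, pu (some k) / pu none := by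
      have h5 : (pu none : P κ) = -∑ k, pu (some k) := by
        simp only [pu, u, map_neg, map_sum]
      rw [← Finset.sum_div, eq_sub_iff_add_eq, ← add_div,
        Finset.add_sum_erase _ (fun k => (pu (some k) : P κ)) (Finset.mem_univ l0)]
      have h6 : (∑ k, pu (some k) : P κ) = -pu none := by rw [h5, neg_neg]
      rw [h6, div_eq_iff hn]
      ring
    show algebraMap (P κ) F (pu (some l0) / pu none) = _
    rw [h2, map_sub, map_neg, map_one, map_sum]
    show _ = -1 - ((∑ k ∈ Finset.univ.erase l0, zK B D (some k) : B.K D) : F)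
    rw [h1]
  have hz : ∀ j, zK B D j ∈ L := by
    intro j
    cases j with
    | none => rw [hnone]; exact one_mem L
    | some i =>
      by_cases hi : i = l0
      · subst hi
        rw [hsum]
        exact sub_mem (neg_mem (one_mem L)) (sum_mem fun k hk => hsome k (Finset.ne_of_mem_erase hk))
      · exact hsome i hi
  let E : IntermediateField ℂ (B.K D) := (algebraicClosure L (B.K D)).restrictScalars ℂ
  have hE : ∀ y : B.K D, IsAlgebraic L y ↔ y ∈ E := fun y =>
    (mem_algebraicClosure_iff (F := L) (E := B.K D) (x := y)).symm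
  have key : B.K D ≤ E.map (B.K D).val := by
    conv_lhs => rw [BP.K]
    apply IntermediateField.adjoin_le_iff.2
    rintro y ⟨β, hβ, rfl⟩
    refine ⟨⟨_, mon_mem B D β hβ⟩, ?_, rfl⟩
    apply (hE _).1
    set M : ℕ := ∏ j, B.a j with hM
    have hMpos : 0 < M := Finset.prod_pos fun j _ => by have := B.two_le j; omega
    have hdv : ∀ j, B.a j ∣ M := fun j => Finset.dvd_prod_of_mem _ (Finset.mem_univ j)
    let e : Option κ → ℤ := fun j => β j * ((M / B.a j : ℕ) : ℤ)
    have he : ∀ j, (B.a j : ℤ) * e j = β j * M := by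
      intro j
      simp only [e]
      rw [mul_left_comm]
      congr 1
      exact_mod_cast Nat.mul_div_cancel' (hdv j)
    have hse : ∑ j, e j = 0 := by
      have h1 : ((∑ j, e j : ℤ) : ℚ) = M * ∑ j, (β j : ℚ) / B.a j := by
        push_cast
        rw [Finset.mul_sum]
        refine Finset.sum_congr rfl fun j _ => ?_
        have ha : (B.a j : ℚ) ≠ 0 := by
          have := B.two_le j
          positivity
        have h2 : (B.a j : ℚ) * (e j : ℚ) = (β j : ℚ) * (M : ℚ) := by exact_mod_cast he j
        field_simp
        linarith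
      rw [hβ.1, mul_zero] at h1
      exact_mod_cast h1
    have hpow : (⟨_, mon_mem B D β hβ⟩ : B.K D) ^ M = ∏ j, zK B D j ^ e j := by
      apply Subtype.ext
      have h1 : ((∏ j, zK B D j ^ e j : B.K D) : F) =
          ∏ j, algebraMap (P κ) F (pu j / pu none) ^ e j := by
        rw [← IntermediateField.coe_val, map_prod]
        refine Finset.prod_congr rfl fun j _ => ?_
        rw [map_zpow₀]
        rfl
      rw [h1]
      show (∏ j, D.x j ^ β j) ^ M = _
      rw [← Finset.prod_pow]
      have h2 : ∀ j, (D.x j ^ β j) ^ M = algebraMap (P κ) F (pu j) ^ e j := by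
        intro j
        rw [← D.pow j, ← zpow_natCast (D.x j) (B.a j), ← zpow_mul, he j, zpow_mul, zpow_natCast]
      rw [Finset.prod_congr rfl fun j _ => h2 j]
      have h3 : ∀ j, algebraMap (P κ) F (pu j / pu none) ^ e j =
          algebraMap (P κ) F (pu j) ^ e j / algebraMap (P κ) F (pu none) ^ e j := by
        intro j
        rw [map_div₀, div_zpow]
      rw [Finset.prod_congr rfl fun j _ => h3 j, Finset.prod_div_distrib]
      have hnF : algebraMap (P κ) F (pu none) ≠ 0 := by
        intro h; exact hn ((algebraMap (P κ) F).injective (by rw [h, map_zero]))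
      have h4 : ∏ j, algebraMap (P κ) F (pu none) ^ e j = 1 := by
        have : ∀ s : Finset (Option κ), ∏ j ∈ s, algebraMap (P κ) F (pu none) ^ e j =
            algebraMap (P κ) F (pu none) ^ (∑ j ∈ s, e j) := by
          intro s
          induction s using Finset.induction_on with
          | empty => simp
          | insert a s ha ih => rw [Finset.prod_insert ha, Finset.sum_insert ha, zpow_add₀ hnF, ih]
        rw [this, hse, zpow_zero]
      rw [h4, div_one]
    have hmem : (⟨_, mon_mem B D β hβ⟩ : B.K D) ^ M ∈ L := by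
      rw [hpow]
      exact prod_mem fun j _ => zpow_mem (hz j) _
    have hal : IsAlgebraic L ((⟨_, mon_mem B D β hβ⟩ : B.K D) ^ M) :=
      isAlgebraic_algebraMap (⟨_, hmem⟩ : L)
    exact hal.of_pow hMpos
  refine ⟨fun y => ?_⟩
  obtain ⟨y', hy', hyy⟩ := key y.2
  have : y' = y := Subtype.ext hyy
  rw [← this]
  exact (hE _).2 hy'

/-- The transcendence basis. -/
theorem zK_tb [Nonempty κ] (l0 : κ) :
    IsTranscendenceBasis ℂ (fun i : {k : κ // k ≠ l0} => zK B D (some (i : κ))) := by
  rw [(zK_indep B D l0).isTranscendenceBasis_iff_isAlgebraic]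
  have := zK_alg B D l0
  open scoped IntermediateField.algebraAdjoinAdjoin in
  exact (IsFractionRing.comap_isAlgebraic_iff (A := Algebra.adjoin ℂ
      (Set.range (fun i : {k : κ // k ≠ l0} => zK B D (some (i : κ)))))
      (K := IntermediateField.adjoin ℂ
      (Set.range (fun i : {k : κ // k ≠ l0} => zK B D (some (i : κ))))) (C := B.K D)).2 this

/-- HINT: `exists_derivation` of `Ext.lean`. -/
theorem exists_frame [Nonempty κ] (l0 : κ) :
    ∃ Fr : Frame (B.K D) {k : κ // k ≠ l0}, ∀ i, Fr.z i = zK B D (some (i : κ)) := by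
  have h := fun i : {k : κ // k ≠ l0} =>
    Pool.Agent.Work.MP_4329d7_ag.R.exists_derivation (K := B.K D) (M := B.K D) (zK_tb B D l0) (fun j => if i = j then 1 else 0)
  choose d hd using h
  exact ⟨⟨_, d, hd, zK_tb B D l0⟩, fun i => rfl⟩

/-- HINT: transcendence basis of `card κ - 1` elements. -/
theorem K_trdeg [Nonempty κ] (l0 : κ) :
    Algebra.trdeg ℂ (B.K D) = ((Fintype.card κ - 1 : ℕ) : Cardinal) := by
  rw [← (zK_tb B D l0).cardinalMk_eq_trdeg, Cardinal.mk_fintype, Fintype.card_subtype_compl,
    Fintype.card_subtype_eq]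

end

end Pool.Agent.Work.MP_4329d7_ag.FF
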