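import Mathlib
import Pool.Agent.Work.MP_4329d7_ag.FF.Setup

/-!
KeyArith: the inequality and the pigeonhole. Pure arithmetic of rational numbers.
-/

namespace Pool.Agent.Work.MP_4329d7_ag.FF

variable {κ : Type} [Fintype κ] [DecidableEq κ] {m : ℕ}

omit [Fintype κ] [DecidableEq κ] in
lemma keyArith_pos {a : Option κ → ℕ} (ha : ∀ j, 2 ≤ a j) (j : Option κ) : (0 : ℚ) < a j := by
  have := ha j
  exact_mod_cast (by omega : 0 < a j)

omit [Fintype κ] [DecidableEq κ] in
lemma keyArith_sub {a : Option κ → ℕ} (ha : ∀ j, 2 ≤ a j) (j : Option κ) :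
    ((a j - 1 : ℕ) : ℚ) = a j - 1 := by
  rw [Nat.cast_sub (by have := ha j; omega)]
  norm_num

omit [Fintype κ] [DecidableEq κ] in
lemma keyArith_val {a : Option κ → ℕ} (α : Option κ → ℕ) (ha : ∀ j, 2 ≤ a j) (c : ℚ)
    (j : Option κ) : (((a j - 1 : ℕ) : ℚ) * c + α j) / a j = c - c * (1 / a j) + α j / a j := by
  have := keyArith_pos ha j
  rw [keyArith_sub ha]
  field_simp

omit [Fintype κ] [DecidableEq κ] in
lemma keyArith_flr {a : Option κ → ℕ} (α : Option κ → ℕ) (ha : ∀ j, 2 ≤ a j) (c : ℕ)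
    (j : Option κ) : (flr a α c j : ℚ) ≤ c - c * (1 / a j) + α j / a j := by
  rw [← keyArith_val α ha]
  unfold flr
  refine Nat.cast_div_le.trans (le_of_eq ?_)
  push_cast
  rfl

/-- The inequality for one `i`.
HINT. Write `s = |S|`, `x_j = 1/a_j` (rational). For `j` and `c`: `flr a α c j ≤ c (1 - x_j) + α_j x_j`.
Upper bound of the right side of `H`: `∑_{k ≠ i} (c_k (1 - x_k) + α_k x_k) - m - A0`, where
`c_k = #{s | l' s = k}`; `c_i = 0`, `∑_k c_k = m`, so `∑_{k≠i} c_k (1 - x_k) = m - ∑_s x_{l' s}` and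
`∑_s x_{l' s} ≥ s x_{l0} + ∑_{s ∉ S} x_{l s}` because `x_{l0} ≥ x_{l s}` (`hmin`). With
`A0 = ∑_j α_j x_j` (over `Option κ`) the right side of `H` is at most
`- s x_{l0} - ∑_{s∉S} x_{l s} - α_none x_none - α_i x_i`. Left side of `H`: with
`δ_j = (s (a_j - 1) + α_j) x_j - flr a α s j ≥ 0` it equals
`- s + s x_none + s x_i + δ_none + δ_i - α_none x_none - α_i x_i`. Hence
`∑_{s∉S} x_{l s} + δ_none + δ_i ≤ s (1 - x_none - x_i - x_{l0}) = s ∑_{k ∉ {i,l0}} x_k` (`hsum`). -/
theorem key_ineq (a α : Option κ → ℕ) (A0 : ℕ) (l0 i : κ) (hi : i ≠ l0)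
    (ha : ∀ j, 2 ≤ a j) (hsum : ∑ j, (1 : ℚ) / a j = 1)
    (hA : ∑ j, (α j : ℚ) / a j = A0) (hmin : ∀ j, a (some l0) ≤ a j)
    (S : Finset (Fin m)) (l l' : Fin m → κ) (hli : ∀ s, s ∉ S → l s ≠ i)
    (h1 : ∀ s ∈ S, l' s = l0) (h2 : ∀ s, s ∉ S → l' s = l s ∨ l' s = l0)
    (H : (S.card : ℤ) - flr a α S.card none - flr a α S.card (some i) ≤
        ∑ k ∈ Finset.univ.erase i,
          (flr a α (Finset.univ.filter fun s => l' s = k).card (some k) : ℤ) - m - A0) :
    ∑ s ∈ Finset.univ.filter (fun s => s ∉ S), (1 : ℚ) / a (some (l s))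
      + (((a none - 1 : ℕ) * S.card + α none : ℚ) / a none - flr a α S.card none)
      + (((a (some i) - 1 : ℕ) * S.card + α (some i) : ℚ) / a (some i)
          - flr a α S.card (some i))
      ≤ S.card * ∑ k ∈ (Finset.univ.erase i).erase l0, (1 : ℚ) / a (some k) := by
  have hfib : ∀ g : κ → ℚ,
      ∑ k, ((Finset.univ.filter fun s => l' s = k).card : ℚ) * g k = ∑ s, g (l' s) := by
    intro g
    rw [← Finset.sum_fiberwise Finset.univ l' (fun s => g (l' s))]
    refine Finset.sum_congr rfl fun k _ => ?_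
    rw [Finset.sum_congr rfl (fun s hs => by rw [(Finset.mem_filter.mp hs).2]), Finset.sum_const,
      nsmul_eq_mul]
  have hne : ∀ s, l' s ≠ i := by
    intro s
    by_cases hs : s ∈ S
    · rw [h1 s hs]; exact hi.symm
    · rcases h2 s hs with h | h
      · rw [h]; exact hli s hs
      · rw [h]; exact hi.symm
  have hci : (Finset.univ.filter fun s => l' s = i).card = 0 := by
    rw [Finset.card_eq_zero, Finset.filter_eq_empty_iff]
    intro s _
    exact hne s
  -- the cast of the hypothesis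
  have HQ : (S.card : ℚ) - flr a α S.card none - flr a α S.card (some i) ≤
        ∑ k ∈ Finset.univ.erase i,
          (flr a α (Finset.univ.filter fun s => l' s = k).card (some k) : ℚ) - m - A0 := by
    exact_mod_cast H
  -- the upper bound of the right hand side
  have hR : ∑ k ∈ Finset.univ.erase i,
          (flr a α (Finset.univ.filter fun s => l' s = k).card (some k) : ℚ) ≤
      m - ∑ s, (1 : ℚ) / a (some (l' s)) + ∑ k ∈ Finset.univ.erase i, (α (some k) : ℚ) / a (some k) := by
    calc _ ≤ ∑ k ∈ Finset.univ.erase i, (((Finset.univ.filter fun s => l' s = k).card : ℚ) *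
          (1 - 1 / a (some k)) + (α (some k) : ℚ) / a (some k)) := by
          refine Finset.sum_le_sum fun k _ => ?_
          refine (keyArith_flr α ha _ _).trans (le_of_eq ?_)
          ring
      _ = ∑ k, ((Finset.univ.filter fun s => l' s = k).card : ℚ) *
          (1 - 1 / a (some k)) + ∑ k ∈ Finset.univ.erase i, (α (some k) : ℚ) / a (some k) := by
          rw [Finset.sum_add_distrib, ← Finset.sum_erase_add Finset.univ (f := fun k =>
            ((Finset.univ.filter fun s => l' s = k).card : ℚ) * (1 - 1 / a (some k)))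
            (Finset.mem_univ i), hci]
          simp
      _ = _ := by
          rw [hfib, Finset.sum_sub_distrib]
          simp
  have hlow : (S.card : ℚ) * (1 / a (some l0)) +
      ∑ s ∈ Finset.univ.filter (fun s => s ∉ S), (1 : ℚ) / a (some (l s)) ≤
      ∑ s, (1 : ℚ) / a (some (l' s)) := by
    rw [← Finset.sum_filter_add_sum_filter_not Finset.univ (fun s => s ∈ S)
      (fun s => (1 : ℚ) / a (some (l' s)))]
    refine add_le_add (le_of_eq ?_) (Finset.sum_le_sum fun s hs => ?_)
    · rw [Finset.sum_congr rfl (g := fun _ => (1 : ℚ) / a (some l0))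
        (fun s hs => by rw [h1 s (Finset.mem_filter.mp hs).2]), Finset.sum_const, nsmul_eq_mul]
      congr 2
      congr 1
      ext s
      simp
    · rcases h2 s (Finset.mem_filter.mp hs).2 with h | h
      · rw [h]
      · rw [h]
        exact one_div_le_one_div_of_le (keyArith_pos ha _) (by exact_mod_cast hmin _)
  have hA' : (α none : ℚ) / a none + ((α (some i) : ℚ) / a (some i) +
      ∑ k ∈ Finset.univ.erase i, (α (some k) : ℚ) / a (some k)) = A0 := by
    rw [Finset.add_sum_erase _ (fun k => (α (some k) : ℚ) / a (some k)) (Finset.mem_univ i), ← hA,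
      Fintype.sum_option]
  have hs' : (1 : ℚ) / a none + ((1 : ℚ) / a (some i) + ((1 : ℚ) / a (some l0) +
      ∑ k ∈ (Finset.univ.erase i).erase l0, (1 : ℚ) / a (some k))) = 1 := by
    rw [Finset.add_sum_erase _ (fun k => (1 : ℚ) / a (some k))
      (Finset.mem_erase.mpr ⟨hi.symm, Finset.mem_univ _⟩),
      Finset.add_sum_erase _ (fun k => (1 : ℚ) / a (some k)) (Finset.mem_univ i)]
    rw [Fintype.sum_option] at hsum
    exact hsum
  rw [keyArith_val α ha, keyArith_val α ha]
  have e : (S.card : ℚ) * ∑ k ∈ (Finset.univ.erase i).erase l0, (1 : ℚ) / a (some k) =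
      S.card * (1 - 1 / a none - 1 / a (some i) - 1 / a (some l0)) := by
    congr 1
    linarith
  rw [e]
  linarith

/-- The pigeonhole.
HINT. Let `m_k = #{s | w s = k}` (`m_{l0} = 0`, `∑_{k ≠ l0} m_k = m`), `σ_i = ∑_{k ∉ {i,l0}} x_k`.
For each `i ≠ l0`, `H i` gives `S ⊆ {w = i}`, and `{s | w s ≠ i} ⊆ Sᶜ` with `l = w` there, so
`∑_{k ∉ {i,l0}} m_k x_k + δ_none + δ_i ≤ |S| σ_i ≤ m_i σ_i`. Adding `m_i x_i`:
`∑_{k ≠ l0} m_k x_k ≤ m_i ∑_{k ≠ l0} x_k` for every `i ≠ l0`; multiply by `x_i` and sum over `i`: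
equality throughout, so all `m_i` (`i ≠ l0`) are equal, `=: k`, and `m = (card κ - 1) k`. Moreover
`δ_none = δ_i = 0`, and `|S| = k`: if `σ_i > 0` from `k σ_i ≤ |S| σ_i`; if `σ_i = 0`, i.e.
`κ = {i, l0}`, then `l s ∉ {i, l0}` is impossible, so `Sᶜ = ∅` and `|S| = m = k` (here `hne`, `hli`,
`hll` in `H` are used). `δ_j = 0` with `|S| = k` says `a_j ∣ k (a_j - 1) + α_j`, i.e.
`a_j ∣ k - α_j`, for `j = none` and all `j = some i`, `i ≠ l0`. For `j = some l0`:
`∑_j α_j / a_j ∈ ℤ` and `∑_j k / a_j = k ∈ ℤ`, so `(k - α_{l0}) / a_{l0} ∈ ℤ`. -/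
theorem key_pigeon (a α : Option κ → ℕ) (A0 : ℕ) (l0 : κ)
    (hcard : 2 ≤ Fintype.card κ)
    (ha : ∀ j, 2 ≤ a j) (hsum : ∑ j, (1 : ℚ) / a j = 1)
    (hA : ∑ j, (α j : ℚ) / a j = A0)
    (w : Fin m → κ) (hw : ∀ s, w s ≠ l0)
    (H : ∀ i, i ≠ l0 → ∃ (S : Finset (Fin m)) (l : Fin m → κ),
      (∀ s ∈ S, w s = i) ∧ (∀ s, l s ≠ l0) ∧ (∀ s, s ∉ S → l s ≠ i) ∧
      (∀ s, w s ≠ i → l s = w s) ∧
      ∑ s ∈ Finset.univ.filter (fun s => s ∉ S), (1 : ℚ) / a (some (l s))
      + (((a none - 1 : ℕ) * S.card + α none : ℚ) / a none - flr a α S.card none)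
      + (((a (some i) - 1 : ℕ) * S.card + α (some i) : ℚ) / a (some i)
          - flr a α S.card (some i))
      ≤ S.card * ∑ k ∈ (Finset.univ.erase i).erase l0, (1 : ℚ) / a (some k)) :
    ∃ k : ℕ, m = (Fintype.card κ - 1) * k ∧ ∀ j, (a j : ℤ) ∣ (k : ℤ) - α j := by
  have hx : ∀ k : κ, (0 : ℚ) < 1 / a (some k) := fun k => one_div_pos.mpr (keyArith_pos ha _)
  obtain ⟨M, hM⟩ : ∃ M : κ → ℕ, ∀ k, M k = (Finset.univ.filter fun s => w s = k).card :=
    ⟨_, fun _ => rfl⟩
  have hfib : ∀ g : κ → ℚ, ∑ k, (M k : ℚ) * g k = ∑ s, g (w s) := by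
    intro g
    rw [← Finset.sum_fiberwise Finset.univ w (fun s => g (w s))]
    refine Finset.sum_congr rfl fun k _ => ?_
    rw [Finset.sum_congr rfl (fun s hs => by rw [(Finset.mem_filter.mp hs).2]), Finset.sum_const,
      nsmul_eq_mul, hM]
  have hMl0 : M l0 = 0 := by
    rw [hM, Finset.card_eq_zero, Finset.filter_eq_empty_iff]
    intro s _
    exact hw s
  have hMsum : ∑ k, (M k : ℚ) = m := by
    have := hfib (fun _ => 1)
    simpa using this
  have hd : ∀ (c : ℕ) (j : Option κ),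
      0 ≤ ((a j - 1 : ℕ) * c + α j : ℚ) / a j - flr a α c j := by
    intro c j
    have := keyArith_flr α ha c j
    rw [keyArith_val α ha]
    linarith
  -- the consequences of `H`
  have key : ∀ i, i ≠ l0 → ∃ c : ℕ, c ≤ M i ∧
      (∑ k ∈ Finset.univ.erase i, (M k : ℚ) * (1 / a (some k)))
      + (((a none - 1 : ℕ) * c + α none : ℚ) / a none - flr a α c none)
      + (((a (some i) - 1 : ℕ) * c + α (some i) : ℚ) / a (some i)
          - flr a α c (some i))
      ≤ c * ∑ k ∈ (Finset.univ.erase i).erase l0, (1 : ℚ) / a (some k) ∧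
      (((Finset.univ.erase i).erase l0 : Finset κ) = ∅ → c = m) := by
    intro i hi
    obtain ⟨S, l, h1, h2, h3, h4, h5⟩ := H i hi
    refine ⟨S.card, ?_, ?_, ?_⟩
    · rw [hM]
      exact Finset.card_le_card fun s hs => Finset.mem_filter.mpr ⟨Finset.mem_univ _, h1 s hs⟩
    · have hA1 : ∑ k ∈ Finset.univ.erase i, (M k : ℚ) * (1 / a (some k)) ≤
          ∑ s ∈ Finset.univ.filter (fun s => s ∉ S), (1 : ℚ) / a (some (l s)) := by
        have e1 : ∑ k ∈ Finset.univ.erase i, (M k : ℚ) * (1 / a (some k)) =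
            ∑ k, (M k : ℚ) * (if k = i then (0 : ℚ) else 1 / a (some k)) := by
          rw [← Finset.sum_erase_add Finset.univ (f := fun k => (M k : ℚ) *
            (if k = i then (0 : ℚ) else 1 / a (some k))) (Finset.mem_univ i), if_pos rfl, mul_zero,
            add_zero]
          refine Finset.sum_congr rfl fun k hk => ?_
          rw [if_neg (Finset.mem_erase.mp hk).1]
        rw [e1, hfib, Finset.sum_filter]
        refine Finset.sum_le_sum fun s _ => ?_
        by_cases hs : w s = i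
        · rw [if_pos hs]
          split_ifs
          · exact le_rfl
          · exact (hx _).le
        · have : s ∉ S := fun h => hs (h1 s h)
          rw [if_neg hs, if_pos this, h4 s hs]
      linarith
    · intro he
      have : S = Finset.univ := by
        rw [Finset.eq_univ_iff_forall]
        intro s
        by_contra hs
        have h6 : l s ∈ ((Finset.univ.erase i).erase l0 : Finset κ) :=
          Finset.mem_erase.mpr ⟨h2 s, Finset.mem_erase.mpr ⟨h3 s hs, Finset.mem_univ _⟩⟩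
        rw [he] at h6
        exact Finset.notMem_empty _ h6
      rw [this, Finset.card_univ, Fintype.card_fin]
  -- the sums
  obtain ⟨T, hT⟩ : ∃ T : ℚ, T = ∑ k ∈ Finset.univ.erase l0, (1 : ℚ) / a (some k) := ⟨_, rfl⟩
  obtain ⟨N, hN⟩ : ∃ N : ℚ, N = ∑ k, (M k : ℚ) * (1 / a (some k)) := ⟨_, rfl⟩
  have hNi : ∀ i, ∑ k ∈ Finset.univ.erase i, (M k : ℚ) * (1 / a (some k)) =
      N - M i * (1 / a (some i)) := by
    intro i
    rw [hN, ← Finset.sum_erase_add Finset.univ _ (Finset.mem_univ i)]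
    ring
  have hTi : ∀ i, i ≠ l0 → ∑ k ∈ (Finset.univ.erase i).erase l0, (1 : ℚ) / a (some k) =
      T - 1 / a (some i) := by
    intro i hi
    rw [hT, Finset.erase_right_comm, ← Finset.sum_erase_add (Finset.univ.erase l0) _
      (Finset.mem_erase.mpr ⟨hi, Finset.mem_univ i⟩)]
    ring
  have hNe : N = ∑ k ∈ Finset.univ.erase l0, (M k : ℚ) * (1 / a (some k)) := by
    rw [hNi, hMl0]
    simp
  have hle : ∀ i ∈ (Finset.univ.erase l0 : Finset κ),
      N * (1 / a (some i)) ≤ M i * (1 / a (some i)) * T := by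
    intro i hi
    obtain ⟨c, hc1, hc2, _⟩ := key i (Finset.mem_erase.mp hi).1
    have h0 := hd c none
    have h0' := hd c (some i)
    rw [hNi, hTi i (Finset.mem_erase.mp hi).1] at hc2
    have hσ : 0 ≤ T - 1 / a (some i) := by
      rw [← hTi i (Finset.mem_erase.mp hi).1]
      exact Finset.sum_nonneg fun k _ => (hx k).le
    have hc3 : (c : ℚ) * (T - 1 / a (some i)) ≤ M i * (T - 1 / a (some i)) :=
      mul_le_mul_of_nonneg_right (by exact_mod_cast hc1) hσ
    have h6 : N ≤ M i * T := by nlinarith [hc2, hc3]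
    calc N * (1 / a (some i)) ≤ M i * T * (1 / a (some i)) :=
          mul_le_mul_of_nonneg_right h6 (hx i).le
      _ = _ := by ring
  have heq : ∑ i ∈ (Finset.univ.erase l0 : Finset κ), N * (1 / a (some i)) =
      ∑ i ∈ (Finset.univ.erase l0 : Finset κ), M i * (1 / a (some i)) * T := by
    rw [← Finset.mul_sum, ← Finset.sum_mul, ← hT, ← hNe]
  have hall : ∀ i, i ≠ l0 → N = M i * T := by
    intro i hi
    have h6 := (Finset.sum_eq_sum_iff_of_le hle).mp heq i
      (Finset.mem_erase.mpr ⟨hi, Finset.mem_univ i⟩)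
    have h7 := hx i
    have h8 : (N - M i * T) * (1 / a (some i)) = 0 := by linarith
    rcases mul_eq_zero.mp h8 with h | h
    · linarith
    · exact absurd h h7.ne'
  obtain ⟨i0, hi0⟩ : ∃ i0 : κ, i0 ≠ l0 := by
    have : Nontrivial κ := Fintype.one_lt_card_iff_nontrivial.mp (by omega)
    exact exists_ne l0
  have hTpos : 0 < T := by
    rw [hT]
    exact Finset.sum_pos (fun k _ => hx k) ⟨i0, Finset.mem_erase.mpr ⟨hi0, Finset.mem_univ _⟩⟩
  have hMeq : ∀ i, i ≠ l0 → M i = M i0 := by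
    intro i hi
    have h6 := hall i hi
    rw [hall i0 hi0] at h6
    have := mul_right_cancel₀ hTpos.ne' h6
    exact_mod_cast this.symm
  obtain ⟨k, hk⟩ : ∃ k : ℕ, k = M i0 := ⟨_, rfl⟩
  have hcount : m = (Fintype.card κ - 1) * k := by
    have h6 : (∑ k, M k) = m := by exact_mod_cast hMsum
    rw [← h6, ← Finset.add_sum_erase _ _ (Finset.mem_univ l0), hMl0, zero_add,
      Finset.sum_congr rfl (fun i hi => hMeq i (Finset.mem_erase.mp hi).1), Finset.sum_const,
      Finset.card_erase_of_mem (Finset.mem_univ _), Finset.card_univ, smul_eq_mul, hk]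
  have hdiv : ∀ (j : Option κ), ((a j - 1 : ℕ) * k + α j : ℚ) / a j - flr a α k j = 0 →
      (a j : ℤ) ∣ (k : ℤ) - α j := by
    intro j hj
    refine ⟨(k : ℤ) - flr a α k j, ?_⟩
    have h6 := keyArith_pos ha j
    rw [keyArith_val α ha] at hj
    have h7 : ((k : ℚ) - α j) = a j * (k - flr a α k j) := by
      field_simp at hj
      linarith
    exact_mod_cast h7
  have hfin : ∀ i, i ≠ l0 → ((a none : ℤ) ∣ (k : ℤ) - α none) ∧
      ((a (some i) : ℤ) ∣ (k : ℤ) - α (some i)) := by
    intro i hi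
    obtain ⟨c, hc1, hc2, hc3⟩ := key i hi
    have h0 := hd c none
    have h0' := hd c (some i)
    rw [hMeq i hi, ← hk] at hc1
    rw [hNi, hTi i hi, hall i hi, hMeq i hi, ← hk] at hc2
    have hσ : 0 ≤ T - 1 / a (some i) := by
      rw [← hTi i hi]
      exact Finset.sum_nonneg fun k _ => (hx k).le
    have hc4 : (c : ℚ) * (T - 1 / a (some i)) ≤ k * (T - 1 / a (some i)) :=
      mul_le_mul_of_nonneg_right (by exact_mod_cast hc1) hσ
    have hz1 : ((a none - 1 : ℕ) * c + α none : ℚ) / a none - flr a α c none = 0 := by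
      nlinarith [hc2, hc4]
    have hz2 : ((a (some i) - 1 : ℕ) * c + α (some i) : ℚ) / a (some i)
          - flr a α c (some i) = 0 := by
      nlinarith [hc2, hc4]
    have hck : c = k := by
      by_cases he : ((Finset.univ.erase i).erase l0 : Finset κ) = ∅
      · rw [hc3 he, hcount]
        have h6 : Fintype.card κ = 2 := by
          have h7 := congrArg Finset.card he
          rw [Finset.card_erase_of_mem (Finset.mem_erase.mpr ⟨hi.symm, Finset.mem_univ _⟩),
            Finset.card_erase_of_mem (Finset.mem_univ _), Finset.card_univ,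
            Finset.card_empty] at h7
          omega
        rw [h6]
        norm_num
      · have hσ' : 0 < T - 1 / a (some i) := by
          rw [← hTi i hi]
          exact Finset.sum_pos (fun k _ => hx k) (Finset.nonempty_iff_ne_empty.mpr he)
        have h6 : (k : ℚ) * (T - 1 / a (some i)) ≤ c * (T - 1 / a (some i)) := by
          nlinarith [hc2, h0, h0']
        have h7 := le_of_mul_le_mul_right h6 hσ'
        have h8 : k ≤ c := by exact_mod_cast h7
        omega
    rw [hck] at hz1 hz2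
    exact ⟨hdiv _ hz1, hdiv _ hz2⟩
  refine ⟨k, hcount, ?_⟩
  have hother : ∀ j, j ≠ some l0 → (a j : ℤ) ∣ (k : ℤ) - α j := by
    intro j hj
    cases j with
    | none => exact (hfin i0 hi0).1
    | some i => exact (hfin i (fun h => hj (by rw [h]))).2
  intro j
  by_cases hj : j = some l0
  · subst hj
    choose z hz using fun (j : Option κ) (hj : j ≠ some l0) => hother j hj
    have hQ : ∑ j, ((k : ℚ) - α j) / a j = k - A0 := by
      have : ∀ j : Option κ, ((k : ℚ) - α j) / a j = k * (1 / a j) - α j / a j := fun j => by ring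
      rw [Finset.sum_congr rfl fun j _ => this j, Finset.sum_sub_distrib, ← Finset.mul_sum, hsum,
        hA, mul_one]
    rw [← Finset.add_sum_erase _ _ (Finset.mem_univ (some l0))] at hQ
    have hR : ∑ j ∈ Finset.univ.erase (some l0), ((k : ℚ) - α j) / a j =
        ((∑ j ∈ (Finset.univ.erase (some l0)).attach,
          z j.1 (Finset.mem_erase.mp j.2).1 : ℤ) : ℚ) := by
      rw [← Finset.sum_attach]
      push_cast
      refine Finset.sum_congr rfl fun j _ => ?_
      have h6 := hz j.1 (Finset.mem_erase.mp j.2).1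
      have h7 := keyArith_pos ha j.1
      rw [div_eq_iff h7.ne']
      have h8 : ((k : ℚ) - α j.1) = a j.1 * z j.1 (Finset.mem_erase.mp j.2).1 := by
        exact_mod_cast h6
      rw [h8]
      ring
    rw [hR] at hQ
    refine ⟨(k : ℤ) - A0 - ∑ j ∈ (Finset.univ.erase (some l0)).attach,
          z j.1 (Finset.mem_erase.mp j.2).1, ?_⟩
    have h7 := keyArith_pos ha (some l0)
    have h9 : ((k : ℚ) - α (some l0)) / a (some l0) = k - A0 -
        ((∑ j ∈ (Finset.univ.erase (some l0)).attach,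
          z j.1 (Finset.mem_erase.mp j.2).1 : ℤ) : ℚ) := by linarith
    rw [div_eq_iff h7.ne'] at h9
    have h10 : ((k : ℚ) - α (some l0)) = a (some l0) * (k - A0 -
        ((∑ j ∈ (Finset.univ.erase (some l0)).attach,
          z j.1 (Finset.mem_erase.mp j.2).1 : ℤ) : ℚ)) := by
      rw [h9]
      ring
    exact_mod_cast h10
  · exact hother j hj

end Pool.Agent.Work.MP_4329d7_ag.FF
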