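import Mathlib
import Pool.Agent.Work.MP_4329d7_ag.FF.Setup

/-!
KeyDeg: comparison of the degrees in the variable `X_i` (`MvPolynomial.degreeOf i`).
-/

open MvPolynomial

namespace Pool.Agent.Work.MP_4329d7_ag.FF

variable {κ : Type} [Fintype κ] [DecidableEq κ] {m : ℕ}

lemma keydeg_coeff_u_none (i : κ) : coeff (Finsupp.single i 1) (u none : A κ) = -1 := by
  simp only [u, coeff_neg, coeff_sum, coeff_X']
  rw [Finset.sum_eq_single i]
  · simp
  · intro b _ hb
    rw [if_neg]
    intro h
    exact hb ((Finsupp.single_left_inj one_ne_zero).1 h)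
  · intro h; exact absurd (Finset.mem_univ i) h

lemma keydeg_u_ne_zero (i : κ) (j : Option κ) : (u j : A κ) ≠ 0 := by
  cases j with
  | none =>
    intro h
    have := keydeg_coeff_u_none i
    rw [h, coeff_zero] at this
    norm_num at this
  | some k => exact X_ne_zero k

lemma keydeg_u_none_totalDegree (i : κ) : (u none : A κ).totalDegree = 1 := by
  have h : (u none : A κ).IsHomogeneous 1 := by
    simp only [u]
    refine IsHomogeneous.neg ?_
    exact IsHomogeneous.sum _ _ _ (fun k _ => isHomogeneous_X _ _)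
  exact h.totalDegree (keydeg_u_ne_zero i none)

lemma keydeg_u_none_prime (i : κ) : Prime (u none : A κ) := by
  refine Irreducible.prime ?_
  refine irreducible_of_totalDegree_eq_one (keydeg_u_none_totalDegree i) ?_
  intro x hx
  have := hx (Finsupp.single i 1)
  rw [keydeg_coeff_u_none] at this
  exact isUnit_of_dvd_unit this (by simp)

lemma keydeg_not_dvd (k k' : κ) (hk : k ≠ k') : ¬ (u none : A κ) ∣ u (some k) := by
  rintro ⟨c, hc⟩
  have h := congrArg (MvPolynomial.eval (fun l : κ => if l = k then (1 : ℂ) else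
    if l = k' then -1 else 0)) hc
  have h0 : MvPolynomial.eval (fun l : κ => if l = k then (1 : ℂ) else
      if l = k' then -1 else 0) (u none : A κ) = 0 := by
    simp only [u, map_neg, map_sum, eval_X]
    rw [Finset.sum_eq_add k k' hk]
    · simp [hk.symm]
    · intro c _ hc
      simp [hc.1, hc.2]
    · intro h; exact absurd (Finset.mem_univ _) h
    · intro h; exact absurd (Finset.mem_univ _) h
  rw [map_mul, h0, zero_mul] at h
  simp [u] at h

lemma keydeg_degreeOf_none (i : κ) : degreeOf i (u none : A κ) = 1 := by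
  apply le_antisymm
  · rw [← keydeg_u_none_totalDegree i]
    exact degreeOf_le_totalDegree _ _
  · have h : Finsupp.single i 1 ∈ (u none : A κ).support := by
      rw [mem_support_iff, keydeg_coeff_u_none]; norm_num
    have := monomial_le_degreeOf i h
    simpa using this

lemma keydeg_degreeOf_prod (i : κ) (M : Option κ → ℕ) :
    degreeOf i (∏ j, (u j : A κ) ^ M j) = M none + M (some i) := by
  rw [degreeOf_prod_eq _ _ (fun j _ => pow_ne_zero _ (keydeg_u_ne_zero i j))]
  have h : ∀ j : Option κ, degreeOf i ((u j : A κ) ^ M j) = M j * degreeOf i (u j : A κ) :=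
    fun j => degreeOf_pow_eq _ _ _ (keydeg_u_ne_zero i j)
  simp only [h]
  rw [Fintype.sum_option, keydeg_degreeOf_none]
  have h2 : ∀ k : κ, degreeOf i (u (some k) : A κ) = if i = k then 1 else 0 := by
    intro k
    simp only [u]
    rw [degreeOf_X]
  simp only [h2]
  simp

lemma keydeg_map_prod (M : Option κ → ℕ) :
    algebraMap (A κ) (P κ) (∏ j, (u j : A κ) ^ M j) = ∏ j, pu j ^ M j := by
  simp [pu, map_prod, map_pow]

/-- `p` has degree at most `d` in `X_i`. -/
def KDegLE (i : κ) (p : P κ) (d : ℤ) : Prop :=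
  ∃ f g : A κ, g ≠ 0 ∧ p * algebraMap (A κ) (P κ) g = algebraMap (A κ) (P κ) f ∧
    ∀ e ∈ f.support, (e i : ℤ) ≤ d + degreeOf i g

lemma keydeg_le_of_support {i : κ} {f : A κ} (hf : f ≠ 0) {c : ℤ}
    (h : ∀ e ∈ f.support, (e i : ℤ) ≤ c) : (degreeOf i f : ℤ) ≤ c := by
  rw [degreeOf_eq_sup]
  obtain ⟨e, he, h2⟩ := Finset.exists_mem_eq_sup f.support
    (support_nonempty.2 hf) (fun e => e i)
  rw [h2]
  exact h e he

lemma keydeg_mono {i : κ} {p : P κ} {d d' : ℤ} (h : KDegLE i p d) (hd : d ≤ d') :
    KDegLE i p d' := by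
  obtain ⟨f, g, hg, hp, hf⟩ := h
  exact ⟨f, g, hg, hp, fun e he => (hf e he).trans (by linarith)⟩

lemma keydeg_support_mul {i : κ} {f g g' : A κ} {d : ℤ} (hg : g ≠ 0) (hg' : g' ≠ 0)
    (hf : ∀ e ∈ f.support, (e i : ℤ) ≤ d + degreeOf i g) :
    ∀ e ∈ (f * g').support, (e i : ℤ) ≤ d + degreeOf i (g * g') := by
  intro e he
  have hf0 : f ≠ 0 := by
    rintro rfl
    simp at he
  have h1 := keydeg_le_of_support hf0 hf
  have h2 := monomial_le_degreeOf i he
  rw [degreeOf_mul_eq hf0 hg'] at h2
  rw [degreeOf_mul_eq hg hg']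
  push_cast
  have : (e i : ℤ) ≤ degreeOf i f + degreeOf i g' := by exact_mod_cast h2
  linarith

lemma keydeg_sub {i : κ} {p q : P κ} {d : ℤ} (hp : KDegLE i p d) (hq : KDegLE i q d) :
    KDegLE i (p - q) d := by
  obtain ⟨f1, g1, hg1, h1, hf1⟩ := hp
  obtain ⟨f2, g2, hg2, h2, hf2⟩ := hq
  refine ⟨f1 * g2 - f2 * g1, g1 * g2, mul_ne_zero hg1 hg2, ?_, ?_⟩
  · rw [map_sub, map_mul, map_mul, map_mul, ← h1, ← h2]
    ring
  · intro e he
    rcases Finset.mem_union.1 (support_sub κ _ _ he) with h | h
    · exact keydeg_support_mul hg1 hg2 hf1 e h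
    · have := keydeg_support_mul hg2 hg1 hf2 e h
      rwa [mul_comm g2 g1] at this

lemma keydeg_compare {i : κ} {p : P κ} {d : ℤ} (hp : KDegLE i p d) {f' g' : A κ}
    (hf' : f' ≠ 0) (hg' : g' ≠ 0)
    (h : p * algebraMap (A κ) (P κ) g' = algebraMap (A κ) (P κ) f') :
    (degreeOf i f' : ℤ) ≤ d + degreeOf i g' := by
  obtain ⟨f, g, hg, h1, hf⟩ := hp
  have e : f * g' = f' * g := by
    apply IsFractionRing.injective (A κ) (P κ)
    rw [map_mul, map_mul, ← h1, ← h]
    ring
  have hf0 : f ≠ 0 := by
    rintro rfl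
    rw [zero_mul] at e
    exact mul_ne_zero hf' hg e.symm
  have h2 := keydeg_le_of_support hf0 hf
  have h3 : degreeOf i f + degreeOf i g' = degreeOf i f' + degreeOf i g := by
    rw [← degreeOf_mul_eq hf0 hg', e, degreeOf_mul_eq hf' hg]
  have h4 : (degreeOf i f : ℤ) + degreeOf i g' = degreeOf i f' + degreeOf i g := by
    exact_mod_cast h3
  linarith

lemma keydeg_pairVec (l l0 : κ) :
    (pairVec (some l) (some l0) : κ → P κ) = pairVec (some l) none - pairVec (some l0) none := by
  funext k
  simp [pairVec]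

/-- the expansion of the slots. -/
lemma keydeg_expand (i l0 : κ) (G : MultilinearMap (P κ) (fun _ : Fin m => κ → P κ) (P κ))
    (S : Finset (Fin m)) (l : Fin m → κ) (d : ℤ)
    (H : ∀ l' : Fin m → κ, (∀ s ∈ S, l' s = l0) → (∀ s, s ∉ S → l' s = l s ∨ l' s = l0) →
      KDegLE i (G (wv fun s => (some (l' s), none))) d) :
    ∀ (U : Finset (Fin m)), (∀ s ∈ U, s ∉ S) → ∀ l' : Fin m → κ, (∀ s ∈ S, l' s = l0) →
      (∀ s, s ∉ S → l' s = l s ∨ l' s = l0) →
      KDegLE i (G (fun s => if s ∈ U then pairVec (some (l s)) (some l0) else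
        pairVec (some (l' s)) none)) d := by
  intro U
  induction U using Finset.induction_on with
  | empty =>
    intro _ l' h1 h2
    have := H l' h1 h2
    simp only [Finset.notMem_empty, if_false]
    exact this
  | insert s0 U hs0 ih =>
    intro hU l' h1 h2
    have hU' : ∀ s ∈ U, s ∉ S := fun s hs => hU s (Finset.mem_insert_of_mem hs)
    have hs0S : s0 ∉ S := hU s0 (Finset.mem_insert_self _ _)
    set v : Fin m → κ → P κ := fun s => if s ∈ U then pairVec (some (l s)) (some l0) else
        pairVec (some (l' s)) none with hv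
    have e1 : (fun s => if s ∈ insert s0 U then (pairVec (some (l s)) (some l0) : κ → P κ) else
        pairVec (some (l' s)) none) =
        Function.update v s0 (pairVec (some (l s0)) none - pairVec (some l0) none) := by
      funext s
      by_cases hs : s = s0
      · subst hs
        rw [Function.update_self, if_pos (Finset.mem_insert_self _ _), keydeg_pairVec]
      · rw [Function.update_of_ne hs, hv]
        simp only [Finset.mem_insert, hs, false_or]
    rw [e1, G.map_update_sub]
    have e2 : ∀ k : κ, Function.update v s0 (pairVec (some k) none) =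
        (fun s => if s ∈ U then (pairVec (some (l s)) (some l0) : κ → P κ) else
          pairVec (some (Function.update l' s0 k s)) none) := by
      intro k
      funext s
      by_cases hs : s = s0
      · subst hs
        rw [Function.update_self, if_neg hs0, Function.update_self]
      · rw [Function.update_of_ne hs, Function.update_of_ne hs, hv]
    have aux : ∀ k : κ, (k = l s0 ∨ k = l0) →
        KDegLE i (G (Function.update v s0 (pairVec (some k) none))) d := by
      intro k hk
      rw [e2]
      refine ih hU' (Function.update l' s0 k) ?_ ?_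
      · intro s hs
        rw [Function.update_of_ne (by rintro rfl; exact hs0S hs)]
        exact h1 s hs
      · intro s hs
        by_cases hss : s = s0
        · subst hss
          rw [Function.update_self]
          exact hk
        · rw [Function.update_of_ne hss]
          exact h2 s hs
    exact keydeg_sub (aux _ (Or.inl rfl)) (aux _ (Or.inr rfl))

/-- The comparison of degrees in `X_i`. -/
theorem key_deg (a α : Option κ → ℕ) (A0 : ℕ) (l0 i : κ) (hi : i ≠ l0)
    (G : MultilinearMap (P κ) (fun _ : Fin m => κ → P κ) (P κ)) (hG : GoodForm a α A0 m G)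
    (ha : ∀ j, 2 ≤ a j) (hα : ∀ j, α j < a j)
    (S : Finset (Fin m)) (l : Fin m → κ) (hl0 : ∀ s, l s ≠ l0) (hli : ∀ s, s ∉ S → l s ≠ i)
    (hne : G (wv (W0 l0 i S l)) ≠ 0)
    (hrel : pu (some i) ^ S.card * G (wv (W0 l0 i S l)) =
      pu none ^ S.card * G (wv (W3 l0 S l))) :
    ∃ l' : Fin m → κ, (∀ s ∈ S, l' s = l0) ∧ (∀ s, s ∉ S → l' s = l s ∨ l' s = l0) ∧
      (S.card : ℤ) - flr a α S.card none - flr a α S.card (some i) ≤
        ∑ k ∈ Finset.univ.erase i,
          (flr a α (Finset.univ.filter fun s => l' s = k).card (some k) : ℤ) - m - A0 := by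
  classical
  by_contra hcon
  push Not at hcon
  have hflr0 : ∀ j, flr a α 0 j = 0 := fun j => by
    rw [flr, mul_zero, zero_add]
    exact Nat.div_eq_of_lt (hα j)
  -- counting
  have c00 : cnt (W0 l0 i S l) none = 0 := by
    rw [cnt, Finset.card_eq_zero, Finset.filter_eq_empty_iff]
    intro s _
    unfold W0
    split_ifs <;> simp
  have c0i : cnt (W0 l0 i S l) (some i) = S.card := by
    rw [cnt]
    congr 1
    ext s
    simp only [Finset.mem_filter, Finset.mem_univ, true_and]
    unfold W0
    by_cases hs : s ∈ S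
    · simp [hs]
    · simp only [hs, if_false, iff_false]
      rintro (h | h)
      · exact hli s hs (Option.some_injective _ h)
      · exact hi (Option.some_injective _ h).symm
  have c30 : cnt (W3 l0 S l) none = S.card := by
    rw [cnt]
    congr 1
    ext s
    simp only [Finset.mem_filter, Finset.mem_univ, true_and]
    unfold W3
    by_cases hs : s ∈ S
    · simp [hs]
    · simp [hs]
  -- the polynomials
  obtain ⟨Q0, hQ0, -⟩ := hG.poly (W0 l0 i S l) (by
    intro s
    unfold W0
    split_ifs with h
    · intro h2; exact hi (Option.some_injective _ h2)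
    · intro h2; exact hl0 s (Option.some_injective _ h2))
  obtain ⟨Q3, hQ3, -⟩ := hG.poly (W3 l0 S l) (by
    intro s
    unfold W3
    split_ifs with h
    · simp
    · intro h2; exact hl0 s (Option.some_injective _ h2))
  set M0 : Option κ → ℕ := fun j => flr a α (cnt (W0 l0 i S l) j) j with hM0
  set M3 : Option κ → ℕ := fun j => flr a α (cnt (W3 l0 S l) j) j with hM3
  have hinj := IsFractionRing.injective (A κ) (P κ)
  have hpu : ∀ j : Option κ, (pu j : P κ) ≠ 0 := fun j => by
    intro h
    apply keydeg_u_ne_zero i j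
    apply hinj
    rw [map_zero]; exact h
  have hQ00 : Q0 ≠ 0 := by
    rintro rfl
    rw [map_zero] at hQ0
    have h1 : (∏ j, pu j ^ M0 j : P κ) ≠ 0 :=
      Finset.prod_ne_zero_iff.2 (fun j _ => pow_ne_zero (M0 j) (hpu j))
    exact mul_ne_zero h1 hne hQ0.symm
  -- the relation
  have hR : Q0 * (u (some i)) ^ S.card * ∏ j, (u j) ^ M3 j =
      (u none) ^ S.card * Q3 * ∏ j, (u j) ^ M0 j := by
    apply hinj
    rw [map_mul, map_mul, map_mul, map_mul, keydeg_map_prod, keydeg_map_prod, hQ0, hQ3, map_pow,
      map_pow]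
    change (∏ j, pu j ^ M0 j) * G (wv (W0 l0 i S l)) * (pu (some i)) ^ S.card * _ =
      (pu none) ^ S.card * ((∏ j, pu j ^ M3 j) * G (wv (W3 l0 S l))) * _
    calc (∏ j, pu j ^ M0 j) * G (wv (W0 l0 i S l)) * (pu (some i)) ^ S.card * (∏ j, pu j ^ M3 j)
        = (∏ j, pu j ^ M0 j) * (∏ j, pu j ^ M3 j) *
          ((pu (some i)) ^ S.card * G (wv (W0 l0 i S l))) := by ring
      _ = _ := by rw [hrel]; ring
  have hp := keydeg_u_none_prime i
  have hdvd : (u none) ^ S.card ∣ Q0 * (u none) ^ M3 none := by
    have h1 : (u none : A κ) ^ S.card ∣ (Q0 * (u none) ^ M3 none) *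
        ((u (some i)) ^ S.card * ∏ k : κ, (u (some k)) ^ M3 (some k)) := by
      rw [Fintype.prod_option] at hR
      have : (Q0 * (u none) ^ M3 none) *
        ((u (some i)) ^ S.card * ∏ k : κ, (u (some k)) ^ M3 (some k)) =
        (u none) ^ S.card * (Q3 * ∏ j, (u j) ^ M0 j) := by
        rw [← mul_assoc ((u none) ^ S.card), ← hR]; ring
      rw [this]
      exact dvd_mul_right _ _
    refine hp.pow_dvd_of_dvd_mul_right _ ?_ h1
    have hnd : ∀ k : κ, ¬ (u none : A κ) ∣ u (some k) := by
      intro k
      by_cases hk : k = i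
      · subst hk; exact keydeg_not_dvd k l0 hi
      · exact keydeg_not_dvd k i hk
    intro h
    rcases hp.dvd_or_dvd h with h | h
    · exact hnd i (hp.dvd_of_dvd_pow h)
    · obtain ⟨k, _, hk⟩ := hp.exists_mem_finset_dvd h
      exact hnd k (hp.dvd_of_dvd_pow hk)
  have hlow : S.card ≤ degreeOf i Q0 + M3 none := by
    obtain ⟨c, hc⟩ := hdvd
    have hc0 : c ≠ 0 := by
      rintro rfl
      rw [mul_zero] at hc
      exact mul_ne_zero hQ00 (pow_ne_zero _ (keydeg_u_ne_zero i none)) hc
    have h1 : degreeOf i (Q0 * (u none) ^ M3 none) = degreeOf i ((u none : A κ) ^ S.card * c) := by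
      rw [hc]
    rw [degreeOf_mul_eq hQ00 (pow_ne_zero _ (keydeg_u_ne_zero i none)),
      degreeOf_mul_eq (pow_ne_zero _ (keydeg_u_ne_zero i none)) hc0,
      degreeOf_pow_eq _ _ _ (keydeg_u_ne_zero i none),
      degreeOf_pow_eq _ _ _ (keydeg_u_ne_zero i none), keydeg_degreeOf_none] at h1
    omega
  -- the upper bound
  set B : ℤ := (S.card : ℤ) - flr a α S.card none - flr a α S.card (some i) - 1 with hB
  have hup : KDegLE i (G (wv (W3 l0 S l))) B := by
    have h1 := keydeg_expand i l0 G S l B (fun l' hl1 hl2 => by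
      obtain ⟨Q, hQ, hQd⟩ := hG.poly (fun s => (some (l' s), none)) (by intro s; simp)
      set M : Option κ → ℕ := fun j => flr a α (cnt (fun s => (some (l' s), none)) j) j with hM
      refine ⟨Q, ∏ j, (u j) ^ M j,
        Finset.prod_ne_zero_iff.2 (fun j _ => pow_ne_zero _ (keydeg_u_ne_zero i j)), ?_, ?_⟩
      · rw [keydeg_map_prod, hQ]; ring
      · intro e he
        have h2 := hQd e he
        have h3 : (e i : ℤ) ≤ (Finsupp.degree e : ℕ) := by
          exact_mod_cast Finsupp.le_degree i e
        have h4 := hcon l' hl1 hl2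
        rw [keydeg_degreeOf_prod]
        have hk : ∀ k : κ, M (some k) =
            flr a α (Finset.univ.filter fun s => l' s = k).card (some k) := by
          intro k
          rw [hM]
          simp only [cnt]
          congr 3
          ext s
          simp
        have hMi : M (some i) = 0 := by
          rw [hk]
          have : (Finset.univ.filter fun s => l' s = i) = ∅ := by
            rw [Finset.filter_eq_empty_iff]
            intro s _ hs
            by_cases hsS : s ∈ S
            · rw [hl1 s hsS] at hs; exact hi hs.symm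
            · rcases hl2 s hsS with h | h
              · rw [h] at hs; exact hli s hsS hs
              · rw [h] at hs; exact hi hs.symm
          rw [this, Finset.card_empty, hflr0]
        have h5 : (∑ j, (M j : ℤ)) = M none + ∑ k ∈ Finset.univ.erase i, (M (some k) : ℤ) := by
          rw [Fintype.sum_option, ← Finset.add_sum_erase _ _ (Finset.mem_univ i), hMi]
          simp
        have h6 : ∑ k ∈ Finset.univ.erase i, (M (some k) : ℤ) =
            ∑ k ∈ Finset.univ.erase i,
              (flr a α (Finset.univ.filter fun s => l' s = k).card (some k) : ℤ) :=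
          Finset.sum_congr rfl (fun k _ => by rw [hk])
        have h7 : ((Finsupp.degree e : ℕ) : ℤ) = (∑ j, (M j : ℤ)) - m - A0 := h2
        rw [h5, h6] at h7
        push_cast
        rw [hMi]
        push_cast
        linarith) (Finset.univ.filter fun s => s ∉ S) (by intro s hs; simpa using hs)
      (fun s => if s ∈ S then l0 else l s) (by intro s hs; simp [hs]) (by
        intro s hs; left; simp [hs])
    convert h1 using 2
    funext s
    unfold wv W3
    by_cases hs : s ∈ S
    · simp [hs]
    · simp [hs]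
  -- conclusion
  have hfin := keydeg_compare hup (f' := Q0 * (u (some i)) ^ S.card)
    (g' := (u none) ^ S.card * ∏ j, (u j) ^ M0 j)
    (mul_ne_zero hQ00 (pow_ne_zero _ (keydeg_u_ne_zero i _)))
    (mul_ne_zero (pow_ne_zero _ (keydeg_u_ne_zero i _))
      (Finset.prod_ne_zero_iff.2 (fun j _ => pow_ne_zero _ (keydeg_u_ne_zero i j)))) (by
      rw [map_mul, map_mul, keydeg_map_prod, hQ0, map_pow, map_pow]
      change G (wv (W3 l0 S l)) * ((pu none) ^ S.card * ∏ j, pu j ^ M0 j) =
        (∏ j, pu j ^ M0 j) * G (wv (W0 l0 i S l)) * (pu (some i)) ^ S.card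
      calc G (wv (W3 l0 S l)) * ((pu none) ^ S.card * ∏ j, pu j ^ M0 j) =
          ((pu none) ^ S.card * G (wv (W3 l0 S l))) * ∏ j, pu j ^ M0 j := by ring
        _ = _ := by rw [← hrel]; ring)
  rw [degreeOf_mul_eq hQ00 (pow_ne_zero _ (keydeg_u_ne_zero i _)),
    degreeOf_mul_eq (pow_ne_zero _ (keydeg_u_ne_zero i _))
      (Finset.prod_ne_zero_iff.2 (fun j _ => pow_ne_zero _ (keydeg_u_ne_zero i j))),
    degreeOf_pow_eq _ _ _ (keydeg_u_ne_zero i _), degreeOf_pow_eq _ _ _ (keydeg_u_ne_zero i _),
    keydeg_degreeOf_none, keydeg_degreeOf_prod] at hfin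
  have hX : degreeOf i (u (some i) : A κ) = 1 := by
    simp only [u]
    rw [degreeOf_X]
    simp
  have hM00 : M0 none = 0 := by
    simp only [hM0, c00, hflr0]
  have hM0i : M0 (some i) = flr a α S.card (some i) := by
    simp only [hM0, c0i]
  have hM30 : M3 none = flr a α S.card none := by
    simp only [hM3, c30]
  rw [hX, hM00, hM0i] at hfin
  rw [hM30] at hlow
  push_cast at hfin
  omega

end Pool.Agent.Work.MP_4329d7_ag.FF
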