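import Mathlib
import Pool.Agent.Work.MP_4329d7_ag.FF.Setup

/-!
KeyLin: pure linear algebra over a field `K` (here `V = κ → K`).
Put `ε_k = Pi.single k 1 = pairVec (some k) none`, `e_l = pairVec (some l) (some l0) = ε_l - ε_{l0}`.
-/

namespace Pool.Agent.Work.MP_4329d7_ag.FF

variable {K : Type} [Field K] {κ : Type} [Fintype κ] [DecidableEq κ] {m : ℕ}

/-- decomposition of a vector along `U` and the `e_l` -/
lemma KeyLin_decomp (U : κ → K) (l0 : κ) (hU : ∑ k, U k ≠ 0) (v : κ → K) :
    v = ((∑ k, v k) / ∑ k, U k) • U +
      ∑ l, (v l - ((∑ k, v k) / ∑ k, U k) * U l) • pairVec (some l) (some l0) := by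
  set a := (∑ k, v k) / ∑ k, U k with ha
  have hsum : ∑ l, (v l - a * U l) = 0 := by
    rw [Finset.sum_sub_distrib, ← Finset.mul_sum, ha, div_mul_cancel₀ _ hU, sub_self]
  funext k
  simp only [Pi.add_apply, Pi.smul_apply, Finset.sum_apply, smul_eq_mul, pairVec,
    Option.some.injEq, mul_sub, Finset.sum_sub_distrib]
  rw [← Finset.sum_mul, hsum, zero_mul, sub_zero]
  simp

/-- Some word in the letters `e_l` (`l ≠ l0`) has a nonzero value.
HINT: `U` and the `e_l`, `l ≠ l0`, span `κ → K`: the `e_l` span the vectors of coordinate sum `0`
(`v = ∑_l v_l e_l` if `∑ v = 0`), and `∑ U ≠ 0`. If all words vanish, then `G = 0` by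
multilinearity in each slot (e.g. `Basis.ext_multilinear` with the basis
`b l0 = U`, `b l = e_l`; a slot with `U` gives `0` by `hG`). -/
theorem exists_word (U : κ → K) (l0 : κ) (hU : ∑ k, U k ≠ 0)
    (G : MultilinearMap K (fun _ : Fin m => κ → K) K)
    (hG : ∀ v s, G (Function.update v s U) = 0) (hne : G ≠ 0) :
    ∃ w : Fin m → κ, (∀ s, w s ≠ l0) ∧
      G (fun s => pairVec (some (w s)) (some l0)) ≠ 0 := by
  by_contra hcon
  push Not at hcon
  apply hne
  refine MultilinearMap.ext fun v => ?_
  change G v = 0
  set c : Fin m → Option κ → K := fun s o => match o with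
    | none => (∑ k, v s k) / ∑ k, U k
    | some l => v s l - ((∑ k, v s k) / ∑ k, U k) * U l with hc
  set g : Option κ → κ → K := fun o => match o with
    | none => U
    | some l => pairVec (some l) (some l0) with hg
  have hv : v = fun s => ∑ o : Option κ, c s o • g o := by
    funext s
    rw [Fintype.sum_option]
    exact KeyLin_decomp U l0 hU (v s)
  rw [hv, MultilinearMap.map_sum]
  refine Finset.sum_eq_zero fun r _ => ?_
  rw [MultilinearMap.map_smul_univ]
  have h0 : G (fun s => g (r s)) = 0 := by
    by_cases h1 : ∃ s, r s = none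
    · obtain ⟨s, hs⟩ := h1
      have h2 : (fun s => g (r s)) = Function.update (fun s => g (r s)) s U := by
        rw [eq_comm, Function.update_eq_self_iff, hs]
      rw [h2]
      exact hG _ s
    · push Not at h1
      choose w hw using fun s => Option.ne_none_iff_exists'.1 (h1 s)
      by_cases h2 : ∃ s, w s = l0
      · obtain ⟨s, hs⟩ := h2
        refine G.map_coord_zero s ?_
        rw [hw s, hs]
        funext k
        simp [hg, pairVec]
      · push Not at h2
        have h3 := hcon w h2
        rw [← h3]
        congr 1
        funext s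
        rw [hw s]
  rw [h0, smul_zero]

/-- The minimal set `S`.
HINT: call a finset `S ⊆ {s | w s = i}` admissible if there are `v : Fin m → κ → K` and
`l : Fin m → κ` with `l s ≠ l0` for all `s`, `l s ≠ i` for `s ∉ S`, `l s = w s` if `w s ≠ i`, and
`G (fun s => if s ∈ S then v s else e_{l s}) ≠ 0`. The full set `{s | w s = i}` is admissible
(`v s = e_i`, `l = w`). Take `S` of minimal cardinality, with its `v, l`. Minimality gives: for
`s ∈ S` and any `v' : Fin m → κ → K`, if `v' s = e_k` with `k ≠ i, k ≠ l0` then
`G (if · ∈ S then v' · else e_{l ·}) = 0` (else `S.erase s` would be admissible, with `l` updated at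
`s` to `k`). With `hG` and linearity, the same holds if `v' s` lies in the span `Z` of `U` and the
`e_k`, `k ∉ {i, l0}`. `V / Z` is one-dimensional, spanned by `e_i`; and
`U i • e_i - (-∑ U) • ε_{l0} = U - ∑_{k ∉ {i,l0}} U_k e_k ∈ Z`. So replacing slot by slot gives
(1) `G (W0) ≠ 0` (every `v s` is a multiple of `e_i` mod `Z`: `e_i`, `Z` span `V`), and
(2) the relation `U_i ^ |S| G(W0) = (-∑U) ^ |S| G(W3)`. -/
theorem key_lin (U : κ → K) (l0 : κ) (hU : ∑ k, U k ≠ 0)
    (G : MultilinearMap K (fun _ : Fin m => κ → K) K)
    (hG : ∀ v s, G (Function.update v s U) = 0)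
    (w : Fin m → κ) (hw : ∀ s, w s ≠ l0)
    (hne : G (fun s => pairVec (some (w s)) (some l0)) ≠ 0) (i : κ) (hi : i ≠ l0) :
    ∃ (S : Finset (Fin m)) (l : Fin m → κ),
      (∀ s ∈ S, w s = i) ∧ (∀ s, l s ≠ l0) ∧ (∀ s, s ∉ S → l s ≠ i) ∧
      (∀ s, w s ≠ i → l s = w s) ∧
      G (wv (W0 l0 i S l)) ≠ 0 ∧
      U i ^ S.card * G (wv (W0 l0 i S l)) = (-∑ k, U k) ^ S.card * G (wv (W3 l0 S l)) := by
  classical
  set e : κ → κ → K := fun l => pairVec (some l) (some l0) with he
  set Adm : Finset (Fin m) → Prop := fun S => (∀ s ∈ S, w s = i) ∧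
    ∃ (v : Fin m → κ → K) (l : Fin m → κ), (∀ s, l s ≠ l0) ∧ (∀ s, s ∉ S → l s ≠ i) ∧
      (∀ s, w s ≠ i → l s = w s) ∧ G (fun s => if s ∈ S then v s else e (l s)) ≠ 0 with hAdm
  have hfull : Adm (Finset.univ.filter fun s => w s = i) := by
    refine ⟨fun s hs => (Finset.mem_filter.1 hs).2, fun _ => e i, w, hw, fun s hs => ?_,
      fun s _ => rfl, ?_⟩
    · simpa using hs
    · have : (fun s => if s ∈ Finset.univ.filter (fun s => w s = i) then e i else e (w s)) =
          fun s => e (w s) := by
        funext s
        split_ifs with h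
        · rw [(Finset.mem_filter.1 h).2]
        · rfl
      rw [this]
      exact hne
  obtain ⟨S, hS, hmin⟩ := Finset.exists_min_image (Finset.univ.filter Adm) Finset.card
    ⟨_, Finset.mem_filter.2 ⟨Finset.mem_univ _, hfull⟩⟩
  obtain ⟨hSi, v, l, hl0, hli, hlw, hGv⟩ := (Finset.mem_filter.1 hS).2
  set fam : (Fin m → κ → K) → Fin m → κ → K := fun v' s => if s ∈ S then v' s else e (l s)
    with hfam
  have hup : ∀ (v' : Fin m → κ → K) (s : Fin m) (x : κ → K), s ∈ S →
      Function.update (fam v') s x = fam (Function.update v' s x) := by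
    intro v' s x hs
    funext t
    by_cases hts : t = s
    · subst hts
      simp [hfam, hs]
    · rw [Function.update_of_ne hts]
      simp only [hfam]
      rw [Function.update_of_ne hts]
  -- vectors killed
  set Z : Submodule K (κ → K) :=
    Submodule.span K ({U} ∪ {x | ∃ k, k ≠ i ∧ k ≠ l0 ∧ x = e k}) with hZ
  have hkill : ∀ s ∈ S, ∀ x ∈ Z, ∀ v' : Fin m → κ → K, G (Function.update (fam v') s x) = 0 := by
    intro s hs x hx v'
    refine Submodule.span_induction (p := fun x _ => G (Function.update (fam v') s x) = 0)
      ?_ ?_ ?_ ?_ hx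
    · rintro x (hx | ⟨k, hki, hk0, rfl⟩)
      · rw [Set.mem_singleton_iff] at hx
        subst hx
        exact hG _ s
      · by_contra hcon
        have hadm : Adm (S.erase s) := by
          refine ⟨fun t ht => hSi t (Finset.mem_of_mem_erase ht), Function.update v' s (e k),
            Function.update l s k, fun t => ?_, fun t ht => ?_, fun t ht => ?_, ?_⟩
          · by_cases hts : t = s
            · subst hts; rw [Function.update_self]; exact hk0
            · rw [Function.update_of_ne hts]; exact hl0 t
          · by_cases hts : t = s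
            · subst hts; rw [Function.update_self]; exact hki
            · rw [Function.update_of_ne hts]
              exact hli t fun h => ht (Finset.mem_erase.2 ⟨hts, h⟩)
          · by_cases hts : t = s
            · subst hts; exact absurd (hSi t hs) ht
            · rw [Function.update_of_ne hts]; exact hlw t ht
          · have : (fun t => if t ∈ S.erase s then Function.update v' s (e k) t
                else e (Function.update l s k t)) = Function.update (fam v') s (e k) := by
              funext t
              by_cases hts : t = s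
              · subst hts
                simp
              · rw [Function.update_of_ne hts, Function.update_of_ne hts,
                  Function.update_of_ne hts]
                simp only [hfam, Finset.mem_erase]
                by_cases htS : t ∈ S
                · rw [if_pos ⟨hts, htS⟩, if_pos htS]
                · rw [if_neg (fun h => htS h.2), if_neg htS]
            rw [this]
            exact hcon
        have h1 := hmin _ (Finset.mem_filter.2 ⟨Finset.mem_univ _, hadm⟩)
        have h2 := Finset.card_erase_lt_of_mem hs
        omega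
    · exact G.map_update_zero _ s
    · intro x y _ _ hx hy
      rw [G.map_update_add, hx, hy, add_zero]
    · intro c x _ hx
      rw [G.map_update_smul, hx, smul_zero]
  -- replacing slots modulo `Z`
  have hrep : ∀ v1 v2 : Fin m → κ → K, (∀ s ∈ S, v1 s - v2 s ∈ Z) →
      G (fam v1) = G (fam v2) := by
    intro v1 v2 h12
    have h : ∀ T : Finset (Fin m), G (fam fun s => if s ∈ T then v2 s else v1 s) =
        G (fam v1) := by
      intro T
      induction T using Finset.induction_on with
      | empty => simp
      | insert s T hsT ih =>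
        by_cases hs : s ∈ S
        · have e1 : fam (fun t => if t ∈ insert s T then v2 t else v1 t) =
              Function.update (fam fun t => if t ∈ T then v2 t else v1 t) s (v2 s) := by
            rw [hup _ _ _ hs]
            congr 1
            funext t
            by_cases hts : t = s
            · subst hts; simp
            · rw [Function.update_of_ne hts]
              simp [Finset.mem_insert, hts]
          have e2 : fam (fun t => if t ∈ T then v2 t else v1 t) =
              Function.update (fam fun t => if t ∈ T then v2 t else v1 t) s (v1 s) := by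
            rw [eq_comm, Function.update_eq_self_iff]
            simp [hfam, hs, hsT]
          have e3 := hkill s hs _ (h12 s hs) (fun t => if t ∈ T then v2 t else v1 t)
          rw [G.map_update_sub, sub_eq_zero, ← e2, ← e1] at e3
          rw [← e3, ih]
        · have e1 : fam (fun t => if t ∈ insert s T then v2 t else v1 t) =
              fam fun t => if t ∈ T then v2 t else v1 t := by
            funext t
            simp only [hfam]
            by_cases htS : t ∈ S
            · have hts : t ≠ s := fun h => hs (h ▸ htS)
              simp [htS, Finset.mem_insert, hts]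
            · simp [htS]
          rw [e1, ih]
    have h1 := h Finset.univ
    simp only [Finset.mem_univ, if_true] at h1
    exact h1.symm
  have hsmul : ∀ (c : Fin m → K) (x : κ → K), G (fam fun s => c s • x) =
      (∏ s ∈ S, c s) * G (fam fun _ => x) := by
    intro c x
    have e1 : (fam fun s => c s • x) = fun s => (if s ∈ S then c s else 1) •
        (fam fun _ => x) s := by
      funext s
      simp only [hfam]
      split_ifs
      · rfl
      · rw [one_smul]
    rw [e1, MultilinearMap.map_smul_univ, smul_eq_mul]
    congr 1
    rw [Finset.prod_ite_mem, Finset.univ_inter]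
  have hW0 : (wv (W0 l0 i S l) : Fin m → κ → K) = fam fun _ => e i := by
    funext s
    simp only [wv, W0, hfam, he]
    split_ifs <;> rfl
  have hW3 : (wv (W3 l0 S l) : Fin m → κ → K) = fam fun _ => pairVec (some l0) none := by
    funext s
    simp only [wv, W3, hfam, he]
    split_ifs <;> rfl
  have he0 : e l0 = 0 := by
    funext k
    simp [he, pairVec]
  have hdec : ∀ x : κ → K, x - (x i - ((∑ k, x k) / ∑ k, U k) * U i) • e i ∈ Z := by
    intro x
    have h1 := KeyLin_decomp U l0 hU x
    set a := (∑ k, x k) / ∑ k, U k with ha
    have h2 : x - (x i - a * U i) • e i = a • U + ∑ l ∈ Finset.univ.erase i,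
        (x l - a * U l) • e l := by
      rw [sub_eq_iff_eq_add, add_assoc, Finset.sum_erase_add _ _ (Finset.mem_univ i)]
      exact h1
    rw [h2]
    refine Z.add_mem (Z.smul_mem _ (Submodule.subset_span (Or.inl rfl)))
      (Z.sum_mem fun k hk => ?_)
    by_cases hk0 : k = l0
    · rw [hk0, he0, smul_zero]; exact Z.zero_mem
    · exact Z.smul_mem _ (Submodule.subset_span (Or.inr ⟨k, Finset.ne_of_mem_erase hk, hk0, rfl⟩))
  refine ⟨S, l, hSi, hl0, hli, hlw, ?_, ?_⟩
  · rw [hW0]
    intro hcon
    apply hGv
    have h1 := hrep v (fun s => (v s i - ((∑ k, v s k) / ∑ k, U k) * U i) • e i)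
      (fun s _ => hdec (v s))
    change G (fam v) = 0
    rw [h1, hsmul, hcon, mul_zero]
  · rw [hW0, hW3]
    have h1 := hsmul (fun _ => U i) (e i)
    have h2 := hsmul (fun _ => -∑ k, U k) (pairVec (some l0) none)
    rw [Finset.prod_const] at h1 h2
    rw [← h1, ← h2]
    refine hrep _ _ fun s _ => ?_
    have h3 := hdec ((-∑ k, U k) • pairVec (some l0) none : κ → K)
    have h4 : ((-∑ k, U k) • pairVec (some l0) none : κ → K) i -
        ((∑ k, ((-∑ k, U k) • pairVec (some l0) none : κ → K) k) / ∑ k, U k) * U i = U i := by
      have h5 : ((-∑ k, U k) • pairVec (some l0) none : κ → K) i = 0 := by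
        simp [pairVec, hi.symm]
      have h6 : ∑ k, ((-∑ k, U k) • pairVec (some l0) none : κ → K) k = -∑ k, U k := by
        simp [pairVec]
      rw [h5, h6, neg_div, div_self hU]
      ring
    rw [h4] at h3
    have h7 := Z.neg_mem h3
    rwa [neg_sub] at h7

end Pool.Agent.Work.MP_4329d7_ag.FF
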