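import Mathlib
import Pool.Agent.Work.MP_4329d7_ag.FF.KeyLin
import Pool.Agent.Work.MP_4329d7_ag.FF.KeyDeg
import Pool.Agent.Work.MP_4329d7_ag.FF.KeyArith

/-!
Key theorem (assembly).
-/

open MvPolynomial

namespace Pool.Agent.Work.MP_4329d7_ag.FF

variable {κ : Type} [Fintype κ] [DecidableEq κ] {m : ℕ}

lemma pu_none_eq : (pu none : P κ) = -∑ k : κ, pu (some k) := by
  simp [pu, u, map_neg, map_sum]

/-- The key theorem. -/
theorem key (a α : Option κ → ℕ) (A0 : ℕ) (l0 : κ)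
    (G : MultilinearMap (P κ) (fun _ : Fin m => κ → P κ) (P κ)) (hG : GoodForm a α A0 m G)
    (hcard : 2 ≤ Fintype.card κ)
    (ha : ∀ j, 2 ≤ a j) (hsum : ∑ j, (1 : ℚ) / a j = 1) (hα : ∀ j, α j < a j)
    (hA : ∑ j, (α j : ℚ) / a j = A0) (hmin : ∀ j, a (some l0) ≤ a j) (hne : G ≠ 0) :
    ∃ k : ℕ, m = (Fintype.card κ - 1) * k ∧ ∀ j, (a j : ℤ) ∣ (k : ℤ) - α j := by
  have hU : ∑ k : κ, (uvec k : P κ) ≠ 0 := by
    have h1 : (pu none : P κ) = -∑ k : κ, uvec k := pu_none_eq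
    intro h
    rw [h, neg_zero] at h1
    have h2 : (u none : A κ) = 0 := by
      have := IsFractionRing.injective (A κ) (P κ)
      apply this
      rw [map_zero]; exact h1
    have h3 := congrArg (MvPolynomial.aeval (fun k : κ => if k = l0 then (1 : ℂ) else 0)) h2
    simp [u] at h3
  obtain ⟨w, hw, hwne⟩ := exists_word uvec l0 hU G hG.euler hne
  refine key_pigeon a α A0 l0 hcard ha hsum hA w hw ?_
  intro i hi
  obtain ⟨S, l, hS, hl0, hli, hlw, hne0, hrel⟩ := key_lin uvec l0 hU G hG.euler w hw hwne i hi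
  have hrel' : pu (some i) ^ S.card * G (wv (W0 l0 i S l)) =
      pu none ^ S.card * G (wv (W3 l0 S l)) := by
    rw [pu_none_eq]; exact hrel
  obtain ⟨l', h1, h2, H⟩ := key_deg a α A0 l0 i hi G hG ha hα S l hl0 hli hne0 hrel'
  exact ⟨S, l, hS, hl0, hli, hlw, key_ineq a α A0 l0 i hi ha hsum hA hmin S l l' hli h1 h2 H⟩

end Pool.Agent.Work.MP_4329d7_ag.FF
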