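import Mathlib
import Pool.Agent.Work.MP_4329d7_ag.FF.Setup
import Pool.Agent.Work.MP_4329d7_ag.Ext

/-!
LocVar: a generic zero of an irreducible polynomial.
-/

open MvPolynomial

set_option linter.unusedSectionVars false

namespace Pool.Agent.Work.MP_4329d7_ag.FF

variable {κ : Type} [Fintype κ] [DecidableEq κ]

omit [Fintype κ] [DecidableEq κ] in
theorem LocVar_dvd {π f : A κ} {i : κ} (hf : f ≠ 0) (h : π ∣ f) :
    degreeOf i π ≤ degreeOf i f := by
  obtain ⟨g, rfl⟩ := h
  have h1 : π ≠ 0 := left_ne_zero_of_mul hf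
  have h2 : g ≠ 0 := right_ne_zero_of_mul hf
  rw [degreeOf_mul_eq h1 h2]
  exact Nat.le_add_right _ _

omit [Fintype κ] [DecidableEq κ] in
theorem LocVar_pderiv_lt {π : A κ} {i : κ} (h : 0 < degreeOf i π) :
    degreeOf i (pderiv i π) < degreeOf i π := by
  rw [degreeOf_lt_iff h]
  intro m hm
  rw [mem_support_iff, coeff_pderiv] at hm
  have h1 : coeff (m + Finsupp.single i 1) π ≠ 0 := left_ne_zero_of_mul hm
  have h2 := monomial_le_degreeOf i (mem_support_iff.2 h1)
  rw [Finsupp.add_apply, Finsupp.single_eq_same] at h2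
  omega

omit [Fintype κ] [DecidableEq κ] in
theorem LocVar_pderiv_ne {π : A κ} {i : κ} (h : 0 < degreeOf i π) : pderiv i π ≠ 0 := by
  intro h0
  have h1 : ¬ degreeOf i π < degreeOf i π := lt_irrefl _
  rw [degreeOf_lt_iff h] at h1
  push Not at h1
  obtain ⟨m, hm, h2⟩ := h1
  have h3 : 1 ≤ m i := by omega
  have h4 : m - Finsupp.single i 1 + Finsupp.single i 1 = m := by
    ext l
    rw [Finsupp.add_apply, Finsupp.tsub_apply]
    by_cases hl : i = l
    · subst hl
      rw [Finsupp.single_eq_same]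
      omega
    · rw [Finsupp.single_eq_of_ne (Ne.symm hl)]
      omega
  have h5 := coeff_pderiv (i := i) π (m - Finsupp.single i 1)
  rw [h0, h4, coeff_zero] at h5
  have h6 : coeff m π ≠ 0 := mem_support_iff.1 hm
  have h7 : (((m - Finsupp.single i 1 : κ →₀ ℕ) i : ℕ) : ℂ) + 1 ≠ 0 :=
    Nat.cast_add_one_ne_zero _
  exact mul_ne_zero h6 h7 h5.symm

omit [Fintype κ] [DecidableEq κ] in
theorem LocVar_exists_deg {π : A κ} (hπ : Prime π) : ∃ i, 0 < degreeOf i π := by
  classical
  by_contra hcon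
  push Not at hcon
  have h1 : π = C (coeff 0 π) := by
    ext m
    rw [coeff_C]
    split_ifs with h
    · rw [h]
    · by_contra h2
      apply h
      have h3 : m ∈ π.support := mem_support_iff.2 h2
      ext l
      have h4 := monomial_le_degreeOf l h3
      have h5 := hcon l
      rw [Finsupp.zero_apply]
      omega
  apply hπ.not_isUnit
  rw [h1]
  apply IsUnit.map
  rw [isUnit_iff_ne_zero]
  intro h0
  apply hπ.ne_zero
  rw [h1, h0, map_zero]

omit [Fintype κ] [DecidableEq κ] in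
theorem LocVar_rename {i : κ} (f : MvPolynomial {l : κ // l ≠ i} ℂ) :
    degreeOf i (rename (Subtype.val : {l : κ // l ≠ i} → κ) f) = 0 := by
  classical
  rw [degreeOf_def, Multiset.count_eq_zero]
  intro h
  have h1 : i ∈ (rename (Subtype.val : {l : κ // l ≠ i} → κ) f).vars := by
    rw [vars_def, Multiset.mem_toFinset]
    exact h
  obtain ⟨j, _, hj⟩ := mem_vars_rename _ _ h1
  exact j.2 hj

omit [Fintype κ] in
/-- A generic zero `ρ` of the prime `π` in an algebraically closed field. -/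
theorem LocVar_main (π : A κ) (hπ : Prime π) :
    ∃ (E : Type) (_ : Field E) (_ : Algebra ℂ E) (_ : IsAlgClosed E) (i : κ) (ρ : κ → E),
      aeval ρ π = 0 ∧ (∀ f : A κ, aeval ρ f = 0 → π ∣ f) ∧ aeval ρ (pderiv i π) ≠ 0 ∧
      ∀ v : κ → ℂ, ∃ d : Derivation ℂ E E, ∀ l, l ≠ i → d (ρ l) = algebraMap ℂ E (v l) := by
  classical
  obtain ⟨i, hi⟩ := LocVar_exists_deg hπ
  let I : Ideal (A κ) := Ideal.span {π}
  have hI : I.IsPrime := (Ideal.span_singleton_prime hπ.ne_zero).mpr hπ
  let Q := A κ ⧸ I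
  have : IsDomain Q := Ideal.Quotient.isDomain I
  let K := FractionRing Q
  let E := AlgebraicClosure K
  let φ : A κ →ₐ[ℂ] E := (IsScalarTower.toAlgHom ℂ K E).comp
    ((IsScalarTower.toAlgHom ℂ Q K).comp (Ideal.Quotient.mkₐ ℂ I))
  have hφ : ∀ f : A κ, φ f = 0 → π ∣ f := by
    intro f hf
    have h1 : algebraMap K E (algebraMap Q K (Ideal.Quotient.mk I f)) = 0 := hf
    have h2 := (map_eq_zero (algebraMap K E)).1 h1
    have h3 := (IsFractionRing.injective Q K) (h2.trans (map_zero _).symm)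
    rw [Ideal.Quotient.eq_zero_iff_mem] at h3
    exact Ideal.mem_span_singleton.1 h3
  have hφ0 : φ π = 0 := by
    have h1 : φ π = algebraMap K E (algebraMap Q K (Ideal.Quotient.mk I π)) := rfl
    rw [h1, Ideal.Quotient.eq_zero_iff_mem.2 (Ideal.mem_span_singleton_self π), map_zero, map_zero]
  let ρ : κ → E := fun l => φ (X l)
  have hρ : ∀ f : A κ, aeval ρ f = φ f := by
    intro f
    have : aeval ρ = φ := by
      apply MvPolynomial.algHom_ext
      intro l
      rw [aeval_X]
    rw [this]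
  refine ⟨E, inferInstance, inferInstance, inferInstance, i, ρ, ?_, ?_, ?_, ?_⟩
  · rw [hρ, hφ0]
  · intro f hf
    rw [hρ] at hf
    exact hφ f hf
  · intro h
    rw [hρ] at h
    have h1 := LocVar_dvd (i := i) (LocVar_pderiv_ne hi) (hφ _ h)
    exact absurd (LocVar_pderiv_lt hi) (not_lt.2 h1)
  · -- algebraic independence
    let y : {l : κ // l ≠ i} → E := fun l => ρ l.1
    have hy : AlgebraicIndependent ℂ y := by
      rw [algebraicIndependent_iff]
      intro f hf
      have h1 : aeval ρ (rename (Subtype.val : {l : κ // l ≠ i} → κ) f) = 0 := by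
        rw [aeval_rename]
        exact hf
      rw [hρ] at h1
      by_contra hne
      have h2 : rename (Subtype.val : {l : κ // l ≠ i} → κ) f ≠ 0 := by
        intro h3
        exact hne (rename_injective _ Subtype.val_injective (h3.trans (map_zero _).symm))
      have h3 := LocVar_dvd (i := i) h2 (hφ _ h1)
      rw [LocVar_rename] at h3
      omega
    obtain ⟨s, hs, hsb⟩ := exists_isTranscendenceBasis_superset (R := ℂ)
      ((AlgebraicIndependent.coe_range hy : AlgebraicIndepOn ℂ id (Set.range y)))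
    intro v
    let g : s → E := fun x => if h : ∃ l : {l : κ // l ≠ i}, y l = x.1 then
      algebraMap ℂ E (v h.choose.1) else 0
    obtain ⟨d, hd⟩ := R.exists_derivation (M := E) hsb g
    refine ⟨d, fun l hl => ?_⟩
    have h2 := hd ⟨y ⟨l, hl⟩, hs ⟨⟨l, hl⟩, rfl⟩⟩
    have h3 : ∃ l' : {l : κ // l ≠ i}, y l' = y ⟨l, hl⟩ := ⟨_, rfl⟩
    have h4 : g ⟨y ⟨l, hl⟩, hs ⟨⟨l, hl⟩, rfl⟩⟩ = algebraMap ℂ E (v h3.choose.1) := by
      simp only [g, dif_pos h3]
    rw [h4] at h2
    have h5 : h3.choose = ⟨l, hl⟩ := hy.injective h3.choose_spec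
    rw [h5] at h2
    exact h2

/-- A generic zero `ρ` of the prime `π` in an algebraically closed field: `π` involves the variable
`X_i`, `∂π/∂X_i (ρ) ≠ 0`, and derivations with arbitrary constant values on the `ρ_l`, `l ≠ i`. -/
theorem exists_generic_zero (π : A κ) (hπ : Prime π) :
    ∃ (E : Type) (_ : Field E) (_ : Algebra ℂ E) (_ : IsAlgClosed E) (i : κ) (ρ : κ → E),
      aeval ρ π = 0 ∧ (∀ f : A κ, aeval ρ f = 0 → π ∣ f) ∧ aeval ρ (pderiv i π) ≠ 0 ∧
      ∀ v : κ → ℂ, ∃ d : Derivation ℂ E E, ∀ l, l ≠ i → d (ρ l) = algebraMap ℂ E (v l) :=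
  LocVar_main π hπ

end Pool.Agent.Work.MP_4329d7_ag.FF
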