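import Mathlib

/-!
Roots and derivations of power series.
-/

namespace Pool.Agent.Work.MP_4329d7_ag.FF

theorem PSRoot_pow {E : Type} [Field E] [CharZero E] (r : ℚ) (n : ℕ) :
    (PowerSeries.binomialSeries E r) ^ n = PowerSeries.binomialSeries E ((n : ℚ) * r) := by
  induction n with
  | zero => simp
  | succ n ih =>
    rw [pow_succ, ih, ← PowerSeries.binomialSeries_add]
    congr 1
    push_cast
    ring

/-- HINT: any route. (i) The binomial series: `PowerSeries.binomialSeries`
(`Mathlib/RingTheory/PowerSeries/Binomial.lean`) gives `(1 + X)^(1/n)` with `n`-th power `1 + X`;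
write `f = c (1 + g)`, `g` of constant coefficient `0`, `c = d ^ n` (`IsAlgClosed.exists_pow_nat_eq`),
and substitute (`PowerSeries.subst`, `HasSubst.of_constantCoeff_zero`); (ii) Hensel;
(iii) recursion on the coefficients. -/
theorem exists_ps_root {E : Type} [Field E] [IsAlgClosed E] [CharZero E] (f : PowerSeries E)
    (hf : PowerSeries.constantCoeff f ≠ 0) (n : ℕ) (hn : 0 < n) :
    ∃ g : PowerSeries E, g ^ n = f := by
  obtain ⟨d, hd⟩ := IsAlgClosed.exists_pow_nat_eq (PowerSeries.constantCoeff f) hn
  set c := PowerSeries.constantCoeff f with hc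
  let g : PowerSeries E := PowerSeries.C c⁻¹ * f - 1
  have hg0 : PowerSeries.constantCoeff g = 0 := by
    simp only [g, map_sub, map_mul, PowerSeries.constantCoeff_C, map_one]
    rw [← hc, inv_mul_cancel₀ hf, sub_self]
  have hs : PowerSeries.HasSubst g := PowerSeries.HasSubst.of_constantCoeff_zero hg0
  have h1 : (PowerSeries.binomialSeries E (1 / (n : ℚ))) ^ n = 1 + PowerSeries.X := by
    rw [PSRoot_pow]
    have h2 : (n : ℚ) * (1 / (n : ℚ)) = ((1 : ℕ) : ℚ) := by
      have : (n : ℚ) ≠ 0 := by exact_mod_cast hn.ne'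
      rw [mul_one_div_cancel this]
      simp
    rw [h2, PowerSeries.binomialSeries_nat]
    simp
  refine ⟨PowerSeries.C d * PowerSeries.substAlgHom (R := E) hs
    (PowerSeries.binomialSeries E (1 / (n : ℚ))), ?_⟩
  rw [mul_pow, ← map_pow, hd, ← map_pow, h1, map_add, map_one, PowerSeries.coe_substAlgHom,
    PowerSeries.subst_X hs]
  simp only [g]
  rw [add_sub_cancel, ← mul_assoc, ← map_mul, mul_inv_cancel₀ hf, map_one, one_mul]

/-- Coefficientwise derivation.
HINT: `Derivation.mk'` with the linear map `f ↦ PowerSeries.mk fun n => d (coeff n f)`;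
Leibniz from `PowerSeries.coeff_mul` and `map_sum`. -/
theorem exists_coeff_der {E : Type} [Field E] [Algebra ℂ E] (d : Derivation ℂ E E) :
    ∃ Δ : Derivation ℂ (PowerSeries E) (PowerSeries E),
      ∀ f n, PowerSeries.coeff n (Δ f) = d (PowerSeries.coeff n f) := by
  let L : PowerSeries E →ₗ[ℂ] PowerSeries E :=
    { toFun := fun f => PowerSeries.mk fun n => d (PowerSeries.coeff n f)
      map_add' := by
        intro f g
        ext n
        simp
      map_smul' := by
        intro c f
        ext n
        simp only [PowerSeries.coeff_mk, RingHom.id_apply]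
        have h1 : ∀ (h : PowerSeries E), PowerSeries.coeff n (c • h) = c • PowerSeries.coeff n h :=
          fun h => rfl
        rw [h1, h1, PowerSeries.coeff_mk]
        exact d.toLinearMap.map_smul c _ }
  refine ⟨Derivation.mk' L ?_, fun f n => ?_⟩
  · intro a b
    ext n
    simp only [L, LinearMap.coe_mk, AddHom.coe_mk, PowerSeries.coeff_mk, smul_eq_mul, map_add,
      PowerSeries.coeff_mul, map_sum, Derivation.leibniz]
    rw [Finset.sum_add_distrib]
    congr 1
    rw [← Finset.Nat.sum_antidiagonal_swap]
    rfl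
  · simp [L]

end Pool.Agent.Work.MP_4329d7_ag.FF
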