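import Mathlib
import Pool.Agent.Work.MP_4329d7_ag.FF.Setup
import Pool.Agent.Work.MP_4329d7_ag.FF.DerExt
import Pool.Agent.Work.MP_4329d7_ag.FF.LocVar
import Pool.Agent.Work.MP_4329d7_ag.FF.PSRoot

/-!
LocEmb: the local data at a prime (Laurent series over the field of the generic zero).
-/

set_option linter.unusedSectionVars false

open MvPolynomial
open scoped WithZero

namespace Pool.Agent.Work.MP_4329d7_ag.FF

variable {κ : Type} [Fintype κ] [DecidableEq κ]

section

variable {E : Type} [Field E] [Algebra ℂ E]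

/-- The embedding into power series. -/
noncomputable def locemb_phi (i : κ) (ρ : κ → E) (e : ℕ) : A κ →ₐ[ℂ] PowerSeries E :=
  aeval (fun l => PowerSeries.C (ρ l) + if l = i then (PowerSeries.X : PowerSeries E) ^ e else 0)

theorem locemb_algebraMap (c : ℂ) :
    algebraMap ℂ (PowerSeries E) c = PowerSeries.C (algebraMap ℂ E c) :=
  PowerSeries.algebraMap_apply

omit [Fintype κ] [DecidableEq κ] in
theorem locemb_dA_C (v : κ → ℂ) (c : ℂ) : dA v (C c : A κ) = 0 := by
  rw [← algebraMap_eq]
  exact Derivation.map_algebraMap _ c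

omit [Fintype κ] in
theorem locemb_phi_C (i : κ) (ρ : κ → E) (e : ℕ) (c : ℂ) :
    locemb_phi i ρ e (C c) = PowerSeries.C (algebraMap ℂ E c) := by
  rw [locemb_phi, aeval_C, locemb_algebraMap]

omit [Fintype κ] in
theorem locemb_phi_X (i : κ) (ρ : κ → E) (e : ℕ) (l : κ) :
    locemb_phi i ρ e (X l) =
      PowerSeries.C (ρ l) + if l = i then (PowerSeries.X : PowerSeries E) ^ e else 0 := by
  rw [locemb_phi, aeval_X]

theorem locemb_taylor (i : κ) (ρ : κ → E) (e : ℕ) (f : A κ) :
    ∃ h : PowerSeries E, locemb_phi i ρ e f = PowerSeries.C (aeval ρ f) +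
      PowerSeries.C (aeval ρ (pderiv i f)) * PowerSeries.X ^ e + PowerSeries.X ^ (2 * e) * h := by
  induction f using MvPolynomial.induction_on with
  | C c =>
    refine ⟨0, ?_⟩
    rw [locemb_phi_C, aeval_C, pderiv_C, map_zero, map_zero, zero_mul, mul_zero, add_zero, add_zero]
  | add f g hf hg =>
    obtain ⟨h1, hf⟩ := hf
    obtain ⟨h2, hg⟩ := hg
    refine ⟨h1 + h2, ?_⟩
    rw [map_add, hf, hg]
    simp only [map_add]
    ring
  | mul_X f l hf =>
    obtain ⟨h, hf⟩ := hf
    by_cases hl : l = i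
    · subst hl
      refine ⟨h * PowerSeries.C (ρ l) + PowerSeries.C (aeval ρ (pderiv l f)) +
        h * PowerSeries.X ^ e, ?_⟩
      rw [map_mul, hf, locemb_phi_X, if_pos rfl, Derivation.leibniz]
      simp only [map_mul, map_add, pderiv_X_self, smul_eq_mul, aeval_X, mul_one]
      ring
    · refine ⟨h * PowerSeries.C (ρ l), ?_⟩
      rw [map_mul, hf, locemb_phi_X, if_neg hl, Derivation.leibniz]
      simp only [map_mul, pderiv_X_of_ne hl, smul_eq_mul, aeval_X, mul_zero, zero_add,
        add_zero]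
      ring

theorem locemb_const (i : κ) (ρ : κ → E) (e : ℕ) (he : 0 < e) (f : A κ) :
    PowerSeries.constantCoeff (locemb_phi i ρ e f) = aeval ρ f := by
  obtain ⟨h, hf⟩ := locemb_taylor i ρ e f
  have he2 : 2 * e ≠ 0 := by omega
  rw [hf, map_add, map_add, map_mul, map_mul, map_pow, map_pow, PowerSeries.constantCoeff_C,
    PowerSeries.constantCoeff_X, zero_pow he.ne', zero_pow he2, mul_zero, zero_mul, add_zero,
    add_zero]

theorem locemb_zero (i : κ) (ρ : κ → E) (e : ℕ) (he : 0 < e) (f : A κ) (h0 : aeval ρ f = 0)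
    (h1 : aeval ρ (pderiv i f) ≠ 0) :
    ∃ w : PowerSeries E, PowerSeries.constantCoeff w ≠ 0 ∧
      locemb_phi i ρ e f = PowerSeries.X ^ e * w := by
  obtain ⟨h, hf⟩ := locemb_taylor i ρ e f
  refine ⟨PowerSeries.C (aeval ρ (pderiv i f)) + PowerSeries.X ^ e * h, ?_, ?_⟩
  · rw [map_add, map_mul, map_pow, PowerSeries.constantCoeff_C, PowerSeries.constantCoeff_X,
      zero_pow he.ne', zero_mul, add_zero]
    exact h1
  · rw [hf, h0, map_zero]
    ring

/-- chain rule -/
theorem locemb_chain (i : κ) (ρ : κ → E) (v : κ → ℂ) (d : Derivation ℂ E E)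
    (hd : ∀ l, l ≠ i → d (ρ l) = algebraMap ℂ E (v l)) (f : A κ) :
    d (aeval ρ f) = aeval ρ (dA v f) +
      aeval ρ (pderiv i f) * (d (ρ i) - algebraMap ℂ E (v i)) := by
  induction f using MvPolynomial.induction_on with
  | C c =>
    rw [aeval_C, Derivation.map_algebraMap, pderiv_C, locemb_dA_C, map_zero, zero_mul,
      add_zero]
  | add f g hf hg =>
    simp only [map_add, hf, hg]
    ring
  | mul_X f l hf =>
    have h1 : dA v (X l : A κ) = C (v l) := by rw [dA, mkDerivation_X]
    have h2 : aeval ρ (C (v l) : A κ) = algebraMap ℂ E (v l) := aeval_C ρ (v l)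
    by_cases hl : l = i
    · subst hl
      simp only [map_mul, map_add, Derivation.leibniz, hf, aeval_X, smul_eq_mul, pderiv_X_self,
        h1, h2, mul_one]
      ring
    · simp only [map_mul, map_add, Derivation.leibniz, hf, aeval_X, smul_eq_mul,
        pderiv_X_of_ne hl, h1, h2, mul_zero, zero_add, hd l hl]
      ring

theorem locemb_dA_u (j k p : Option κ) (hp : p ≠ j) (hk : p ≠ k) :
    dA (pairVec j k) (u p : A κ) = 0 := by
  cases p with
  | some l =>
    have h1 : u (some l) = (X l : A κ) := rfl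
    rw [h1, dA, mkDerivation_X, pairVec, if_neg (Ne.symm hp), if_neg (Ne.symm hk), sub_zero,
      C_0]
  | none =>
    have h1 : (u none : A κ) = -∑ k, X k := rfl
    obtain ⟨j', rfl⟩ := Option.ne_none_iff_exists'.1 (Ne.symm hp)
    obtain ⟨k', rfl⟩ := Option.ne_none_iff_exists'.1 (Ne.symm hk)
    rw [h1, map_neg, map_sum, neg_eq_zero]
    have h2 : ∀ l, dA (pairVec (some j') (some k')) (X l : A κ) =
        C ((if j' = l then 1 else 0) - if k' = l then 1 else 0) := by
      intro l
      rw [dA, mkDerivation_X]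
      simp [pairVec]
    simp only [h2, ← map_sum, Finset.sum_sub_distrib]
    simp

/-- the derivation of the power series ring -/
theorem locemb_der [CharZero E] (i : κ) (ρ : κ → E) (e : ℕ) (he : 0 < e) (v : κ → ℂ)
    (d : Derivation ℂ E E) (hd : ∀ l, l ≠ i → d (ρ l) = algebraMap ℂ E (v l)) :
    ∃ Δ : Derivation ℂ (PowerSeries E) (PowerSeries E), ∀ f, Δ (locemb_phi i ρ e f) =
      PowerSeries.X ^ (e - 1) * locemb_phi i ρ e (dA v f) := by
  obtain ⟨d1, hd1⟩ := exists_coeff_der d
  have hC : ∀ x : E, d1 (PowerSeries.C x) = PowerSeries.C (d x) := by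
    intro x
    ext n
    rw [hd1, PowerSeries.coeff_C, PowerSeries.coeff_C]
    split_ifs <;> simp
  have hX : ∀ n : ℕ, d1 (PowerSeries.X ^ n) = 0 := by
    intro n
    ext m
    rw [hd1, PowerSeries.coeff_X_pow]
    split_ifs <;> simp
  let d2 : Derivation ℂ (PowerSeries E) (PowerSeries E) :=
    (PowerSeries.derivative E).restrictScalars ℂ
  have h2C : ∀ x : E, d2 (PowerSeries.C x) = 0 := fun x => PowerSeries.derivative_C
  have h2X : d2 (PowerSeries.X ^ e) = (e : PowerSeries E) * PowerSeries.X ^ (e - 1) := by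
    change PowerSeries.derivative E (PowerSeries.X ^ e) = _
    rw [PowerSeries.derivative_pow, PowerSeries.derivative_X, mul_one]
  let c : E := (algebraMap ℂ E (v i) - d (ρ i)) / e
  have hc : c * e = algebraMap ℂ E (v i) - d (ρ i) := by
    have : (e : E) ≠ 0 := by exact_mod_cast he.ne'
    exact div_mul_cancel₀ _ this
  let Δ : Derivation ℂ (PowerSeries E) (PowerSeries E) :=
    (PowerSeries.X ^ (e - 1) : PowerSeries E) • d1 + (PowerSeries.C c : PowerSeries E) • d2
  have hΔ : ∀ F, Δ F = PowerSeries.X ^ (e - 1) * d1 F + PowerSeries.C c * d2 F := fun F => rfl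
  have hXl : ∀ l, Δ (locemb_phi i ρ e (X l)) =
      PowerSeries.X ^ (e - 1) * PowerSeries.C (algebraMap ℂ E (v l)) := by
    intro l
    rw [hΔ, locemb_phi_X]
    by_cases hl : l = i
    · subst hl
      rw [if_pos rfl, map_add, map_add, hC, hX, h2C, h2X, add_zero, zero_add]
      have h3 : (PowerSeries.C c : PowerSeries E) * ((e : PowerSeries E) *
          PowerSeries.X ^ (e - 1)) = PowerSeries.C (algebraMap ℂ E (v l) - d (ρ l)) *
          PowerSeries.X ^ (e - 1) := by
        rw [← hc, map_mul, map_natCast]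
        ring
      rw [h3, map_sub]
      ring
    · rw [if_neg hl, add_zero, hC, h2C, hd l hl, mul_zero, add_zero]
  refine ⟨Δ, fun f => ?_⟩
  induction f using MvPolynomial.induction_on with
  | C a =>
    rw [locemb_phi_C, ← locemb_algebraMap, Derivation.map_algebraMap, locemb_dA_C, map_zero,
      mul_zero]
  | add f g hf hg =>
    simp only [map_add, hf, hg]
    ring
  | mul_X f l hf =>
    have h1 : dA v (X l : A κ) = C (v l) := by rw [dA, mkDerivation_X]
    rw [map_mul, Derivation.leibniz, hf, hXl, Derivation.leibniz, h1]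
    simp only [smul_eq_mul, map_add, map_mul, locemb_phi_C]
    ring

/-- the derivation in the special case -/
theorem locemb_der' (i : κ) (ρ : κ → E) (e : ℕ) (v : κ → ℂ)
    (d : Derivation ℂ E E) (hd : ∀ l, d (ρ l) = algebraMap ℂ E (v l)) :
    ∃ Δ : Derivation ℂ (PowerSeries E) (PowerSeries E), ∀ f, Δ (locemb_phi i ρ e f) =
      locemb_phi i ρ e (dA v f) := by
  obtain ⟨d1, hd1⟩ := exists_coeff_der d
  have hC : ∀ x : E, d1 (PowerSeries.C x) = PowerSeries.C (d x) := by
    intro x
    ext n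
    rw [hd1, PowerSeries.coeff_C, PowerSeries.coeff_C]
    split_ifs <;> simp
  have hX : ∀ n : ℕ, d1 (PowerSeries.X ^ n) = 0 := by
    intro n
    ext m
    rw [hd1, PowerSeries.coeff_X_pow]
    split_ifs <;> simp
  have hXl : ∀ l, d1 (locemb_phi i ρ e (X l)) = PowerSeries.C (algebraMap ℂ E (v l)) := by
    intro l
    rw [locemb_phi_X]
    by_cases hl : l = i
    · rw [if_pos hl, map_add, hC, hX, hd l, add_zero]
    · rw [if_neg hl, add_zero, hC, hd l]
  refine ⟨d1, fun f => ?_⟩
  induction f using MvPolynomial.induction_on with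
  | C a =>
    rw [locemb_phi_C, ← locemb_algebraMap, Derivation.map_algebraMap, locemb_dA_C, map_zero]
  | add f g hf hg =>
    simp only [map_add, hf, hg]
  | mul_X f l hf =>
    have h1 : dA v (X l : A κ) = C (v l) := by rw [dA, mkDerivation_X]
    rw [map_mul, Derivation.leibniz, hf, hXl, Derivation.leibniz, h1]
    simp only [smul_eq_mul, map_add, map_mul, locemb_phi_C]

end

theorem locemb_u_ne (j : Option κ) (i : κ) : (u j : A κ) ≠ 0 := by
  intro h
  cases j with
  | some l =>
    have h1 : (X l : A κ) = 0 := h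
    exact X_ne_zero l h1
  | none =>
    have h1 : (-∑ k, X k : A κ) = 0 := h
    have h2 := congrArg (MvPolynomial.eval (Pi.single i (1 : ℂ))) h1
    rw [map_neg, map_sum, map_zero, neg_eq_zero] at h2
    simp at h2

omit [DecidableEq κ] in
theorem locemb_u_deg (j : Option κ) : (u j : A κ).totalDegree ≤ 1 := by
  cases j with
  | some l =>
    have h1 : u (some l) = (X l : A κ) := rfl
    rw [h1, totalDegree_X]
  | none =>
    have h1 : (u none : A κ) = -∑ k, X k := rfl
    rw [h1, totalDegree_neg]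
    refine (totalDegree_finsetSum _ _).trans ?_
    refine Finset.sup_le fun k _ => ?_
    rw [totalDegree_X]

theorem locemb_assoc (π : A κ) (hπ : Prime π) (j : Option κ) (i : κ) (h : π ∣ u j) :
    Associated π (u j) := by
  obtain ⟨q, hq⟩ := h
  have hu := locemb_u_ne j i
  have hq0 : q ≠ 0 := by
    rintro rfl
    exact hu (by rw [hq, mul_zero])
  have h1 : π.totalDegree + q.totalDegree ≤ 1 := by
    rw [← totalDegree_mul_of_isDomain hπ.ne_zero hq0, ← hq]
    exact locemb_u_deg j
  have h2 : π.totalDegree ≠ 0 := by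
    intro h3
    rw [totalDegree_eq_zero_iff_eq_C] at h3
    apply hπ.not_isUnit
    rw [h3]
    apply IsUnit.map
    rw [isUnit_iff_ne_zero]
    intro h4
    apply hπ.ne_zero
    rw [h3, h4, C_0]
  have h3 : q.totalDegree = 0 := by omega
  rw [totalDegree_eq_zero_iff_eq_C] at h3
  have h4 : IsUnit q := by
    rw [h3]
    apply IsUnit.map
    rw [isUnit_iff_ne_zero]
    intro h4
    apply hq0
    rw [h3, h4, C_0]
  obtain ⟨w, hw⟩ := h4
  exact ⟨w, by rw [hw, hq]⟩

/-- The local data from a fraction field of the power series ring with a suitable valuation. -/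
theorem locemb_build (π : A κ) (e : ℕ) (he : 0 < e) (hπ : Prime π)
    {E : Type} [Field E] [Algebra ℂ E] [IsAlgClosed E] (i : κ) (ρ : κ → E)
    (h0 : aeval ρ π = 0) (hdiv : ∀ f : A κ, aeval ρ f = 0 → π ∣ f)
    (h1 : aeval ρ (pderiv i π) ≠ 0)
    (hder : ∀ v : κ → ℂ, ∃ d : Derivation ℂ E E, ∀ l, l ≠ i → d (ρ l) = algebraMap ℂ E (v l))
    (L : Type) [Field L] [Algebra ℂ L] [Algebra (PowerSeries E) L]
    [IsScalarTower ℂ (PowerSeries E) L] [IsFractionRing (PowerSeries E) L] (v : Valuation L ℤᵐ⁰)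
    (hle : ∀ F : PowerSeries E, v (algebraMap (PowerSeries E) L F) ≤ 1)
    (hge : ∀ g : L, v g ≤ 1 → ∃ F : PowerSeries E, algebraMap (PowerSeries E) L F = g)
    (hs : v (algebraMap (PowerSeries E) L PowerSeries.X) < 1) : Nonempty (LocData κ π e) := by
  classical
  have hchar : CharZero E := charZero_of_injective_algebraMap (algebraMap ℂ E).injective
  have hunit : ∀ F : PowerSeries E, PowerSeries.constantCoeff F ≠ 0 →
      v (algebraMap (PowerSeries E) L F) = 1 := by
    intro F hF
    have h2 : F * F⁻¹ = 1 := PowerSeries.mul_inv_cancel F hF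
    have h3 := congrArg (fun G => v (algebraMap (PowerSeries E) L G)) h2
    simp only [map_mul, map_one] at h3
    refine le_antisymm (hle F) ?_
    calc (1 : ℤᵐ⁰) = v (algebraMap (PowerSeries E) L F) *
          v (algebraMap (PowerSeries E) L F⁻¹) := h3.symm
      _ ≤ v (algebraMap (PowerSeries E) L F) * 1 := by
          gcongr
          exact hle _
      _ = _ := mul_one _
  let s : L := algebraMap (PowerSeries E) L PowerSeries.X
  have hs0 : s ≠ 0 := by
    intro h
    have h2 := (FaithfulSMul.algebraMap_injective (PowerSeries E) L)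
    have h3 : (PowerSeries.X : PowerSeries E) = 0 := h2 (by rw [map_zero]; exact h)
    exact PowerSeries.X_ne_zero h3
  let emb : PowerSeries E →ₐ[ℂ] L := IsScalarTower.toAlgHom ℂ (PowerSeries E) L
  let φ : A κ →ₐ[ℂ] L := emb.comp (locemb_phi i ρ e)
  have hφ : ∀ f, φ f = algebraMap (PowerSeries E) L (locemb_phi i ρ e f) :=
    fun f => rfl
  have hroot0 : ∀ (F : PowerSeries E), PowerSeries.constantCoeff F ≠ 0 → ∀ b : ℕ, 0 < b →
      ∃ y : L, y ^ b = algebraMap (PowerSeries E) L F := by
    intro F hF b hb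
    obtain ⟨g, hg⟩ := exists_ps_root F hF b hb
    exact ⟨algebraMap _ _ g, by rw [← map_pow, hg]⟩
  have hassoc : ∀ j, Associated π (u j) → aeval ρ (u j) = 0 ∧ aeval ρ (pderiv i (u j)) ≠ 0 := by
    rintro j ⟨w, hw⟩
    have h2 : aeval ρ (u j) = 0 := by rw [← hw, map_mul, h0, zero_mul]
    refine ⟨h2, ?_⟩
    rw [← hw, Derivation.leibniz, smul_eq_mul, smul_eq_mul, map_add, map_mul, map_mul, h0,
      zero_mul, zero_add]
    refine mul_ne_zero ?_ h1
    exact (w.isUnit.map (aeval ρ)).ne_zero
  refine ⟨{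
    L := L
    v := v
    trivial := ?_
    s := s
    s_ne := hs0
    s_lt := hs
    φ := φ
    int := fun f => hle _
    val := ?_
    unit := ?_
    root := ?_
    der := ?_
    der' := ?_ }⟩
  · intro c
    have h2 : algebraMap ℂ L c = algebraMap (PowerSeries E) L
        (algebraMap ℂ (PowerSeries E) c) := IsScalarTower.algebraMap_apply _ _ _ _
    rw [h2]
    exact hle _
  · obtain ⟨w, hw, hw2⟩ := locemb_zero i ρ e he π h0 h1
    rw [hφ, hw2, map_mul, map_mul, hunit w hw, mul_one, map_pow, map_pow]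
  · intro f hf
    rw [hφ]
    apply hunit
    rw [locemb_const i ρ e he]
    intro h
    exact hf (hdiv f h)
  · intro j b hb hjb
    by_cases hj : aeval ρ (u j) = 0
    · have hass : Associated π (u j) := locemb_assoc π hπ j i (hdiv _ hj)
      have hbe : b ∣ e := by
        rcases hjb with h | h
        · exact absurd hass h
        · exact h
      obtain ⟨t, ht⟩ := hbe
      obtain ⟨w, hw, hw2⟩ := locemb_zero i ρ e he (u j) hj (hassoc j hass).2
      obtain ⟨y, hy⟩ := hroot0 w hw b hb
      refine ⟨s ^ t * y, ?_⟩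
      rw [hφ, hw2, map_mul, mul_pow, hy, ← pow_mul, map_pow, ht, mul_comm t b]
    · obtain ⟨y, hy⟩ := hroot0 (locemb_phi i ρ e (u j))
        (by rw [locemb_const i ρ e he]; exact hj) b hb
      exact ⟨y, by rw [hφ, hy]⟩
  · intro j k hjk
    obtain ⟨d, hd⟩ := hder (pairVec j k)
    obtain ⟨Δ₀, hΔ₀⟩ := locemb_der i ρ e he (pairVec j k) d hd
    obtain ⟨Δ, hΔ⟩ := exists_der_frac (L := L) Δ₀
    refine ⟨Δ, ?_, ?_⟩
    · intro g hg
      obtain ⟨F, rfl⟩ := hge g hg
      rw [hΔ]
      exact hle _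
    · intro f
      rw [hφ, hΔ, hΔ₀, map_mul, map_pow, hφ]
  · intro j k p hjk hpj hpk hass
    obtain ⟨d, hd⟩ := hder (pairVec j k)
    have h2 := locemb_chain i ρ (pairVec j k) d hd (u p)
    obtain ⟨h3, h4⟩ := hassoc p hass
    rw [h3, map_zero, locemb_dA_u j k p hpj hpk, map_zero, zero_add] at h2
    have h5 : d (ρ i) = algebraMap ℂ E (pairVec j k i) := by
      rcases mul_eq_zero.1 h2.symm with h | h
      · exact absurd h h4
      · exact sub_eq_zero.1 h
    have hd' : ∀ l, d (ρ l) = algebraMap ℂ E (pairVec j k l) := by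
      intro l
      by_cases hl : l = i
      · rw [hl, h5]
      · exact hd l hl
    obtain ⟨Δ₀, hΔ₀⟩ := locemb_der' i ρ e (pairVec j k) d hd'
    obtain ⟨Δ, hΔ⟩ := exists_der_frac (L := L) Δ₀
    refine ⟨Δ, ?_, ?_⟩
    · intro g hg
      obtain ⟨F, rfl⟩ := hge g hg
      rw [hΔ]
      exact hle _
    · intro f
      rw [hφ, hΔ, hΔ₀, hφ]

/-- The local data at a prime. -/
theorem exists_local (π : A κ) (hπ : Prime π) (e : ℕ) (he : 0 < e) :
    Nonempty (LocData κ π e) := by
  classical
  obtain ⟨E, hE1, hE2, hE3, i, ρ, h0, hdiv, h1, hder⟩ := exists_generic_zero π hπ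
  let algL : Algebra ℂ (LaurentSeries E) :=
    ((algebraMap (PowerSeries E) (LaurentSeries E)).comp (algebraMap ℂ (PowerSeries E))).toAlgebra
  have htower : @IsScalarTower ℂ (PowerSeries E) (LaurentSeries E) _ _ algL.toSMul :=
    @IsScalarTower.of_algebraMap_eq' ℂ (PowerSeries E) (LaurentSeries E) _ _ _ _ _ algL rfl
  refine @locemb_build κ _ _ π e he hπ E _ _ _ i ρ h0 hdiv h1 hder (LaurentSeries E) _ algL _
    htower _ (Valued.v : Valuation (LaurentSeries E) ℤᵐ⁰) ?_ ?_ ?_
  · exact fun F => (LaurentSeries.val_le_one_iff_eq_coe E _).2 ⟨F, rfl⟩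
  · exact fun g hg => (LaurentSeries.val_le_one_iff_eq_coe E _).1 hg
  · have h2 := LaurentSeries.valuation_X_pow E 1
    rw [pow_one] at h2
    change Valued.v (((PowerSeries.X : PowerSeries E) : LaurentSeries E)) < (1 : ℤᵐ⁰)
    rw [h2, ← WithZero.exp_zero, WithZero.exp_lt_exp]
    norm_num

end Pool.Agent.Work.MP_4329d7_ag.FF
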