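import Mathlib
import Pool.Agent.Work.MP_4329d7_ag.FF.Setup
import Pool.Agent.Work.MP_4329d7_ag.FF.Kummer
import Pool.Agent.Work.MP_4329d7_ag.FF.FrameEval
import Pool.Agent.Work.MP_4329d7_ag.FF.LocEmb
import Pool.Agent.Work.MP_4329d7_ag.FF.Gform

/-!
PolyBound: poles of the components of a regular tensor.
-/

open MvPolynomial
open scoped WithZero

set_option linter.unusedSectionVars false
set_option linter.unusedVariables false

namespace Pool.Agent.Work.MP_4329d7_ag.FF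

variable {κ : Type} [Fintype κ] [DecidableEq κ] {m : ℕ}

/-! ### The derivation `dA` on the linear forms -/

lemma pb_dA_some (v : κ → ℂ) (i : κ) : dA v (u (some i)) = C (v i) := by
  simp [dA, u, mkDerivation_X]

lemma pb_dA_none (v : κ → ℂ) : dA v (u none) = - C (∑ k, v k) := by
  simp only [dA, u, map_neg, map_sum, mkDerivation_X]

lemma pb_pairVec_cast {R S : Type} [Ring R] [Ring S] (g : R →+* S) (j k : Option κ) (l : κ) :
    g (pairVec j k l) = pairVec j k l := by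
  simp only [pairVec, map_sub]
  split_ifs <;> simp

lemma pb_u_none_ne (hcard : 2 ≤ Fintype.card κ) (j : Option κ) : (pu j : P κ) ≠ 0 := by
  intro h
  have h2 : (u j : A κ) = 0 := by
    have := (IsFractionRing.injective (A κ) (P κ))
    apply this
    rw [map_zero]; exact h
  exact (u_prime hcard j).ne_zero h2

/-- The valuation is trivial on constants. -/
lemma pb_v_C {π : A κ} {e : ℕ} (ℓ : LocData κ π e) (c : ℂ) : ℓ.v (algebraMap ℂ ℓ.L c) ≤ 1 :=
  ℓ.trivial c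

/-- `φ` is injective. -/
lemma pb_phi_inj {π : A κ} {e : ℕ} (ℓ : LocData κ π e) (hπ : Prime π) :
    Function.Injective ℓ.φ := by
  rw [injective_iff_map_eq_zero]
  intro f hf
  by_contra hne
  obtain ⟨n, g, hg, rfl⟩ := WfDvdMonoid.max_power_factor hne hπ.irreducible
  have h1 : ℓ.v (ℓ.φ (π ^ n * g)) = (ℓ.v ℓ.s ^ e) ^ n := by
    rw [map_mul, map_mul, map_pow, map_pow, ℓ.val, ℓ.unit g hg, mul_one]
  rw [hf, map_zero] at h1
  have h2 : ℓ.v ℓ.s ≠ 0 := by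
    rw [Valuation.ne_zero_iff]; exact ℓ.s_ne
  exact (pow_ne_zero _ (pow_ne_zero _ h2)) h1.symm

/-- The derivation on the coordinates `u_i / u_none`. -/
lemma pb_der_coord (hcard : 2 ≤ Fintype.card κ)
    {F : Type} [Field F] [Algebra ℂ F] [Algebra (P κ) F] [IsScalarTower ℂ (P κ) F]
    {L : Type} [Field L] [Algebra ℂ L] (ψ : F →ₐ[ℂ] L) (φ : A κ →ₐ[ℂ] L)
    (hψ : ∀ f : A κ, ψ (algebraMap (P κ) F (algebraMap (A κ) (P κ) f)) = φ f)
    (Δ : Derivation ℂ L L) (t : L) (j k : Option κ)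
    (hΔ : ∀ f, Δ (φ f) = t * φ (dA (pairVec j k) f)) (i : κ) :
    Δ (ψ (algebraMap (P κ) F (pu (some i) / pu none))) =
      t * ψ (algebraMap (P κ) F (ell i (pairVec j k))) := by
  have hne : φ (u none) ≠ 0 := by
    rw [← hψ]
    have h1 : (pu none : P κ) ≠ 0 := pb_u_none_ne hcard none
    intro h
    have h2 := (map_eq_zero ψ).1 h
    exact h1 ((map_eq_zero (algebraMap (P κ) F)).1 h2)
  have e1 : ψ (algebraMap (P κ) F (pu (some i) / pu none)) = φ (u (some i)) / φ (u none) := by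
    rw [map_div₀, map_div₀, ← hψ, ← hψ]; rfl
  have hc : ∀ l : κ, ψ (algebraMap (P κ) F (pairVec j k l)) = φ (C (pairVec j k l)) := by
    intro l
    rw [← hψ]
    congr 2
    rw [← pb_pairVec_cast (algebraMap (A κ) (P κ)) j k l,
      ← pb_pairVec_cast (C : ℂ →+* A κ) j k l]
  have e2 : ψ (algebraMap (P κ) F (ell i (pairVec j k))) =
      (φ (C (pairVec j k i)) * φ (u none) + φ (u (some i)) * φ (C (∑ l, pairVec j k l))) /
        φ (u none) ^ 2 := by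
    rw [ell_apply, map_div₀, map_div₀, map_add, map_add, map_mul, map_mul, map_mul, map_mul,
      map_pow, map_pow, map_sum, map_sum, map_sum, map_sum, hc, ← hψ (u none), ← hψ (u (some i)),
      Finset.sum_congr rfl (fun l _ => hc l)]
    rfl
  rw [e1, e2, Derivation.leibniz_div, hΔ, hΔ, pb_dA_some, pb_dA_none]
  simp only [smul_eq_mul, map_neg]
  field_simp
  ring

/-- The local bound. -/
theorem loc_bound (B : BP (Option κ)) (hcard : 2 ≤ Fintype.card κ) (ha : ∀ j, 0 < B.a j)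
    {F : Type} [Field F] [Algebra ℂ F] [Algebra (P κ) F] [IsScalarTower ℂ (P κ) F]
    (D : Kum κ B.a F) (l0 : κ) (Fr : Frame (B.K D) {k : κ // k ≠ l0})
    (hz : ∀ i, ((Fr.z i : B.K D) : F) = algebraMap (P κ) F (pu (some (i : κ)) / pu none))
    (T : TensorForm (B.K D) m) (hT : IsRegular T)
    {π : A κ} {e : ℕ} (ℓ : LocData κ π e) (hπ : Prime π) (ψ : F →ₐ[ℂ] ℓ.L)
    (hψ : ∀ f : A κ, ψ (algebraMap (P κ) F (algebraMap (A κ) (P κ) f)) = ℓ.φ f)
    (W : Fin m → Option κ × Option κ) (hW : ∀ s, (W s).1 ≠ (W s).2) (c : Fin m → ℕ)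
    (hΔ : ∀ s, ∃ Δ : Derivation ℂ ℓ.L ℓ.L, (∀ g, ℓ.v g ≤ 1 → ℓ.v (Δ g) ≤ 1) ∧
      ∀ f, Δ (ℓ.φ f) = ℓ.s ^ c s * ℓ.φ (dA (pairVec (W s).1 (W s).2) f))
    (α : ∀ j, Fin (B.a j)) :
    ℓ.v (ℓ.s ^ (∑ s, c s) * ψ (D.mon α) *
      ψ (algebraMap (P κ) F (Gform l0
        (fun w => (D.b hcard ha).repr ((T (fun s => Fr.d (w s)) : B.K D) : F) α) (wv W)))) ≤ 1 := by
  choose Δ hΔ1 hΔ2 using hΔ
  set fW : F := ∑ w : Fin m → {k : κ // k ≠ l0},
    (∏ s, ell ((w s : κ)) (wv W s)) • ((T (fun s => Fr.d (w s)) : B.K D) : F) with hfW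
  have hrepr : (D.b hcard ha).repr fW α = Gform l0
        (fun w => (D.b hcard ha).repr ((T (fun s => Fr.d (w s)) : B.K D) : F) α) (wv W) := by
    rw [Gform_apply, hfW, map_sum, Finsupp.coe_finsetSum, Finset.sum_apply]
    refine Finset.sum_congr rfl fun w _ => ?_
    rw [map_smul, Finsupp.smul_apply, smul_eq_mul]
  rw [← hrepr]
  refine comp_mem D hcard ha ℓ.v ℓ.trivial _ fW ψ ?_ α
  intro ψ' hψ'
  have hψ'2 : ∀ f : A κ, ψ' (algebraMap (P κ) F (algebraMap (A κ) (P κ) f)) = ℓ.φ f := by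
    intro f; rw [hψ', hψ]
  have key := Frame.regular_eval Fr ℓ.v ℓ.trivial (ψ'.comp (B.K D).val) Δ hΔ1 T hT
  have heq : ℓ.s ^ (∑ s, c s) * ψ' fW =
      ∑ w : Fin m → {k : κ // k ≠ l0}, (∏ s, Δ s ((ψ'.comp (B.K D).val) (Fr.z (w s)))) *
        (ψ'.comp (B.K D).val) (T (fun s => Fr.d (w s))) := by
    rw [hfW, map_sum, Finset.mul_sum]
    refine Finset.sum_congr rfl fun w _ => ?_
    rw [Algebra.smul_def, map_mul, map_prod, map_prod, ← mul_assoc, ← Finset.prod_pow_eq_pow_sum,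
      ← Finset.prod_mul_distrib]
    congr 1
    refine Finset.prod_congr rfl fun s _ => ?_
    rw [AlgHom.comp_apply, IntermediateField.coe_val, hz]
    exact (pb_der_coord hcard ψ' ℓ.φ hψ'2 (Δ s) (ℓ.s ^ c s) (W s).1 (W s).2 (hΔ2 s) (w s)).symm
  rw [heq]
  exact key

/-- Common part of the two cases of `poly_bound`. -/
lemma pb_core (B : BP (Option κ)) (hcard : 2 ≤ Fintype.card κ) (ha : ∀ j, 0 < B.a j)
    {F : Type} [Field F] [Algebra ℂ F] [Algebra (P κ) F] [IsScalarTower ℂ (P κ) F]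
    (D : Kum κ B.a F) (l0 : κ) (Fr : Frame (B.K D) {k : κ // k ≠ l0})
    (hz : ∀ i, ((Fr.z i : B.K D) : F) = algebraMap (P κ) F (pu (some (i : κ)) / pu none))
    (T : TensorForm (B.K D) m) (hT : IsRegular T)
    (W : Fin m → Option κ × Option κ) (hW : ∀ s, (W s).1 ≠ (W s).2) (α : ∀ j, Fin (B.a j))
    (M : Option κ → ℕ)
    {π : A κ} {e : ℕ} (ℓ : LocData κ π e) (hπ : Prime π)
    (hroot : ∀ j, ¬ Associated π (u j) ∨ B.a j ∣ e) (c : Fin m → ℕ)
    (hΔ : ∀ s, ∃ Δ : Derivation ℂ ℓ.L ℓ.L, (∀ g, ℓ.v g ≤ 1 → ℓ.v (Δ g) ≤ 1) ∧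
      ∀ f, Δ (ℓ.φ f) = ℓ.s ^ c s * ℓ.φ (dA (pairVec (W s).1 (W s).2) f))
    (f g : A κ) (hf : ¬ π ∣ f) (hg : π ∣ g)
    (hfg : (∏ j, pu j ^ M j) * Gform l0
        (fun w => (D.b hcard ha).repr ((T (fun s => Fr.d (w s)) : B.K D) : F) α) (wv W) *
        algebraMap (A κ) (P κ) g = algebraMap (A κ) (P κ) f) :
    ∃ ψ : F →ₐ[ℂ] ℓ.L,
      (∀ f : A κ, ψ (algebraMap (P κ) F (algebraMap (A κ) (P κ) f)) = ℓ.φ f) ∧
      ℓ.v ℓ.s ^ (∑ s, c s) * ℓ.v (ψ (D.mon α)) ≤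
        ℓ.v ℓ.s ^ e * ∏ j, ℓ.v (ℓ.φ (u j)) ^ M j := by
  have hinj := pb_phi_inj ℓ hπ
  obtain ⟨ψ, hψ0⟩ := kum_lift D ha (IsFractionRing.liftAlgHom (K := P κ) hinj) (by
    intro j
    obtain ⟨y, hy⟩ := ℓ.root j (B.a j) (ha j) (hroot j)
    refine ⟨y, ?_⟩
    rw [hy, IsFractionRing.liftAlgHom_apply, pu, IsFractionRing.lift_algebraMap]
    rfl)
  have hψ : ∀ f : A κ, ψ (algebraMap (P κ) F (algebraMap (A κ) (P κ) f)) = ℓ.φ f := by
    intro f
    rw [hψ0, IsFractionRing.liftAlgHom_apply, IsFractionRing.lift_algebraMap]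
    rfl
  refine ⟨ψ, hψ, ?_⟩
  have hb := loc_bound B hcard ha D l0 Fr hz T hT ℓ hπ ψ hψ W hW c hΔ α
  set G := Gform l0
        (fun w => (D.b hcard ha).repr ((T (fun s => Fr.d (w s)) : B.K D) : F) α) (wv W) with hG
  have h1 := congrArg (fun p => ℓ.v (ψ (algebraMap (P κ) F p))) hfg
  simp only [map_mul, map_prod, map_pow] at h1
  rw [hψ, hψ, ℓ.unit f hf] at h1
  have h2 : ∀ j, ψ (algebraMap (P κ) F (pu j)) = ℓ.φ (u j) := fun j => hψ (u j)
  simp only [h2] at h1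
  rw [map_mul, map_mul, map_pow] at hb
  obtain ⟨g', rfl⟩ := hg
  have h3 : ℓ.v (ℓ.φ (π * g')) ≤ ℓ.v ℓ.s ^ e := by
    rw [map_mul, map_mul, ℓ.val]
    exact mul_le_of_le_one_right' (ℓ.int g')
  calc ℓ.v ℓ.s ^ (∑ s, c s) * ℓ.v (ψ (D.mon α))
      = ℓ.v ℓ.s ^ (∑ s, c s) * ℓ.v (ψ (D.mon α)) *
        ((∏ j, ℓ.v (ℓ.φ (u j)) ^ M j) * ℓ.v (ψ (algebraMap (P κ) F G)) * ℓ.v (ℓ.φ (π * g'))) := by
          rw [h1, mul_one]
    _ = (ℓ.v ℓ.s ^ (∑ s, c s) * ℓ.v (ψ (D.mon α)) * ℓ.v (ψ (algebraMap (P κ) F G))) *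
        (ℓ.v (ℓ.φ (π * g')) * (∏ j, ℓ.v (ℓ.φ (u j)) ^ M j)) := by
          simp only [mul_comm, mul_left_comm, mul_assoc]
    _ ≤ 1 * (ℓ.v ℓ.s ^ e * (∏ j, ℓ.v (ℓ.φ (u j)) ^ M j)) := by
          gcongr
    _ = _ := one_mul _

/-- The components have poles only along the `u_j`, of bounded order. -/
theorem poly_bound (B : BP (Option κ)) (hcard : 2 ≤ Fintype.card κ) (ha : ∀ j, 0 < B.a j)
    {F : Type} [Field F] [Algebra ℂ F] [Algebra (P κ) F] [IsScalarTower ℂ (P κ) F]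
    (D : Kum κ B.a F) (l0 : κ) (Fr : Frame (B.K D) {k : κ // k ≠ l0})
    (hz : ∀ i, ((Fr.z i : B.K D) : F) = algebraMap (P κ) F (pu (some (i : κ)) / pu none))
    (T : TensorForm (B.K D) m) (hT : IsRegular T)
    (W : Fin m → Option κ × Option κ) (hW : ∀ s, (W s).1 ≠ (W s).2) (α : ∀ j, Fin (B.a j)) :
    ∃ Q : A κ, algebraMap (A κ) (P κ) Q =
      (∏ j, pu j ^ flr B.a (fun j => (α j : ℕ)) (cnt W j) j) *
      Gform l0 (fun w => (D.b hcard ha).repr ((T (fun s => Fr.d (w s)) : B.K D) : F) α)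
        (wv W) := by
  set M : Option κ → ℕ := fun j => flr B.a (fun j => (α j : ℕ)) (cnt W j) j with hM
  set p : P κ := (∏ j, pu j ^ M j) *
      Gform l0 (fun w => (D.b hcard ha).repr ((T (fun s => Fr.d (w s)) : B.K D) : F) α)
        (wv W) with hp
  obtain ⟨f, g, hrel, hmk⟩ := IsFractionRing.exists_reduced_fraction (A κ) p
  have hfg : p * algebraMap (A κ) (P κ) g = algebraMap (A κ) (P κ) f := by
    rw [← hmk]; exact IsLocalization.mk'_spec _ _ _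
  by_cases hu : IsUnit (g : A κ)
  · obtain ⟨g', hg'⟩ := hu.exists_right_inv
    refine ⟨f * g', ?_⟩
    rw [map_mul, ← hfg, mul_assoc, ← map_mul, hg', map_one, mul_one]
  exfalso
  obtain ⟨π, hirr, hdvd⟩ := WfDvdMonoid.exists_irreducible_factor hu (nonZeroDivisors.ne_zero g.2)
  have hπ : Prime π := hirr.prime
  have hf : ¬ π ∣ f := fun h => hirr.not_isUnit (hrel h hdvd)
  have hassoc : ∀ j, π ∣ u j → Associated π (u j) := fun j h =>
    hπ.irreducible.associated_of_dvd (u_prime hcard j).irreducible h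
  by_cases hq : ∃ q, Associated π (u q)
  · obtain ⟨q, hq⟩ := hq
    obtain ⟨ℓ⟩ := exists_local π hπ (B.a q) (ha q)
    have huniq : ∀ j, j ≠ q → ¬ Associated π (u j) := by
      intro j hj h
      exact u_not_assoc hcard hj (h.symm.trans hq)
    have hroot : ∀ j, ¬ Associated π (u j) ∨ B.a j ∣ B.a q := by
      intro j
      by_cases hj : j = q
      · right; rw [hj]
      · left; exact huniq j hj
    obtain ⟨ψ, hψ, hb⟩ := pb_core B hcard ha D l0 Fr hz T hT W hW α M ℓ hπ hroot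
      (fun s => if (W s).1 = q ∨ (W s).2 = q then B.a q - 1 else 0) (by
        intro s
        by_cases hs : (W s).1 = q ∨ (W s).2 = q
        · rw [if_pos hs]
          exact ℓ.der _ _ (hW s)
        · rw [if_neg hs]
          push Not at hs
          obtain ⟨Δ, h1, h2⟩ := ℓ.der' (W s).1 (W s).2 q (hW s) hs.1.symm hs.2.symm hq
          exact ⟨Δ, h1, fun f => by rw [h2, pow_zero, one_mul]⟩) f g hf hdvd hfg
    have hs0 : ℓ.v ℓ.s ≠ 0 := by
      rw [Valuation.ne_zero_iff]; exact ℓ.s_ne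
    have hvu : ∀ j, j ≠ q → ℓ.v (ℓ.φ (u j)) = 1 := fun j hj =>
      ℓ.unit _ (fun h => huniq j hj (hassoc j h))
    have hvq : ℓ.v (ℓ.φ (u q)) = ℓ.v ℓ.s ^ B.a q := by
      obtain ⟨w, hw⟩ := hq
      rw [← hw, map_mul, map_mul, ℓ.val, ℓ.unit _ (fun h => hπ.not_isUnit
        (isUnit_of_dvd_unit h w.isUnit)), mul_one]
    have hx : ∀ j, ℓ.v (ψ (D.x j)) ^ B.a j = ℓ.v (ℓ.φ (u j)) := by
      intro j
      rw [← map_pow, ← map_pow, D.pow, pu, hψ]
    have hxj : ∀ j, j ≠ q → ℓ.v (ψ (D.x j)) = 1 := by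
      intro j hj
      have := hx j
      rw [hvu j hj] at this
      exact (pow_eq_one_iff.1 this).resolve_right (ha j).ne'
    have hxq : ℓ.v (ψ (D.x q)) = ℓ.v ℓ.s := by
      have := hx q
      rw [hvq] at this
      exact (pow_left_inj₀ zero_le zero_le (ha q).ne').1 this
    have hmon : ℓ.v (ψ (D.mon α)) = ℓ.v ℓ.s ^ (α q : ℕ) := by
      rw [Kum.mon, map_prod, map_prod, Finset.prod_eq_single q]
      · rw [map_pow, map_pow, hxq]
      · intro j _ hj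
        rw [map_pow, map_pow, hxj j hj, one_pow]
      · intro h; exact absurd (Finset.mem_univ _) h
    have hprod : ∏ j, ℓ.v (ℓ.φ (u j)) ^ M j = (ℓ.v ℓ.s ^ B.a q) ^ M q := by
      rw [Finset.prod_eq_single q]
      · rw [hvq]
      · intro j _ hj
        rw [hvu j hj, one_pow]
      · intro h; exact absurd (Finset.mem_univ _) h
    have hsum : (∑ s : Fin m, if (W s).1 = q ∨ (W s).2 = q then B.a q - 1 else 0) =
        (B.a q - 1) * cnt W q := by
      rw [← Finset.sum_filter, Finset.sum_const, smul_eq_mul, mul_comm]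
      rfl
    rw [hsum, hmon, hprod, ← pow_add, ← pow_mul, ← pow_add] at hb
    have hlt : (B.a q - 1) * cnt W q + (α q : ℕ) < B.a q + B.a q * M q := by
      have := Nat.lt_mul_div_succ ((B.a q - 1) * cnt W q + (α q : ℕ)) (ha q)
      have hMq : M q = ((B.a q - 1) * cnt W q + (α q : ℕ)) / B.a q := rfl
      rw [← hMq] at this
      nlinarith [this]
    have hlt2 : ℓ.v ℓ.s ^ (B.a q + B.a q * M q) <
        ℓ.v ℓ.s ^ ((B.a q - 1) * cnt W q + (α q : ℕ)) :=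
      pow_lt_pow_right_of_lt_one₀ (zero_lt_iff.2 hs0) ℓ.s_lt hlt
    exact absurd hb (not_le.2 hlt2)
  · push Not at hq
    obtain ⟨ℓ⟩ := exists_local π hπ 1 one_pos
    obtain ⟨ψ, hψ, hb⟩ := pb_core B hcard ha D l0 Fr hz T hT W hW α M ℓ hπ
      (fun j => Or.inl (hq j)) (fun _ => 0) (fun s => ℓ.der _ _ (hW s)) f g hf hdvd hfg
    have hvu : ∀ j, ℓ.v (ℓ.φ (u j)) = 1 := fun j =>
      ℓ.unit _ (fun h => hq j (hassoc j h))
    have hxj : ∀ j, ℓ.v (ψ (D.x j)) = 1 := by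
      intro j
      have h : ℓ.v (ψ (D.x j)) ^ B.a j = ℓ.v (ℓ.φ (u j)) := by
        rw [← map_pow, ← map_pow, D.pow, pu, hψ]
      rw [hvu j] at h
      exact (pow_eq_one_iff.1 h).resolve_right (ha j).ne'
    have hmon : ℓ.v (ψ (D.mon α)) = 1 := by
      rw [Kum.mon, map_prod, map_prod]
      refine Finset.prod_eq_one fun j _ => ?_
      rw [map_pow, map_pow, hxj j, one_pow]
    have hprod : ∏ j, ℓ.v (ℓ.φ (u j)) ^ M j = 1 :=
      Finset.prod_eq_one fun j _ => by rw [hvu j, one_pow]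
    rw [Finset.sum_const_zero, pow_zero, one_mul, hmon, hprod, mul_one, pow_one] at hb
    exact absurd hb (not_le.2 ℓ.s_lt)

end Pool.Agent.Work.MP_4329d7_ag.FF
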