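import Mathlib
import Pool.Agent.Work.MP_4329d7_ag.FF.Setup
import Pool.Agent.Work.MP_4329d7_ag.FF.Rep_det

/-!
ThMat: the logarithmic matrix and the form `Θ`.
-/

open scoped WithZero

namespace Pool.Agent.Work.MP_4329d7_ag.FF

variable {κ : Type} [Fintype κ] [DecidableEq κ] {K : Type} [Field K] [Algebra ℂ K]

/-- Rows: `D_k(z_j)/z_j` (row `some k`, `k ≠ l0`), ones (row `some l0`), `c` (row `none`). -/
noncomputable def thMat (l0 : κ) (z c : Option κ → K)
    (D : {k : κ // k ≠ l0} → Derivation ℂ K K) : Matrix (Option κ) (Option κ) K :=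
  Matrix.of fun r j => match r with
    | none => c j
    | some k => if h : k = l0 then 1 else D ⟨k, h⟩ (z j) / z j

/-- Change of the omitted index.
HINT: with `M_c = thMat l0 z c D`: `M_c *ᵥ z = (c ⬝ᵥ z) • e_none` (`∑_j D(z_j) = D(∑ z_j) = 0`,
`∑ z_j = 0`), so `det M_c • z = adjugate M_c *ᵥ (M_c *ᵥ z) = (c ⬝ᵥ z) • (column none of adjugate)`, and
this column does not depend on `c` (cofactors of the row `none`). -/
theorem thMat_pivot (l0 : κ) (z : Option κ → K) (hz : ∀ j, z j ≠ 0) (hs : ∑ j, z j = 0)
    (D : {k : κ // k ≠ l0} → Derivation ℂ K K) (p q : Option κ) :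
    (thMat l0 z (Pi.single p 1) D).det * z q = (thMat l0 z (Pi.single q 1) D).det * z p := by
  have hup : ∀ c : Option κ → K, thMat l0 z c D = (thMat l0 z 0 D).updateRow none c := by
    intro c
    ext r j
    rw [Matrix.updateRow_apply]
    cases r with
    | none => simp [thMat]
    | some k => simp [thMat]
  have hlin : (thMat l0 z (z q • Pi.single p 1 + (-z p) • Pi.single q 1) D).det =
      z q * (thMat l0 z (Pi.single p 1) D).det + (-z p) * (thMat l0 z (Pi.single q 1) D).det := by
    rw [hup, Matrix.det_updateRow_add, Matrix.det_updateRow_smul, Matrix.det_updateRow_smul,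
      ← hup, ← hup]
  have hzero : (thMat l0 z (z q • Pi.single p 1 + (-z p) • Pi.single q 1) D).det = 0 := by
    rw [← Matrix.exists_mulVec_eq_zero_iff]
    refine ⟨z, fun h => hz none (congrFun h none), ?_⟩
    funext r
    cases r with
    | none =>
      simp only [Matrix.mulVec, dotProduct, thMat, Matrix.of_apply, Pi.add_apply, Pi.smul_apply,
        smul_eq_mul, Pi.zero_apply, add_mul, Finset.sum_add_distrib]
      have h1 : ∀ a : Option κ, ∀ w : K, ∑ x, w * (Pi.single a (1 : K) : Option κ → K) x * z x =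
          w * z a := by
        intro a w
        rw [Finset.sum_eq_single a]
        · rw [Pi.single_eq_same, mul_one]
        · intro b _ hb
          rw [Pi.single_eq_of_ne hb, mul_zero, zero_mul]
        · intro h; exact absurd (Finset.mem_univ a) h
      rw [h1, h1]
      ring
    | some k =>
      by_cases hk : k = l0
      · simp only [Matrix.mulVec, dotProduct, thMat, Matrix.of_apply, hk, dif_pos, one_mul,
          Pi.zero_apply]
        exact hs
      · simp only [Matrix.mulVec, dotProduct, thMat, Matrix.of_apply, dif_neg hk, Pi.zero_apply]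
        have h1 : ∀ x, D ⟨k, hk⟩ (z x) / z x * z x = D ⟨k, hk⟩ (z x) := by
          intro x
          rw [div_mul_cancel₀ _ (hz x)]
        simp only [h1]
        rw [← map_sum, hs, map_zero]
  rw [hzero] at hlin
  linear_combination (-1 : K) * hlin

/-- Column operations: subtract the column `q` from the others, then clear the column `q` with the
row `l0`.
HINT: `D(z_j/z_q)/(z_j/z_q) = D(z_j)/z_j - D(z_q)/z_q`;
`Matrix.det_eq_of_forall_row_eq_smul_add_const`, `Matrix.det_eq_of_forall_col_eq_smul_add_const`, or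
write `thMat = V * N * U` with `U`, `V` unipotent. -/
theorem thMat_cols (l0 : κ) (z : Option κ → K) (hz : ∀ j, z j ≠ 0)
    (D : {k : κ // k ≠ l0} → Derivation ℂ K K) (p q : Option κ) (hpq : p ≠ q) :
    (thMat l0 z (Pi.single p 1) D).det = Matrix.det (Matrix.of fun r j : Option κ =>
      match r with
      | none => (Pi.single p 1 : Option κ → K) j
      | some k => if h : k = l0 then (Pi.single q 1 : Option κ → K) j
          else D ⟨k, h⟩ (z j / z q) / (z j / z q)) := by
  have hepq : (Pi.single p 1 : Option κ → K) q = 0 := Pi.single_eq_of_ne (Ne.symm hpq) _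
  have hlog : ∀ (E : Derivation ℂ K K) (a b : K), a ≠ 0 → b ≠ 0 →
      E (a / b) / (a / b) = E a / a - E b / b := by
    intro E a b ha hb
    rw [Derivation.leibniz_div]
    simp only [smul_eq_mul]
    field_simp
  set M := thMat l0 z (Pi.single p 1) D with hM
  set N : Matrix (Option κ) (Option κ) K := Matrix.of fun r j : Option κ =>
      match r with
      | none => (Pi.single p 1 : Option κ → K) j
      | some k => if h : k = l0 then (Pi.single q 1 : Option κ → K) j
          else D ⟨k, h⟩ (z j / z q) / (z j / z q) with hN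
  set M' : Matrix (Option κ) (Option κ) K :=
    Matrix.of fun r j => if j = q then M r q else M r j - M r q with hM'
  have h1 : M.det = M'.det := by
    rw [← Matrix.det_transpose M, ← Matrix.det_transpose M']
    refine Matrix.det_eq_of_forall_row_eq_smul_add_const (fun j => if j = q then 0 else 1) q
      (if_pos rfl) ?_
    intro j r
    simp only [Matrix.transpose_apply, hM', Matrix.of_apply, if_true]
    by_cases hj : j = q
    · subst hj; simp
    · simp [hj]
  have h2 : M'.det = N.det := by
    refine Matrix.det_eq_of_forall_row_eq_smul_add_const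
      (fun r => match r with
        | none => 0
        | some k => if h : k = l0 then 0 else D ⟨k, h⟩ (z q) / z q) (some l0) (by simp) ?_
    intro r j
    have hNl : N (some l0) j = (Pi.single q 1 : Option κ → K) j := by simp [hN]
    rw [hNl]
    cases r with
    | none =>
      simp only [hM', hM, hN, thMat, Matrix.of_apply, zero_mul, add_zero]
      by_cases hj : j = q
      · subst hj; rw [if_pos rfl]
      · rw [if_neg hj, hepq, sub_zero]
    | some k =>
      by_cases hk : k = l0
      · simp only [hM', hM, hN, thMat, Matrix.of_apply, hk, dif_pos, zero_mul, add_zero]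
        by_cases hj : j = q
        · subst hj; rw [if_pos rfl, Pi.single_eq_same]
        · rw [if_neg hj, sub_self, Pi.single_eq_of_ne hj]
      · simp only [hM', hM, hN, thMat, Matrix.of_apply, dif_neg hk]
        by_cases hj : j = q
        · subst hj
          rw [if_pos rfl, Pi.single_eq_same, div_self (hz j), Derivation.map_one_eq_zero]
          simp
        · rw [if_neg hj, Pi.single_eq_of_ne hj, mul_zero, add_zero, hlog _ _ _ (hz j) (hz q)]
  rw [h1, h2]

/-- The form `Θ`, as a function of `M` blocks of derivations. -/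
noncomputable def thFun (l0 : κ) (z : Option κ → K) (y : K) (M : ℕ)
    (D : Fin M × {k : κ // k ≠ l0} → Derivation ℂ K K) : K :=
  y * ∏ b, (thMat l0 z (Pi.single none 1) (fun i => D (b, i))).det

/-- the index of the derivation in a row -/
def ThMat2_rho (l0 : κ) : Option κ → Option {k : κ // k ≠ l0}
  | none => none
  | some k => if h : k = l0 then none else some ⟨k, h⟩

theorem ThMat2_rho_uniq (l0 : κ) (i : {k : κ // k ≠ l0}) :
    ∃! r, ThMat2_rho l0 r = some i := by
  refine ⟨some i.1, ?_, ?_⟩
  · simp only [ThMat2_rho, dif_neg i.2]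
  · intro r hr
    cases r with
    | none => simp [ThMat2_rho] at hr
    | some k =>
      by_cases h : k = l0
      · simp [ThMat2_rho, h] at hr
      · simp only [ThMat2_rho, dif_neg h, Option.some.injEq] at hr
        rw [← hr]

/-- the constant rows -/
def ThMat2_c (l0 : κ) (p q : Option κ) : Option κ → Option κ → K
  | none => Pi.single p 1
  | some _ => Pi.single q 1

theorem ThMat2_c_le (v : Valuation K ℤᵐ⁰) (l0 : κ) (p q r j : Option κ) :
    v (ThMat2_c l0 p q r j : K) ≤ 1 := by
  have h : ∀ p : Option κ, v ((Pi.single p 1 : Option κ → K) j) ≤ 1 := by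
    intro p
    by_cases hj : j = p
    · subst hj; rw [Pi.single_eq_same, map_one]
    · rw [Pi.single_eq_of_ne hj, map_zero]; exact zero_le_one
  cases r with
  | none => exact h p
  | some k => exact h q

/-- the matrix of `thMat_cols` -/
noncomputable def ThMat2_N (l0 : κ) (g : Option κ → K) (p q : Option κ)
    (D : {k : κ // k ≠ l0} → Derivation ℂ K K) : Matrix (Option κ) (Option κ) K :=
  Matrix.of fun r j : Option κ =>
      match ThMat2_rho l0 r with
      | some i => D i (g j) / g j
      | none => ThMat2_c l0 p q r j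

theorem ThMat2_mat (l0 : κ) (g : Option κ → K) (p q : Option κ)
    (D : {k : κ // k ≠ l0} → Derivation ℂ K K) :
    (Matrix.of fun r j : Option κ =>
      match r with
      | none => (Pi.single p 1 : Option κ → K) j
      | some k => if h : k = l0 then (Pi.single q 1 : Option κ → K) j
          else D ⟨k, h⟩ (g j) / (g j)) = ThMat2_N l0 g p q D := by
  ext r j
  cases r with
  | none => rfl
  | some k =>
    by_cases h : k = l0
    · subst h
      simp [ThMat2_rho, ThMat2_c, ThMat2_N]
    · simp [ThMat2_rho, h, ThMat2_N]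

theorem ThMat2_det (l0 : κ) (z : Option κ → K) (hz : ∀ j, z j ≠ 0)
    (hz1 : z none = 1) (hs : ∑ j, z j = 0) (p q : Option κ) (hpq : p ≠ q)
    (D : {k : κ // k ≠ l0} → Derivation ℂ K K) :
    (thMat l0 z (Pi.single none 1) D).det =
      (z p)⁻¹ * (ThMat2_N l0 (fun j => z j / z q) p q D).det := by
  have h1 := thMat_pivot l0 z hz hs D none p
  rw [hz1, mul_one] at h1
  have h2 := (h1.trans (thMat_cols l0 z hz D p q hpq)).trans
    (congrArg Matrix.det (ThMat2_mat l0 (fun j => z j / z q) p q D))
  rw [← h2, mul_comm _ (z p), ← mul_assoc, inv_mul_cancel₀ (hz p), one_mul]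

/-- evaluation at `g` -/
def ThMat2_ev (g : K) : Derivation ℂ K K →ₗ[K] K where
  toFun D := D g
  map_add' _ _ := rfl
  map_smul' _ _ := rfl

/-- HINT. `v (z p) = v (z q)` for some `p ≠ q` (otherwise `z q = - ∑_{j ≠ q} z j` has smaller value).
`thMat_pivot` (with `z none = 1`): `det (e_none) = det (e_p) / z_p`; `thMat_cols`:
`det (e_p) = det (...)` with `g_j = z_j/z_q`, to which `det_log_unit` or `det_log` applies
(`R = Option κ`, `ρ none = none`, `ρ (some k) = some ⟨k, _⟩` if `k ≠ l0`, `none` for `l0`; the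
constant rows are `Pi.single p 1`, `Pi.single q 1`). `Θ = (y / z_p^M) ∏_b det_b` or
`(y / (z_p t)^M) ∏_b (t det_b)`; `Rep.block`, `Rep.smul`. -/
theorem thFun_rep (v : Valuation K ℤᵐ⁰) (l0 : κ) (z : Option κ → K) (hz : ∀ j, z j ≠ 0)
    (hz1 : z none = 1) (hs : ∑ j, z j = 0) (y : K) (M : ℕ)
    (h : ∃ q, (∀ j, v (z j) ≤ v (z q)) ∧
      (((∀ j, v (z j) = v (z q)) ∧ v y ≤ v (z q) ^ M) ∨
        ∃ t, t ≠ 0 ∧ v t < 1 ∧ (∀ x, v x < 1 → v x ≤ v t) ∧ v y ≤ (v (z q) * v t) ^ M)) :
    Rep v (thFun l0 z y M) := by
  obtain ⟨q, hq, h⟩ := h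
  have hvq : v (z q) ≠ 0 := (Valuation.ne_zero_iff v).2 (hz q)
  obtain ⟨p, hpq, hvp⟩ : ∃ p, p ≠ q ∧ v (z p) = v (z q) := by
    by_contra hcon
    push Not at hcon
    have h1 : v (∑ j ∈ Finset.univ.erase q, z j) < v (z q) := by
      refine v.map_sum_lt hvq fun j hj => ?_
      exact lt_of_le_of_ne (hq j) (hcon j (Finset.ne_of_mem_erase hj))
    have h2 : z q = -∑ j ∈ Finset.univ.erase q, z j := by
      rw [← Finset.add_sum_erase _ _ (Finset.mem_univ q)] at hs
      exact eq_neg_of_add_eq_zero_left hs
    have h3 : v (z q) = v (∑ j ∈ Finset.univ.erase q, z j) := by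
      conv_lhs => rw [h2, Valuation.map_neg]
    rw [← h3] at h1
    exact lt_irrefl _ h1
  have hg : ∀ j, z j / z q ≠ 0 := fun j => div_ne_zero (hz j) (hz q)
  rcases h with ⟨hall, hy⟩ | ⟨t, ht0, ht1, htm, hy⟩
  · have hg1 : ∀ j, v (z j / z q) = 1 := by
      intro j
      rw [map_div₀, hall j, div_self hvq]
    have h1 : Rep v (fun D => (ThMat2_N l0 (fun j => z j / z q) p q D).det) := by
      refine (congrArg (Rep v) (funext fun D => ?_)).mp
        (det_log_unit v (ThMat2_rho l0) (ThMat2_rho_uniq l0) (fun j => z j / z q) hg1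
          (ThMat2_c l0 p q) (ThMat2_c_le v l0 p q))
      congr 1
      ext r j
      unfold ThMat2_N
      simp only [Matrix.of_apply]
      cases ThMat2_rho l0 r <;> rfl
    have h2 := Rep.block v (S := Fin M) (fun _ => h1)
    have h3 := Rep.smul v (y * ((z p)⁻¹) ^ M) (by
      rw [map_mul, map_pow, map_inv₀, hvp, inv_pow, ← div_eq_mul_inv]
      exact div_le_one_of_le₀ hy zero_le) h2
    refine (congrArg (Rep v) ?_).mp h3
    funext D
    unfold thFun
    rw [Finset.prod_congr rfl fun b _ => ThMat2_det l0 z hz hz1 hs p q hpq (fun i => D (b, i)),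
      Finset.prod_mul_distrib, Finset.prod_const, Finset.card_univ, Fintype.card_fin, mul_assoc]
  · have h1 : Rep v (fun D => t * (ThMat2_N l0 (fun j => z j / z q) p q D).det) := by
      refine (congrArg (Rep v) (funext fun D => ?_)).mp
        (det_log v (ThMat2_rho l0) (ThMat2_rho_uniq l0) t ht0 ht1 htm
          (fun j => z j / z q) hg (ThMat2_c l0 p q) (ThMat2_c_le v l0 p q))
      congr 2
      ext r j
      unfold ThMat2_N
      simp only [Matrix.of_apply]
      cases ThMat2_rho l0 r <;> rfl
    have h2 := Rep.block v (S := Fin M) (fun _ => h1)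
    have hvt : v t ≠ 0 := (Valuation.ne_zero_iff v).2 ht0
    have h3 := Rep.smul v (y * ((z p * t)⁻¹) ^ M) (by
      rw [map_mul, map_pow, map_inv₀, map_mul, hvp, inv_pow, ← div_eq_mul_inv]
      exact div_le_one_of_le₀ hy zero_le) h2
    refine (congrArg (Rep v) ?_).mp h3
    funext D
    unfold thFun
    rw [Finset.prod_congr rfl fun b _ => ThMat2_det l0 z hz hz1 hs p q hpq (fun i => D (b, i)),
      Finset.prod_mul_distrib, Finset.prod_mul_distrib, Finset.prod_const, Finset.prod_const,
      Finset.card_univ, Fintype.card_fin, mul_inv, mul_pow]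
    have : t⁻¹ ^ M * t ^ M = 1 := by
      rw [← mul_pow, inv_mul_cancel₀ ht0, one_pow]
    linear_combination (y * (z p)⁻¹ ^ M * ∏ b : Fin M,
      (ThMat2_N l0 (fun j => z j / z q) p q (fun i => D (b, i))).det) * this

/-- There is a multilinear form with the values of `Θ`.
HINT: `thFun_rep` for the trivial valuation (`v x = 1` for `x ≠ 0`; e.g. `(1 : Valuation K ℤᵐ⁰)`),
then `∑_r c_r • dTensor (g_r)`. -/
theorem exists_thForm (l0 : κ) (z : Option κ → K) (hz : ∀ j, z j ≠ 0)
    (hz1 : z none = 1) (hs : ∑ j, z j = 0) (y : K) (hy : y ≠ 0) (M m : ℕ)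
    (e : Fin M × {k : κ // k ≠ l0} ≃ Fin m) :
    ∃ T : TensorForm K m, ∀ D : Fin m → Derivation ℂ K K,
      T D = thFun l0 z y M (fun p => D (e p)) := by
  classical
  have hv : ∀ x : K, x ≠ 0 → (1 : Valuation K ℤᵐ⁰) x = 1 := fun x hx =>
    Valuation.one_apply_of_ne_zero hx
  obtain ⟨R, _, c, g, -, -, hT⟩ := thFun_rep (1 : Valuation K ℤᵐ⁰) l0 z hz hz1 hs y M
    ⟨none, fun j => by rw [hv _ (hz j), hv _ (hz none)], Or.inl ⟨fun j => by
      rw [hv _ (hz j), hv _ (hz none)], by rw [hv _ hy, hv _ (hz none), one_pow]⟩⟩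
  refine ⟨∑ r, c r • (MultilinearMap.mkPiAlgebra K (Fin m) K).compLinearMap
    (fun i => ThMat2_ev (g r (e.symm i))), fun D => ?_⟩
  rw [hT, sum_apply]
  refine Finset.sum_congr rfl fun r _ => ?_
  rw [smul_apply, MultilinearMap.compLinearMap_apply,
    MultilinearMap.mkPiAlgebra_apply, smul_eq_mul, ← e.prod_comp]
  congr 1
  refine Finset.prod_congr rfl fun i _ => ?_
  rw [Equiv.symm_apply_apply]
  rfl

/-- Nonvanishing.
HINT: the matrix at the dual frame has trivial kernel: row `none` gives `v_none = 0`; row `k`: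
`v_k / z_k = v_{l0} / z_{l0}` because `∂_k z_j = δ_kj` for `j ≠ l0, none`, and `∂_k z_{l0} = -1`
(`z_{l0} = - z_none - ∑_{i ≠ l0} z_i`, `z_none = 1`); the row of ones: `∑ v = 0`, i.e.
`(v_{l0}/z_{l0}) (∑_{k} z_k) = -(v_{l0}/z_{l0}) = 0`. `Matrix.exists_mulVec_eq_zero_iff`. -/
theorem thFun_ne_zero (l0 : κ) (z : Option κ → K) (hz : ∀ j, z j ≠ 0)
    (hz1 : z none = 1) (hs : ∑ j, z j = 0) (y : K) (hy : y ≠ 0) (M : ℕ)
    (Fr : Frame K {k : κ // k ≠ l0}) (hFr : ∀ i, Fr.z i = z (some (i : κ))) :
    thFun l0 z y M (fun p => Fr.d p.2) ≠ 0 := by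
  unfold thFun
  refine mul_ne_zero hy (Finset.prod_ne_zero_iff.2 fun b _ => ?_)
  intro hdet
  obtain ⟨w, hw0, hw⟩ := Matrix.exists_mulVec_eq_zero_iff.2 hdet
  apply hw0
  have hrow : ∀ r, ∑ j, thMat l0 z (Pi.single none 1) (fun i => Fr.d i) r j * w j = 0 :=
    fun r => congrFun hw r
  have h0 : w none = 0 := by
    have := hrow none
    simpa [thMat, Pi.single_apply] using this
  -- the derivatives of `z (some l0)`
  have hl0 : z (some l0) = -1 - ∑ i ∈ Finset.univ.erase l0, z (some i) := by
    rw [Fintype.sum_option, hz1, ← Finset.add_sum_erase _ _ (Finset.mem_univ l0)] at hs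
    linear_combination hs
  have hd : ∀ (k : {k : κ // k ≠ l0}) (i : κ), i ≠ l0 →
      Fr.d k (z (some i)) = if (k : κ) = i then 1 else 0 := by
    intro k i hi
    have := Fr.dual k ⟨i, hi⟩
    rw [hFr] at this
    rw [this]
    by_cases h : (k : κ) = i
    · rw [if_pos h, if_pos (Subtype.ext h)]
    · rw [if_neg h, if_neg (fun h' => h (congrArg Subtype.val h'))]
  have hdl : ∀ k : {k : κ // k ≠ l0}, Fr.d k (z (some l0)) = -1 := by
    intro k
    rw [hl0, map_sub, map_neg, Derivation.map_one_eq_zero, map_sum]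
    have : ∑ i ∈ Finset.univ.erase l0, Fr.d k (z (some i)) =
        ∑ i ∈ Finset.univ.erase l0, (if (k : κ) = i then (1 : K) else 0) :=
      Finset.sum_congr rfl fun i hi => hd k i (Finset.ne_of_mem_erase hi)
    rw [this, Finset.sum_ite_eq, if_pos (Finset.mem_erase.2 ⟨k.2, Finset.mem_univ _⟩)]
    ring
  have hk : ∀ k : κ, k ≠ l0 → w (some k) = z (some k) * (w (some l0) / z (some l0)) := by
    intro k hkl
    have h1 := hrow (some k)
    simp only [thMat, Matrix.of_apply, dif_neg hkl] at h1
    rw [Fintype.sum_option, h0, mul_zero, zero_add,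
      ← Finset.add_sum_erase _ _ (Finset.mem_univ l0), hdl] at h1
    have h2 : ∑ i ∈ Finset.univ.erase l0, Fr.d ⟨k, hkl⟩ (z (some i)) / z (some i) * w (some i) =
        w (some k) / z (some k) := by
      have : ∀ i ∈ Finset.univ.erase l0, Fr.d ⟨k, hkl⟩ (z (some i)) / z (some i) * w (some i) =
          if k = i then w (some i) / z (some i) else 0 := by
        intro i hi
        rw [hd _ i (Finset.ne_of_mem_erase hi)]
        by_cases h : k = i
        · rw [if_pos h, if_pos h]; ring
        · rw [if_neg h, if_neg h]; ring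
      rw [Finset.sum_congr rfl this, Finset.sum_ite_eq,
        if_pos (Finset.mem_erase.2 ⟨hkl, Finset.mem_univ _⟩)]
    rw [h2] at h1
    have hzk := hz (some k)
    have hzl := hz (some l0)
    field_simp at h1 ⊢
    linear_combination h1
  have hsum := hrow (some l0)
  simp only [thMat, Matrix.of_apply, dite_true, one_mul] at hsum
  rw [Fintype.sum_option, h0, zero_add] at hsum
  have hc : w (some l0) / z (some l0) = 0 := by
    have h1 : ∀ i : κ, w (some i) = z (some i) * (w (some l0) / z (some l0)) := by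
      intro i
      by_cases h : i = l0
      · subst h
        rw [mul_div_cancel₀ _ (hz (some i))]
      · exact hk i h
    rw [Finset.sum_congr rfl fun i _ => h1 i, ← Finset.sum_mul] at hsum
    have h2 : ∑ i, z (some i) = -1 := by
      rw [Fintype.sum_option, hz1] at hs
      linear_combination hs
    rw [h2] at hsum
    linear_combination -hsum
  funext r
  cases r with
  | none => exact h0
  | some i =>
    by_cases h : i = l0
    · subst h
      rw [Pi.zero_apply]
      exact (div_eq_zero_iff.1 hc).resolve_right (hz _)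
    · rw [hk i h, hc, mul_zero]; rfl

end Pool.Agent.Work.MP_4329d7_ag.FF
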