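import Mathlib
import Pool.Agent.Work.MP_4329d7_ag.FF.Setup
import Pool.Agent.Work.MP_4329d7_ag.FF.KField

/-!
ThVal: the canonicity condition gives the estimate at every valuation of `K`.
-/

open scoped WithZero
open WithZero

namespace Pool.Agent.Work.MP_4329d7_ag.FF

variable {κ : Type} [Fintype κ] [DecidableEq κ] [Nonempty κ]

lemma thval_prod_zpow {F : Type} [Field F] {ι : Type} [Fintype ι] {y : F} (h : y ≠ 0)
    (k : ι → ℤ) : ∏ j, y ^ k j = y ^ (∑ j, k j) := by
  classical
  have : ∀ s : Finset ι, ∏ j ∈ s, y ^ k j = y ^ (∑ j ∈ s, k j) := by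
    intro s
    induction s using Finset.induction_on with
    | empty => simp
    | insert a s ha ih => rw [Finset.prod_insert ha, Finset.sum_insert ha, ih, zpow_add₀ h]
  exact this _

/-- The factor `(∏ x_j / u_none) ^ M` lies in `K` if `N ∣ M`. -/
theorem yfac_mem (B : BP (Option κ)) {F : Type} [Field F] [Algebra ℂ F] [Algebra (P κ) F]
    [IsScalarTower ℂ (P κ) F] (D : Kum κ B.a F) (M : ℕ) (hM : B.N ∣ M) :
    ((∏ j, D.x j) / algebraMap (P κ) F (pu none)) ^ M ∈ B.K D := by
  classical
  have hx := x_ne_zero B D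
  set β : Option κ → ℤ := fun j => (M : ℤ) * (1 - if j = none then (B.a none : ℤ) else 0) with hβ
  have h1 : ((∏ j, D.x j) / algebraMap (P κ) F (pu none)) ^ M = ∏ j, D.x j ^ β j := by
    have h2 : ∏ j, D.x j ^ β j = (∏ j, D.x j ^ (1 - if j = none then (B.a none : ℤ) else 0)) ^ M := by
      rw [← Finset.prod_pow]
      refine Finset.prod_congr rfl fun j _ => ?_
      rw [hβ]
      simp only
      rw [mul_comm, zpow_mul, zpow_natCast]
    rw [h2]
    congr 1
    have h3 : ∀ j, D.x j ^ (1 - if j = none then (B.a none : ℤ) else 0)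
        = D.x j / (if j = none then D.x j ^ (B.a none) else 1) := by
      intro j
      split_ifs with h
      · rw [zpow_sub₀ (hx j), zpow_one, zpow_natCast]
      · rw [sub_zero, zpow_one, div_one]
    rw [Finset.prod_congr rfl fun j _ => h3 j, Finset.prod_div_distrib]
    congr 1
    rw [Finset.prod_ite_eq' Finset.univ none (fun j => D.x j ^ (B.a none))]
    simp [D.pow none]
  rw [h1]
  apply mon_mem
  have ha : ∀ l, (B.a l : ℚ) ≠ 0 := fun l => by
    have := B.two_le l
    positivity
  constructor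
  · have : ∀ j, ((β j : ℤ) : ℚ) / B.a j = M * (1 / B.a j) - (if j = none then (M : ℚ) else 0) := by
      intro j
      rw [hβ]
      split_ifs with h
      · subst h
        push_cast
        simp only [if_true]
        field_simp [ha none]
      · push_cast
        simp only [h, if_false]
        ring
    rw [Finset.sum_congr rfl fun j _ => this j, Finset.sum_sub_distrib, ← Finset.mul_sum,
      B.sum_inv]
    simp
  · obtain ⟨q, hq⟩ := hM
    refine Finset.dvd_sum fun j _ => ?_
    rw [hβ, hq]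
    push_cast
    rw [mul_assoc, mul_assoc]
    exact Dvd.intro _ rfl

/-- HINT. Let `w x = - WithZero.log (v x)` for `x ≠ 0` (an additive integer valued function). Choose
`q` with `v (zK q)` maximal. If `v x = 1` for all `x ≠ 0`, the first alternative holds. Otherwise
let `c0 > 0` be the least positive value of `w`, `c0 = w t`; it divides all values of `w`. Put
`ν_j = w (zK j / zK q) / (a_j c0) ≥ 0`, `ν_q = 0`. If `β` is admissible and `f = x^β ∈ K`
(`mon_mem`), then `f ^ A = ∏ (zK j / zK q) ^ (β_j A / a_j)` with `A = ∏ a_j` (because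
`∑ β_j / a_j = 0`), so `w f = c0 ∑ β_j ν_j`, and `c0 ∣ w f`. `CanZ` (for
`κ_j = w (zK j / zK q) / c0`, natural numbers): `∑ ν = 0` or `1 ≤ ∑ ν`.
Similarly `(y / (zK q) ^ M) ^ A = ∏ (zK j / zK q) ^ (M A / a_j)` (as `∑ 1/a_j = 1`), so
`w (y / zK q ^ M) = M c0 ∑ ν`. If `∑ ν = 0` all `ν_j = 0`: first alternative; if `∑ ν ≥ 1`:
second. -/
theorem can_val (B : BP (Option κ)) (hcan : B.CanZ) {F : Type} [Field F] [Algebra ℂ F]
    [Algebra (P κ) F] [IsScalarTower ℂ (P κ) F] (D : Kum κ B.a F) (M : ℕ) (y : B.K D)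
    (hy : (y : F) = ((∏ j, D.x j) / algebraMap (P κ) F (pu none)) ^ M)
    (v : Valuation (B.K D) ℤᵐ⁰) (hv : ∀ c : ℂ, v (algebraMap ℂ (B.K D) c) ≤ 1) :
    ∃ q, (∀ j, v (zK B D j) ≤ v (zK B D q)) ∧
      (((∀ j, v (zK B D j) = v (zK B D q)) ∧ v y ≤ v (zK B D q) ^ M) ∨
        ∃ t, t ≠ 0 ∧ v t < 1 ∧ (∀ x, v x < 1 → v x ≤ v t) ∧
          v y ≤ (v (zK B D q) * v t) ^ M) := by
  classical
  have hx := x_ne_zero B D
  have hpu : ∀ j, algebraMap (P κ) F (pu j) ≠ 0 := fun j => by
    rw [Ne, map_eq_zero_iff _ (algebraMap (P κ) F).injective]; exact pu_ne_zero j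
  have hzF : ∀ j, ((zK B D j : B.K D) : F) = algebraMap (P κ) F (pu j) / algebraMap (P κ) F (pu none) := by
    intro j; change algebraMap (P κ) F (pu j / pu none) = _; rw [map_div₀]
  have hz0 : ∀ j, zK B D j ≠ 0 := by
    intro j h
    have : ((zK B D j : B.K D) : F) = 0 := by rw [h]; rfl
    rw [hzF j, div_eq_zero_iff] at this
    rcases this with h | h
    · exact hpu j h
    · exact hpu none h
  have hy0 : y ≠ 0 := by
    intro h
    rw [h] at hy
    have h1 : ((∏ j, D.x j) / algebraMap (P κ) F (pu none)) ^ M ≠ 0 :=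
      pow_ne_zero _ (div_ne_zero (Finset.prod_ne_zero_iff.mpr fun j _ => hx j) (hpu none))
    exact h1 hy.symm
  have ha0 : ∀ j, 0 < B.a j := fun j => lt_of_lt_of_le two_pos (B.two_le j)
  have haQ : ∀ l, (B.a l : ℚ) ≠ 0 := fun l => by
    have := ha0 l
    positivity
  -- the additive valuation
  set w : B.K D → ℤ := fun x => log (v x) with hw
  have hvne : ∀ x : B.K D, x ≠ 0 → v x ≠ 0 := fun x hx => (Valuation.ne_zero_iff v).2 hx
  have wmul : ∀ x y : B.K D, x ≠ 0 → y ≠ 0 → w (x * y) = w x + w y := by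
    intro x y hx hy
    rw [hw]; simp only; rw [map_mul, log_mul (hvne x hx) (hvne y hy)]
  have wzpow : ∀ (x : B.K D) (k : ℤ), w (x ^ k) = k * w x := by
    intro x k
    rw [hw]; simp only; rw [map_zpow₀, log_zpow, smul_eq_mul]
  have wpow : ∀ (x : B.K D) (k : ℕ), w (x ^ k) = k * w x := by
    intro x k
    rw [hw]; simp only; rw [map_pow, log_pow, nsmul_eq_mul]
  have wprod : ∀ (s : Finset (Option κ)) (f : Option κ → B.K D), (∀ j, f j ≠ 0) →
      w (∏ j ∈ s, f j) = ∑ j ∈ s, w (f j) := by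
    intro s f hf
    induction s using Finset.induction_on with
    | empty => simp [hw]
    | insert a s ha ih =>
      rw [Finset.prod_insert ha, Finset.sum_insert ha, wmul _ _ (hf a)
        (Finset.prod_ne_zero_iff.mpr fun j _ => hf j), ih]
  obtain ⟨q, hq⟩ := Finite.exists_max (fun j => v (zK B D j))
  refine ⟨q, hq, ?_⟩
  -- the integers A, n_j
  set A : ℕ := ∏ j, B.a j with hA
  have hApos : 0 < A := Finset.prod_pos fun j _ => ha0 j
  set n : Option κ → ℕ := fun j => A / B.a j with hn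
  have hna : ∀ j, B.a j * n j = A := fun j =>
    Nat.mul_div_cancel' (Finset.dvd_prod_of_mem _ (Finset.mem_univ j))
  have hnQ : ∀ j, (n j : ℚ) = A / B.a j := by
    intro j
    rw [eq_div_iff (haQ j)]
    have := hna j
    rw [mul_comm] at this
    exact_mod_cast this
  have hnsum : ∑ j, n j = A := by
    have : ∑ j, (n j : ℚ) = A := by
      rw [Finset.sum_congr rfl fun j _ => hnQ j]
      have h2 : ∀ j, (A : ℚ) / B.a j = A * (1 / B.a j) := fun j => by ring
      rw [Finset.sum_congr rfl fun j _ => h2 j, ← Finset.mul_sum, B.sum_inv, mul_one]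
    exact_mod_cast this
  -- powers of monomials
  have hmon : ∀ (β : Option κ → ℤ) (e : ℤ) (g : B.K D), (∑ j, β j * n j) = e * A →
      (g : F) = (∏ j, D.x j ^ β j) / algebraMap (P κ) F (pu none) ^ e →
      (A : ℤ) * w g = ∑ j, β j * n j * w (zK B D j) := by
    intro β e g hsum hg
    have h1 : g ^ (A : ℕ) = ∏ j, (zK B D j) ^ (β j * n j) := by
      apply Subtype.ext
      have h2 : (((∏ j, (zK B D j) ^ (β j * n j) : B.K D)) : F)
          = ∏ j, ((zK B D j : B.K D) : F) ^ (β j * n j) := by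
        rw [← IntermediateField.algebraMap_apply, map_prod]
        refine Finset.prod_congr rfl fun j _ => ?_
        rw [map_zpow₀]; rfl
      rw [h2]
      have h3 : ((g ^ A : B.K D) : F) = (g : F) ^ A := rfl
      rw [h3, hg, div_pow, ← Finset.prod_pow]
      have h4 : ∀ j, ((zK B D j : B.K D) : F) ^ (β j * n j)
          = (D.x j ^ β j) ^ A / algebraMap (P κ) F (pu none) ^ (β j * n j) := by
        intro j
        rw [hzF j, div_zpow, ← D.pow j]
        congr 1
        rw [← zpow_natCast, ← zpow_natCast, ← zpow_mul, ← zpow_mul]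
        congr 1
        have := hna j
        push_cast [← this]
        ring
      rw [Finset.prod_congr rfl fun j _ => h4 j, Finset.prod_div_distrib,
        thval_prod_zpow (hpu none), hsum, zpow_mul, zpow_natCast]
    have h5 : w (g ^ A) = A * w g := wpow g A
    rw [← h5, h1, wprod _ _ (fun j => zpow_ne_zero _ (hz0 j))]
    exact Finset.sum_congr rfl fun j _ => wzpow _ _
  -- y
  have hyw : (A : ℤ) * w y = ∑ j, (M : ℤ) * n j * w (zK B D j) := by
    apply hmon (fun _ => (M : ℤ)) (M : ℤ) y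
    · rw [← Finset.mul_sum]
      congr 1
      exact_mod_cast hnsum
    · rw [hy, div_pow, ← Finset.prod_pow]
      simp [zpow_natCast]
  by_cases htriv : ∀ x : B.K D, x ≠ 0 → v x = 1
  · left
    refine ⟨fun j => by rw [htriv _ (hz0 j), htriv _ (hz0 q)], ?_⟩
    rw [htriv _ hy0, htriv _ (hz0 q), one_pow]
  push Not at htriv
  obtain ⟨x1, hx1, hvx1⟩ := htriv
  -- least value
  have hex : ∃ k : ℕ, 0 < k ∧ ∃ x : B.K D, x ≠ 0 ∧ w x = -(k : ℤ) := by
    have hw1 : w x1 ≠ 0 := by
      intro h
      apply hvx1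
      have := exp_log (hvne x1 hx1)
      rw [← this]
      change exp (w x1) = 1
      rw [h]; rfl
    rcases lt_or_gt_of_ne hw1 with h | h
    · exact ⟨(w x1).natAbs, by omega, x1, hx1, by omega⟩
    · refine ⟨(w x1).natAbs, by omega, x1⁻¹, inv_ne_zero hx1, ?_⟩
      have h2 : w x1⁻¹ = - w x1 := by
        have := wzpow x1 (-1)
        rw [zpow_neg_one] at this
        rw [this]; ring
      rw [h2]; omega
  set k0 := Nat.find hex with hk0
  obtain ⟨hk0pos, t, ht0, htw⟩ := Nat.find_spec hex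
  have hmin : ∀ k : ℕ, 0 < k → ∀ x : B.K D, x ≠ 0 → w x = -(k : ℤ) → k0 ≤ k := by
    intro k hk x hx hwx
    exact Nat.find_min' hex ⟨hk, x, hx, hwx⟩
  have hdvd : ∀ x : B.K D, x ≠ 0 → (k0 : ℤ) ∣ w x := by
    intro x hx
    by_contra hcon
    set r := w x % (k0 : ℤ) with hr
    have hk0' : (0 : ℤ) < k0 := by exact_mod_cast hk0pos
    have hr0 : 0 ≤ r := Int.emod_nonneg _ hk0'.ne'
    have hrlt : r < k0 := Int.emod_lt_of_pos _ hk0'
    have hrne : r ≠ 0 := fun h => hcon (Int.dvd_of_emod_eq_zero h)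
    set s : B.K D := (x * t ^ (w x / (k0 : ℤ)))⁻¹ with hs
    have hs0 : s ≠ 0 := inv_ne_zero (mul_ne_zero hx (zpow_ne_zero _ ht0))
    have hws : w s = -r := by
      have h1 : w s = - w (x * t ^ (w x / (k0 : ℤ))) := by
        have := wzpow (x * t ^ (w x / (k0 : ℤ))) (-1)
        rw [zpow_neg_one] at this
        rw [hs, this]; ring
      rw [h1, wmul _ _ hx (zpow_ne_zero _ ht0), wzpow, htw]
      have := Int.emod_add_mul_ediv (w x) (k0 : ℤ)
      rw [hr]
      change -(w x + w x / (k0 : ℤ) * -(k0 : ℤ)) = -(w x % (k0 : ℤ))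
      linarith [this]
    have := hmin r.natAbs (by omega) s hs0 (by rw [hws]; omega)
    omega
  -- the natural numbers κ_j
  have hcnn : ∀ j, 0 ≤ w (zK B D q) - w (zK B D j) := by
    intro j
    have := (log_le_log (hvne _ (hz0 j)) (hvne _ (hz0 q))).2 (hq j)
    change 0 ≤ log (v (zK B D q)) - log (v (zK B D j))
    linarith
  have hcd : ∀ j, ∃ c : ℕ, w (zK B D q) - w (zK B D j) = k0 * c := by
    intro j
    obtain ⟨c, hc⟩ := dvd_sub (hdvd _ (hz0 q)) (hdvd _ (hz0 j))
    have hk0' : (0 : ℤ) < k0 := by exact_mod_cast hk0pos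
    have hcpos : 0 ≤ c := by
      have := hcnn j
      rw [hc] at this
      exact nonneg_of_mul_nonneg_right this hk0'
    exact ⟨c.toNat, by rw [hc, Int.toNat_of_nonneg hcpos]⟩
  choose c hc using hcd
  have hcq : c q = 0 := by
    have := hc q
    rw [sub_self] at this
    have hk0' : (k0 : ℤ) ≠ 0 := by have := hk0pos; omega
    rcases mul_eq_zero.1 this.symm with h | h
    · exact absurd h hk0'
    · exact_mod_cast h
  have hwz : ∀ j, w (zK B D j) = w (zK B D q) - k0 * c j := fun j => by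
    have := hc j; omega
  -- integrality
  have hint : ∀ β : Option κ → ℤ, B.Adm β → ∃ z : ℤ, ∑ j, (β j : ℚ) * c j / B.a j = z := by
    intro β hβ
    have hs0 : ∑ j, β j * n j = 0 := by
      have : ∑ j, ((β j * n j : ℤ) : ℚ) = 0 := by
        have h1 : ∀ j, ((β j * n j : ℤ) : ℚ) = A * ((β j : ℚ) / B.a j) := by
          intro j
          push_cast
          rw [hnQ j]; ring
        rw [Finset.sum_congr rfl fun j _ => h1 j, ← Finset.mul_sum, hβ.1, mul_zero]
      exact_mod_cast this
    have h1 := hmon β 0 ⟨_, mon_mem B D β hβ⟩ (by rw [hs0]; ring) (by simp)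
    set g : B.K D := ⟨_, mon_mem B D β hβ⟩ with hg
    have hg0 : g ≠ 0 := by
      intro h
      have : (g : F) = 0 := by rw [h]; rfl
      exact (Finset.prod_ne_zero_iff.mpr fun j _ => zpow_ne_zero _ (hx j)) this
    obtain ⟨z, hz⟩ := hdvd g hg0
    refine ⟨-z, ?_⟩
    have h2 : ∑ j, β j * n j * w (zK B D j) = -(k0 : ℤ) * ∑ j, β j * n j * c j := by
      have : ∀ j, β j * n j * w (zK B D j)
          = w (zK B D q) * (β j * n j) - (k0 : ℤ) * (β j * n j * c j) := by
        intro j; rw [hwz j]; ring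
      rw [Finset.sum_congr rfl fun j _ => this j, Finset.sum_sub_distrib, ← Finset.mul_sum,
        ← Finset.mul_sum, hs0]
      ring
    have hk0' : (k0 : ℤ) ≠ 0 := by have := hk0pos; omega
    have h3 : (A : ℤ) * z = -∑ j, β j * n j * c j := by
      rw [h2, hz] at h1
      apply mul_left_cancel₀ hk0'
      linarith
    have h4 : ((A : ℤ) : ℚ) * z = -∑ j, ((β j * n j * c j : ℤ) : ℚ) := by
      exact_mod_cast h3
    have h5 : ∀ j, ((β j * n j * c j : ℤ) : ℚ) = A * ((β j : ℚ) * c j / B.a j) := by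
      intro j
      push_cast
      rw [hnQ j]; ring
    rw [Finset.sum_congr rfl fun j _ => h5 j, ← Finset.mul_sum] at h4
    have hAQ : (A : ℚ) ≠ 0 := by positivity
    apply mul_left_cancel₀ hAQ
    push_cast at h4 ⊢
    linarith
  have hyw2 : (A : ℤ) * w y = A * (M * w (zK B D q)) - M * k0 * ∑ j, (n j : ℤ) * c j := by
    rw [hyw]
    have : ∀ j, (M : ℤ) * n j * w (zK B D j)
        = (M * w (zK B D q)) * n j - (M * k0) * ((n j : ℤ) * c j) := by
      intro j; rw [hwz j]; ring
    rw [Finset.sum_congr rfl fun j _ => this j, Finset.sum_sub_distrib, ← Finset.mul_sum,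
      ← Finset.mul_sum]
    have h2 : ∑ j, (n j : ℤ) = A := by exact_mod_cast hnsum
    rw [h2]; ring
  have hAZ : (0 : ℤ) < A := by exact_mod_cast hApos
  by_cases hall : ∀ j, c j = 0
  · left
    have hwq : ∀ j, w (zK B D j) = w (zK B D q) := fun j => by rw [hwz j, hall j]; simp
    have hvq : ∀ j, v (zK B D j) = v (zK B D q) := by
      intro j
      rw [← exp_log (hvne _ (hz0 j)), ← exp_log (hvne _ (hz0 q))]
      exact congrArg exp (hwq j)
    refine ⟨hvq, ?_⟩
    have h3 : w y = M * w (zK B D q) := by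
      have : ∑ j, (n j : ℤ) * c j = 0 := Finset.sum_eq_zero fun j _ => by rw [hall j]; simp
      rw [this, mul_zero, sub_zero] at hyw2
      exact mul_left_cancel₀ hAZ.ne' hyw2
    rw [← map_pow]
    rw [← log_le_log (hvne _ hy0) (hvne _ (pow_ne_zero _ (hz0 q)))]
    change w y ≤ w (zK B D q ^ M)
    rw [wpow, h3]
  · right
    push Not at hall
    have h1 := hcan c ⟨q, hcq⟩ hall hint
    refine ⟨t, ht0, ?_, ?_, ?_⟩
    · rw [← exp_log (hvne _ ht0)]
      change exp (w t) < exp 0
      rw [exp_lt_exp, htw]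
      have := hk0pos
      omega
    · intro x hx
      by_cases hx0 : x = 0
      · rw [hx0, map_zero]; exact zero_le
      · rw [← log_le_log (hvne _ hx0) (hvne _ ht0)]
        change w x ≤ w t
        have hneg : w x < 0 := by
          have : v x < exp 0 := hx
          exact (log_lt_iff_lt_exp (hvne _ hx0)).2 this
        have := hmin (w x).natAbs (by omega) x hx0 (by omega)
        rw [htw]
        change w x ≤ -(k0 : ℤ)
        omega
    · have h2 : (A : ℤ) ≤ ∑ j, (n j : ℤ) * c j := by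
        have h3 : (A : ℚ) ≤ ∑ j, (n j : ℚ) * c j := by
          have h4 : ∀ j, (n j : ℚ) * c j = A * ((c j : ℚ) / B.a j) := by
            intro j; rw [hnQ j]; ring
          rw [Finset.sum_congr rfl fun j _ => h4 j, ← Finset.mul_sum]
          have hAQ : (0 : ℚ) < A := by positivity
          nlinarith
        exact_mod_cast h3
      rw [← map_mul, ← map_pow]
      rw [← log_le_log (hvne _ hy0) (hvne _ (pow_ne_zero _ (mul_ne_zero (hz0 q) ht0)))]
      change w y ≤ w ((zK B D q * t) ^ M)
      rw [wpow, wmul _ _ (hz0 q) ht0, htw]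
      change w y ≤ M * (w (zK B D q) + -(k0 : ℤ))
      have hMk : (0 : ℤ) ≤ (M : ℤ) * k0 := by positivity
      have h5 : (A : ℤ) * w y ≤ A * (M * (w (zK B D q) + -(k0 : ℤ))) := by
        rw [hyw2]
        nlinarith [mul_le_mul_of_nonneg_left h2 hMk]
      exact le_of_mul_le_mul_left h5 hAZ

end Pool.Agent.Work.MP_4329d7_ag.FF
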