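import Mathlib
import Pool.Agent.Work.MP_4329d7_ag.FF.ThMat
import Pool.Agent.Work.MP_4329d7_ag.FF.ThVal

/-!
Theta: nonzero tensor differentials of order `m`, `(card κ - 1) N ∣ m`.
-/

open scoped WithZero

namespace Pool.Agent.Work.MP_4329d7_ag.FF

variable {κ : Type} [Fintype κ] [DecidableEq κ] [Nonempty κ]

/-- HINT. `m = (card κ - 1) M`, `N ∣ M` (also for `m = 0`: `M = 0`; if `card κ = 1` then `m = 0` and one
may take `M = 0`), `e : Fin M × {k // k ≠ l0} ≃ Fin m` by cardinality, `z = zK B D`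
(`zK none = 1`, `∑ zK = 0` because `∑ u_j = 0`), `y` from `yfac_mem`. `T` from `exists_thForm`.
Regular at `v`: `Rep.regularAt`, `Rep.reindex`, `thFun_rep`, `can_val`. Nonzero: `thFun_ne_zero` with
`exists_frame`. -/
theorem exists_theta (B : BP (Option κ)) (hcan : B.CanZ) {F : Type} [Field F] [Algebra ℂ F]
    [Algebra (P κ) F] [IsScalarTower ℂ (P κ) F] (D : Kum κ B.a F) (l0 : κ)
    (hcard : 2 ≤ Fintype.card κ) (m : ℕ) (hm : (Fintype.card κ - 1) * B.N ∣ m) :
    ∃ T : TensorForm (B.K D) m, IsRegular T ∧ T ≠ 0 := by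
  obtain ⟨c, hc⟩ := hm
  set M : ℕ := B.N * c with hM
  have hmM : m = M * (Fintype.card κ - 1) := by rw [hc, hM]; ring
  have hcardsub : Fintype.card (Fin M × {k : κ // k ≠ l0}) = Fintype.card (Fin m) := by
    rw [Fintype.card_prod, Fintype.card_fin, Fintype.card_fin, Fintype.card_subtype_compl,
      Fintype.card_subtype_eq, hmM]
  let e : Fin M × {k : κ // k ≠ l0} ≃ Fin m := Fintype.equivOfCardEq hcardsub
  have hpu : ∀ j, algebraMap (P κ) F (pu j) ≠ 0 := fun j h =>
    pu_ne_zero j ((algebraMap (P κ) F).injective (by rw [h, map_zero]))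
  have hz : ∀ j, zK B D j ≠ 0 := by
    intro j h
    have h1 := congrArg (fun x : B.K D => (x : F)) h
    simp only [zK, ZeroMemClass.coe_zero, map_div₀] at h1
    exact (div_ne_zero (hpu j) (hpu none)) h1
  have hz1 : zK B D none = 1 := by
    apply Subtype.ext
    simp only [zK, OneMemClass.coe_one, map_div₀]
    exact div_self (hpu none)
  have hs : ∑ j, zK B D j = 0 := by
    apply Subtype.ext
    rw [AddSubmonoidClass.coe_finsetSum]
    simp only [zK, ZeroMemClass.coe_zero, map_div₀]
    rw [← Finset.sum_div, ← map_sum]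
    have h1 : ∑ j : Option κ, (pu j : P κ) = 0 := by
      rw [Fintype.sum_option]
      unfold pu u
      rw [map_neg, map_sum]
      simp
    rw [h1, map_zero, zero_div]
  let y : B.K D := ⟨((∏ j, D.x j) / algebraMap (P κ) F (pu none)) ^ M,
    yfac_mem B D M (dvd_mul_right _ _)⟩
  have hy : y ≠ 0 := by
    intro h
    have h1 := congrArg (fun x : B.K D => (x : F)) h
    simp only [y, ZeroMemClass.coe_zero] at h1
    exact pow_ne_zero _ (div_ne_zero (Finset.prod_ne_zero_iff.mpr fun j _ => x_ne_zero B D j)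
      (hpu none)) h1
  obtain ⟨T, hT⟩ := exists_thForm l0 (zK B D) hz hz1 hs y hy M m e
  refine ⟨T, ?_, ?_⟩
  · intro v hv
    apply Rep.regularAt
    have h1 := thFun_rep v l0 (zK B D) hz hz1 hs y M (can_val B hcan D M y rfl v hv)
    have h2 := Rep.reindex v e h1
    have h3 : (fun D' : Fin m → Derivation ℂ (B.K D) (B.K D) => T D') =
        fun D' => thFun l0 (zK B D) y M (fun j => D' (e j)) := funext hT
    rw [h3]
    exact h2
  · obtain ⟨Fr, hFr⟩ := exists_frame B D l0
    have h1 := thFun_ne_zero l0 (zK B D) hz hz1 hs y hy M Fr hFr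
    intro h0
    apply h1
    have h2 := hT (fun i => Fr.d (e.symm i).2)
    rw [h0] at h2
    simp only [Equiv.symm_apply_apply] at h2
    rw [← h2]
    rfl

end Pool.Agent.Work.MP_4329d7_ag.FF
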