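import Mathlib
import Pool.Agent.Work.MP_4329d7_ag.FF.Setup
import Pool.Agent.Work.MP_4329d7_ag.FF.Key
import Pool.Agent.Work.MP_4329d7_ag.FF.PolyBound
import Pool.Agent.Work.MP_4329d7_ag.FF.HomComp

/-!
Vanish: a nonzero tensor differential of order `m` exists only if `(card κ - 1) N ∣ m`.
-/

open MvPolynomial
open scoped WithZero

namespace Pool.Agent.Work.MP_4329d7_ag.FF

variable {κ : Type} [Fintype κ] [DecidableEq κ] {m : ℕ}

lemma isHomP_pow [Nonempty κ] {p : P κ} {d : ℤ} (hp : IsHomP p d) (n : ℕ) :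
    IsHomP (p ^ n) (n * d) := by
  induction n with
  | zero =>
    refine ⟨1, 1, 0, 0, isHomogeneous_one _ _, isHomogeneous_one _ _, one_ne_zero, ?_, ?_⟩ <;> simp
  | succ n ih =>
    have := ih.mul hp
    rw [pow_succ]
    convert this using 1
    push_cast; ring

lemma isHomP_prod_pu [Nonempty κ] (M : Option κ → ℕ) (S : Finset (Option κ)) :
    IsHomP (∏ j ∈ S, (pu j : P κ) ^ M j) (∑ j ∈ S, (M j : ℤ)) := by
  classical
  induction S using Finset.induction_on with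
  | empty =>
    refine ⟨1, 1, 0, 0, isHomogeneous_one _ _, isHomogeneous_one _ _, one_ne_zero, ?_, ?_⟩ <;> simp
  | insert a S ha ih =>
    rw [Finset.prod_insert ha, Finset.sum_insert ha]
    have h1 := isHomP_pow (IsHomP.pu (κ := κ) a) (M a)
    rw [mul_one] at h1
    exact h1.mul ih

/-- HINT. `Frame.exists_ne`: some `T(∂_w) ≠ 0`, so some component `α` of it is nonzero. Let
`c w = repr (T(∂_w)) α`, `G = Gform l0 c ≠ 0` (`Gform_ne_zero`). By `comp_hom` at this `w`: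
`∑ α_j/a_j = A0`, `N ∣ ∑ α_j h_j`; every `c w` is `IsHomP` of degree `-A0` (`comp_hom`, with the
same `A0`, or `c w = 0`). `GoodForm B.a α A0 m G`: `Gform_euler`; `poly_bound` and `Gform_hom`,
`IsHomP.mul`, `IsHomP.pu`, `IsHomP.support`. `key`: `m = (card κ - 1) k`, `a_j ∣ k - α_j`. Finally
`k ≡ k ∑ h_j ≡ ∑ α_j h_j ≡ 0 (mod N)` by `B.sum_h`, `B.dvd`. -/
theorem vanish (B : BP (Option κ)) (hcard : 2 ≤ Fintype.card κ)
    {F : Type} [Field F] [Algebra ℂ F] [Algebra (P κ) F] [IsScalarTower ℂ (P κ) F]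
    (D : Kum κ B.a F) (l0 : κ) (hmin : ∀ j, B.a (some l0) ≤ B.a j)
    (Fr : Frame (B.K D) {k : κ // k ≠ l0})
    (hz : ∀ i, ((Fr.z i : B.K D) : F) = algebraMap (P κ) F (pu (some (i : κ)) / pu none))
    (T : TensorForm (B.K D) m) (hT : IsRegular T) (hne : T ≠ 0) :
    (Fintype.card κ - 1) * B.N ∣ m := by
  classical
  have : Nonempty κ := ⟨l0⟩
  have ha : ∀ j, 0 < B.a j := fun j => lt_of_lt_of_le two_pos (B.two_le j)
  obtain ⟨w0, hw0⟩ := Fr.exists_ne T hne
  have hw0F : ((T (fun s => Fr.d (w0 s)) : B.K D) : F) ≠ 0 := by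
    intro h; exact hw0 (Subtype.ext h)
  obtain ⟨α, hα⟩ : ∃ α, (D.b hcard ha).repr ((T (fun s => Fr.d (w0 s)) : B.K D) : F) α ≠ 0 := by
    by_contra hcon
    push Not at hcon
    apply hw0F
    have : (D.b hcard ha).repr ((T (fun s => Fr.d (w0 s)) : B.K D) : F) = 0 := by
      ext α; exact hcon α
    exact (D.b hcard ha).repr.map_eq_zero_iff.mp this
  obtain ⟨hNdvd, A0, hA0, hhom0⟩ := comp_hom B hcard ha D _ α hα
  set c : (Fin m → {k : κ // k ≠ l0}) → P κ :=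
    fun w => (D.b hcard ha).repr ((T (fun s => Fr.d (w s)) : B.K D) : F) α with hc
  have hchom : ∀ w, IsHomP (c w) (-(A0 : ℤ)) := by
    intro w
    by_cases h0 : c w = 0
    · rw [h0]; exact IsHomP.zero _
    · obtain ⟨-, A1, hA1, h1⟩ := comp_hom B hcard ha D _ α h0
      have : A1 = A0 := by
        have := hA1.symm.trans hA0
        exact_mod_cast this
      rw [this] at h1; exact h1
  have hG0 : Gform l0 c ≠ 0 := Gform_ne_zero l0 c ⟨w0, hα⟩
  have hgood : GoodForm B.a (fun j => (α j : ℕ)) A0 m (Gform l0 c) := by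
    refine ⟨fun v s => Gform_euler l0 c v s, fun W hW => ?_⟩
    obtain ⟨Q, hQ⟩ := poly_bound B hcard ha D l0 Fr hz T hT W hW α
    refine ⟨Q, hQ, ?_⟩
    have h1 := Gform_hom l0 c (-(A0 : ℤ)) hchom W
    have h2 := (isHomP_prod_pu (κ := κ) (fun j => flr B.a (fun j => (α j : ℕ)) (cnt W j) j)
      Finset.univ).mul h1
    rw [← hQ] at h2
    have h3 := IsHomP.support h2
    intro d hd
    rw [h3 d hd]; ring
  obtain ⟨k, hk, hkj⟩ := key B.a (fun j => (α j : ℕ)) A0 l0 (Gform l0 c) hgood hcard B.two_le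
    B.sum_inv (fun j => (α j).2) hA0 hmin hG0
  rw [hk]
  apply Nat.mul_dvd_mul_left
  have e1 : (B.N : ℤ) ∣ ∑ j, ((k : ℤ) - (α j : ℕ)) * B.h j := by
    apply Finset.dvd_sum
    intro j _
    obtain ⟨q, hq⟩ := hkj j
    have := B.dvd j
    rw [hq]
    have h5 : (B.a j : ℤ) * q * B.h j = (B.a j * B.h j) * q := by ring
    rw [h5]
    exact Dvd.dvd.mul_right this q
  have e2 : ∑ j, ((k : ℤ) - (α j : ℕ)) * B.h j
      = (k : ℤ) * ∑ j, B.h j - ∑ j, ((α j : ℕ) : ℤ) * B.h j := by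
    rw [Finset.mul_sum, ← Finset.sum_sub_distrib]
    apply Finset.sum_congr rfl
    intro j _; ring
  have e3 : (B.N : ℤ) ∣ (k : ℤ) * ∑ j, B.h j := by
    have := dvd_add e1 hNdvd
    rw [e2] at this
    simpa using this
  have e4 : (B.N : ℤ) ∣ (k : ℤ) * (∑ j, B.h j - 1) := Dvd.dvd.mul_left B.sum_h _
  have e5 : (B.N : ℤ) ∣ (k : ℤ) := by
    have := dvd_sub e3 e4
    have h6 : (k : ℤ) * ∑ j, B.h j - (k : ℤ) * (∑ j, B.h j - 1) = k := by ring
    rw [h6] at this; exact this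
  exact_mod_cast e5

end Pool.Agent.Work.MP_4329d7_ag.FF
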